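import Pool.Agent.Lib.SAC63.JBig

/-!
The case of growth one, and the Hilbert function.
-/

set_option autoImplicit false

namespace SAC63

open Finset SAC75

variable {b ℓ lam : ℕ → ℕ} {h μ : ℕ → ℕ → ℕ} {c r e m D : ℕ}

lemma gg_one (b : ℕ → ℕ) (c r : ℕ) (j : ℕ) :
    gg b c r 1 j = 2 * ((b (j + 1) : ℝ) + b (j + 2)) + 2 * r * ((b j : ℝ) + b (j + 1))
      - c * b (j + 1) := by
  unfold gg
  ring

section one

variable (x1 : 1 / rad b = 1)

include x1

/-- The length of the ring is at most `4 (1 + r)`. -/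
lemma JSys.c_le (H : JSys b ℓ lam h μ c r e m D) : c ≤ 4 * (1 + r) := by
  have r0 := H.rpos
  have key := avg3 H.b1 r0 (2 * (r : ℝ)) (2 + 2 * r - c) 2 0 (fun j _ => by
    have := H.g_nonneg j
    rw [x1, gg_one] at this
    linarith)
  rw [x1] at key
  have : (c : ℝ) ≤ 4 * (1 + r) := by linarith
  exact_mod_cast this

/-- Averaged form of `sm`. -/
lemma JSys.sm_one (H : JSys b ℓ lam h μ c r e m D) (l n : ℕ) :
    (4 * (1 + r) - c : ℝ) * μ l n ≤ 2 * ℓ l := by
  have r0 := H.rpos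
  set u : ℝ := (μ l n : ℝ) with hu
  have key := avg3 H.b1 r0 (-(2 * (r : ℝ) * u)) (2 * ℓ l - (2 + 2 * r - c) * u) (-(2 * u))
    (l + 1 + D) (fun j hj => by
    have := H.g_sm l n j hj
    rw [x1, gg_one, one_pow] at this
    linarith)
  rw [x1] at key
  linarith

/-- Averaged form of `B`. -/
lemma JSys.B_one (H : JSys b ℓ lam h μ c r e m D) (l n : ℕ) :
    4 * (r : ℝ) * (μ l (n + 1) + μ l n) ≤ c * μ l (n + 1) + 2 * ℓ l := by
  have r0 := H.rpos
  set u : ℝ := (μ l (n + 1) : ℝ) with hu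
  set v : ℝ := (r : ℝ) * ((μ l (n + 1) : ℝ) + μ l n) with hv
  -- average in `i`
  have step1 : ∀ j : ℕ, l + D + 1 ≤ j → 0 ≤ -(2 * v) * (b j : ℝ)
      + (c * u + 2 * ℓ l - 2 * v) * b (j + 1) + 0 * b (j + 2) := by
    intro j hj
    set Y : ℝ := (b j : ℝ) + b (j + 1) with hY
    have key := avg_lin H.b1 r0 (N := 4)
      ![(b (j + 1) : ℝ) * ℓ l, (b (j + 1) : ℝ) * ℓ l,
        -(v * Y) + c * b (j + 1) * u, -(v * Y)]
      ![0, 1, n + 1, n + 2] (j + 2 + D) (fun i hi => by
        have S := H.sq (i + n + 1) (j + 1) (by omega)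
        have T := H.hs (j + 1) l (by omega)
        have T' : (h (j + 1) l : ℝ) + h (j + 1 + 1) l = b (j + 1) * ℓ l := by exact_mod_cast T
        have L1 := H.B l n i j (by omega) (by omega)
        have L2 := H.B l n (i + 1) j (by omega) (by omega)
        have L3 := H.B l n i (j + 1) (by omega) (by omega)
        have L4 := H.B l n (i + 1) (j + 1) (by omega) (by omega)
        have e1 : i + 1 + n + 1 = i + n + 2 := by omega
        rw [e1] at L2 L4
        have L1' : (r : ℝ) * (b (i + n + 1) * b j) * (μ l (n + 1) + μ l n)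
            ≤ h (i + n + 1) (j + 1) * u + b i * h (j + 1) l := by
          rw [hu]; exact_mod_cast L1
        have L2' : (r : ℝ) * (b (i + n + 2) * b j) * (μ l (n + 1) + μ l n)
            ≤ h (i + n + 2) (j + 1) * u + b (i + 1) * h (j + 1) l := by
          rw [hu]; exact_mod_cast L2
        have L3' : (r : ℝ) * (b (i + n + 1) * b (j + 1)) * (μ l (n + 1) + μ l n)
            ≤ h (i + n + 1) (j + 1 + 1) * u + b i * h (j + 1 + 1) l := by
          rw [hu]; exact_mod_cast L3
        have L4' : (r : ℝ) * (b (i + n + 2) * b (j + 1)) * (μ l (n + 1) + μ l n)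
            ≤ h (i + n + 2) (j + 1 + 1) * u + b (i + 1) * h (j + 1 + 1) l := by
          rw [hu]; exact_mod_cast L4
        have S' : ((h (i + n + 1) (j + 1) : ℝ) + h (i + n + 1 + 1) (j + 1)
            + h (i + n + 1) (j + 1 + 1) + h (i + n + 1 + 1) (j + 1 + 1)) * u
            = (c * (b (i + n + 1) * b (j + 1))) * u := by
          rw [S]
        have T1 : (b i : ℝ) * (h (j + 1) l + h (j + 1 + 1) l) = b i * (b (j + 1) * ℓ l) := by
          rw [T']
        have T2 : (b (i + 1) : ℝ) * (h (j + 1) l + h (j + 1 + 1) l)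
            = b (i + 1) * (b (j + 1) * ℓ l) := by
          rw [T']
        simp only [Fin.sum_univ_succ, Fin.sum_univ_zero, Matrix.cons_val_zero,
          Matrix.cons_val_succ, add_zero]
        have e3 : i + (n + 1) = i + n + 1 := by omega
        have e4 : i + (n + 2) = i + n + 2 := by omega
        have e5 : i + n + 1 + 1 = i + n + 2 := by omega
        rw [e3, e4, hY, hv]
        rw [e5] at S'
        linarith)
    simp only [Fin.sum_univ_succ, Fin.sum_univ_zero, Matrix.cons_val_zero,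
      Matrix.cons_val_succ, add_zero, mul_one, x1, one_pow] at key
    rw [hY] at key
    linarith
  have key := avg3 H.b1 r0 _ _ _ (l + D + 1) step1
  rw [x1] at key
  rw [hv] at key
  linarith

/-- The length of the ring is `4 (1 + r)`. -/
theorem JSys.c_eq (H : JSys b ℓ lam h μ c r e m D) (hr : 2 ≤ r) (hm : m ≤ r) :
    c = 4 * (1 + r) := by
  have r0 := H.rpos
  have hc := H.c_le x1
  by_contra hne
  have hlt : c < 4 * (1 + r) := lt_of_le_of_ne hc hne
  have hc1 : (c : ℝ) + 1 ≤ 4 * (1 + r) := by exact_mod_cast hlt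
  have hr2 : (2 : ℝ) ≤ r := by exact_mod_cast hr
  -- the Bass numbers are bounded
  have bdd : ∀ l n, μ l n ≤ 2 * ℓ l := by
    intro l n
    have h1 := H.sm_one x1 l n
    have h2 : (0 : ℝ) ≤ μ l n := by positivity
    have h3 : (μ l n : ℝ) ≤ 2 * ℓ l := by nlinarith
    exact_mod_cast h3
  have mx : ∀ l, ∃ n0, ∀ n, μ l n ≤ μ l n0 := by
    intro l
    have hfin : (Set.range (μ l)).Finite :=
      Set.Finite.subset (Set.finite_Iic (2 * ℓ l)) (by rintro _ ⟨n, rfl⟩; exact bdd l n)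
    have hne : (Set.range (μ l)).Nonempty := ⟨_, ⟨0, rfl⟩⟩
    obtain ⟨s, ⟨n0, rfl⟩, hs⟩ := hfin.exists_maximal hne
    refine ⟨n0, fun n => ?_⟩
    rcases le_total (μ l n) (μ l n0) with h | h
    · exact h
    · exact hs ⟨n, rfl⟩ h
  -- both cases give an inequality for all `l`
  rcases Nat.lt_or_ge c (4 * r) with hcr | hcr
  · have hcr' : (c : ℝ) < 4 * r := by exact_mod_cast hcr
    have one : ∀ l, 4 * (r : ℝ) * (r * b (l + 1)) ≤ 2 * ℓ (l + 2) := by
      intro l
      obtain ⟨n0, hn0⟩ := mx (l + 2)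
      have h1 := H.B_one x1 (l + 2) n0
      have h3 : (r : ℝ) * b (l + 1) ≤ μ (l + 2) 0 := by exact_mod_cast H.mu0 l
      have h4 : (μ (l + 2) 0 : ℝ) ≤ μ (l + 2) n0 := by exact_mod_cast hn0 0
      have h5 : (0 : ℝ) ≤ μ (l + 2) (n0 + 1) := by positivity
      have h6 : ((c : ℝ) - 4 * r) * μ (l + 2) (n0 + 1) ≤ 0 :=
        mul_nonpos_of_nonpos_of_nonneg (by linarith) h5
      have h7 : 4 * (r : ℝ) * (r * b (l + 1)) ≤ 4 * r * μ (l + 2) n0 :=
        mul_le_mul_of_nonneg_left (h3.trans h4) (by positivity)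
      linarith
    have key := avg3 H.b1 r0 (-(4 * (r : ℝ) * r)) (2 * (c : ℝ) - 4 * r * r) 0 1 (fun k hk => by
      obtain ⟨l, rfl⟩ : ∃ l, k = l + 1 := ⟨k - 1, by omega⟩
      have h1 := one l
      have h2 := one (l + 1)
      have h5 : (ℓ (l + 2) : ℝ) + ℓ (l + 1 + 2) = c * b (l + 2) := by
        exact_mod_cast H.ls (l + 2)
      have e1 : l + 1 + 1 = l + 2 := rfl
      rw [e1] at h2 ⊢
      linarith)
    rw [x1] at key
    nlinarith
  · have hcr' : (4 : ℝ) * r ≤ c := by exact_mod_cast hcr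
    have p0 : 0 < 8 * (r : ℝ) - c := by linarith
    have one : ∀ l, (8 * (r : ℝ) - c) * (r * b (l + 1)) ≤ 2 * ℓ (l + 2) := by
      intro l
      obtain ⟨n0, hn0⟩ := mx (l + 2)
      have h1 := H.B_one x1 (l + 2) n0
      have h3 : (r : ℝ) * b (l + 1) ≤ μ (l + 2) 0 := by exact_mod_cast H.mu0 l
      have h4 : (μ (l + 2) 0 : ℝ) ≤ μ (l + 2) n0 := by exact_mod_cast hn0 0
      have h5 : (μ (l + 2) (n0 + 1) : ℝ) ≤ μ (l + 2) n0 := by exact_mod_cast hn0 (n0 + 1)
      have h6 : ((c : ℝ) - 4 * r) * μ (l + 2) (n0 + 1) ≤ (c - 4 * r) * μ (l + 2) n0 :=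
        mul_le_mul_of_nonneg_left h5 (by linarith)
      have h7 : (8 * (r : ℝ) - c) * (r * b (l + 1)) ≤ (8 * r - c) * μ (l + 2) n0 :=
        mul_le_mul_of_nonneg_left (h3.trans h4) p0.le
      linarith
    have key := avg3 H.b1 r0 (-((8 * (r : ℝ) - c) * r)) (2 * (c : ℝ) - (8 * r - c) * r) 0 1
      (fun k hk => by
      obtain ⟨l, rfl⟩ : ∃ l, k = l + 1 := ⟨k - 1, by omega⟩
      have h1 := one l
      have h2 := one (l + 1)
      have h5 : (ℓ (l + 2) : ℝ) + ℓ (l + 1 + 2) = c * b (l + 2) := by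
        exact_mod_cast H.ls (l + 2)
      have e1 : l + 1 + 1 = l + 2 := rfl
      rw [e1] at h2 ⊢
      linarith)
    rw [x1] at key
    have h8 : (8 : ℝ) * r * r ≤ c * (1 + r) := by linarith
    have h8' : 8 * r * r ≤ c * (1 + r) := by exact_mod_cast h8
    have r2 : r = 2 := by
      by_contra h
      have h3 : 3 ≤ r := by omega
      have h9 : c * (1 + r) ≤ (4 * r + 3) * (1 + r) := Nat.mul_le_mul_right _ (by omega)
      nlinarith
    subst r2
    have c11 : c = 11 := by omega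
    have hS := H.stepS
    have hl := H.g_lam
    rw [x1] at hS hl
    have e3 : e ≤ 3 := by
      have : (4 : ℝ) * e ≤ 4 + c := by linarith
      have h1 : 4 * e ≤ 4 + c := by exact_mod_cast this
      omega
    have key := avg3 H.b1 r0 (2 * (m : ℝ)) (2 * (m : ℝ) + 2 * (1 + e) - 2 * c + 2 * (2 : ℕ))
      (2 * (1 + (e : ℝ)) - c + 2 * (2 : ℕ)) 1 (fun j hj => by
        have h1 := hl (j + 1)
        have h2 := H.le2 j hj
        rw [gg_one] at h1
        have e1 : j + 1 + 1 = j + 2 := rfl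
        have e2 : j + 1 + 2 = j + 3 := rfl
        rw [e1, e2] at h1
        linarith)
    rw [x1, c11] at key
    have hm' : (m : ℝ) ≤ 2 := by exact_mod_cast hm
    have he' : (e : ℝ) ≤ 3 := by exact_mod_cast e3
    push_cast at key
    linarith

/-- The Betti numbers are eventually constant. -/
theorem JSys.b_const (H : JSys b ℓ lam h μ c r e m D) (hr : 2 ≤ r) (hm : m ≤ r) :
    ∃ B j1, ∀ j, j1 ≤ j → b j = B := by
  have r0 := H.rpos
  have hc := H.c_eq x1 hr hm
  have hr2 : (2 : ℝ) ≤ r := by exact_mod_cast hr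
  have step : ∀ j, (r : ℝ) * ((b (j + 1) : ℝ) - b j) ≤ (b (j + 2) : ℝ) - b (j + 1) := by
    intro j
    have h1 := H.g_nonneg j
    rw [x1, gg_one, hc] at h1
    push_cast at h1
    linarith
  -- the Betti numbers do not increase
  have mono : ∀ j, b (j + 1) ≤ b j := by
    intro j
    by_contra hcon
    push Not at hcon
    have hcon' : (b j : ℝ) + 1 ≤ b (j + 1) := by exact_mod_cast hcon
    have grow : ∀ n : ℕ, (2 : ℝ) ^ n ≤ (b (j + n + 1) : ℝ) - b (j + n) := by
      intro n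
      induction n with
      | zero => simp only [pow_zero, add_zero]; linarith
      | succ n ih =>
        have h1 := step (j + n)
        have e1 : j + (n + 1) + 1 = j + n + 2 := by omega
        have e2 : j + (n + 1) = j + n + 1 := by omega
        rw [e1, e2, pow_succ]
        have p2 : (0 : ℝ) < 2 ^ n := by positivity
        have h2 : 2 * ((b (j + n + 1) : ℝ) - b (j + n))
            ≤ r * ((b (j + n + 1) : ℝ) - b (j + n)) :=
          mul_le_mul_of_nonneg_right hr2 (by linarith)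
        linarith
    have big : ∀ n : ℕ, (2 : ℝ) ^ n ≤ b (j + 1 + n) := by
      intro n
      have h1 := grow n
      have e1 : j + n + 1 = j + 1 + n := by omega
      rw [e1] at h1
      have h2 : (0 : ℝ) ≤ b (j + n) := by positivity
      linarith
    have hr1 : rad b = 1 := by
      have := x1
      rw [one_div, inv_eq_one] at this
      exact this
    have hgood : Good b (3 / 4) := good_of_lt_rad (by norm_num) (by rw [hr1]; norm_num)
    have lim := hgood.2.tendsto_atTop_zero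
    have lim2 := (Filter.tendsto_add_atTop_iff_nat
      (f := fun n => (b n : ℝ) * (3 / 4) ^ n) (j + 1)).2 lim
    have ge : ∀ n, ((3 : ℝ) / 4) ^ (j + 1) ≤ (b (n + (j + 1)) : ℝ) * (3 / 4) ^ (n + (j + 1)) := by
      intro n
      have h2 := big n
      have h3 : (1 : ℝ) ≤ (b (j + 1 + n) : ℝ) * (3 / 4) ^ n := by
        have h4 : (1 : ℝ) ≤ 2 ^ n * (3 / 4) ^ n := by
          rw [← mul_pow]
          exact one_le_pow₀ (by norm_num)
        calc (1 : ℝ) ≤ 2 ^ n * (3 / 4) ^ n := h4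
          _ ≤ _ := mul_le_mul_of_nonneg_right h2 (by positivity)
      have h6 : (0 : ℝ) < (3 / 4) ^ (j + 1) := by positivity
      have h7 := mul_le_mul_of_nonneg_right h3 h6.le
      have e1 : ((3 : ℝ) / 4) ^ (j + 1 + n) = (3 / 4) ^ (j + 1) * (3 / 4) ^ n := pow_add _ _ _
      rw [add_comm n (j + 1), e1]
      linarith
    have := ge_of_tendsto' lim2 ge
    have h6 : (0 : ℝ) < (3 / 4) ^ (j + 1) := by positivity
    linarith
  have anti : Antitone b := antitone_nat_of_succ_le mono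
  obtain ⟨j1, hj1⟩ : ∃ j1, ∀ n, b j1 ≤ b n := by
    have hne : (Set.range b).Nonempty := ⟨_, ⟨0, rfl⟩⟩
    obtain ⟨j1, hj1⟩ := Nat.sInf_mem hne
    exact ⟨j1, fun n => by rw [hj1]; exact Nat.sInf_le ⟨n, rfl⟩⟩
  exact ⟨b j1, j1, fun j hj => le_antisymm (anti hj) (hj1 j)⟩

end one

/-- The main numerical statement. -/
theorem JSys.main (H : JSys b ℓ lam h μ c r e m D) (hr : 2 ≤ r) (hm : m ≤ r) :
    c = 4 * (1 + r) ∧ e = r + 2 ∧ m = r ∧ ∃ B j1, ∀ j, j1 ≤ j → b j = B := by
  have x1 := H.x_eq_one hr hm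
  have hc := H.c_eq x1 hr hm
  obtain ⟨B, j1, hB⟩ := H.b_const x1 hr hm
  have hS := H.stepS
  rw [x1, hc] at hS
  have e_le : e ≤ r + 2 := by
    have : (4 : ℝ) * e ≤ 4 * (r + 2) := by
      push_cast at hS
      linarith
    have h1 : 4 * e ≤ 4 * (r + 2) := by exact_mod_cast this
    omega
  have B1 : 1 ≤ B := by
    rw [← hB j1 le_rfl]
    exact H.b1 _
  have lamb : ∀ j, j1 ≤ j → lam (j + 1) = B ∧ lam (j + 2) = B := by
    intro j hj
    have h1 := H.g_lam j
    rw [x1, gg_one, hB j hj, hB (j + 1) (by omega), hB (j + 2) (by omega), hc] at h1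
    push_cast at h1
    have h2 : lam (j + 1) ≤ B := by
      rw [← hB (j + 1) (by omega)]; exact H.la1 _
    have h3 : lam (j + 2) ≤ B := by
      rw [← hB (j + 2) (by omega)]; exact H.la1 _
    have h4 : (2 : ℝ) * B ≤ lam (j + 1) + lam (j + 2) := by linarith
    have h5 : 2 * B ≤ lam (j + 1) + lam (j + 2) := by exact_mod_cast h4
    omega
  have h1 := H.le2 (j1 + 1) (by omega)
  rw [hB (j1 + 1) (by omega), hB (j1 + 1 + 1) (by omega), hB (j1 + 1 + 2) (by omega), hc] at h1
  have l1 : lam (j1 + 1 + 2) = B := (lamb (j1 + 1) (by omega)).2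
  have l2 : lam (j1 + 1 + 3) = B := (lamb (j1 + 2) (by omega)).2
  rw [l1, l2] at h1
  have h2 : 4 * (1 + r) * B + (B + B) ≤ (1 + e) * (B + B) + m * (B + B) := by
    exact_mod_cast h1
  have h3 : (4 * (1 + r) + 2) * B ≤ ((1 + e) * 2 + m * 2) * B := by
    calc (4 * (1 + r) + 2) * B = 4 * (1 + r) * B + (B + B) := by ring
      _ ≤ _ := h2
      _ = _ := by ring
  have h4 := Nat.le_of_mul_le_mul_right h3 (by omega)
  refine ⟨hc, by omega, by omega, B, j1, hB⟩

end SAC63
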