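import Mathlib
import Pool.Agent.Lib.SAC63.JOne
import Pool.Agent.Lib.SAC84.P84
import Pool.Agent.Lib.SAC84.Asm84
import Pool.Agent.Lib.SAC94.P1

/-!
Local rings whose maximal ideal has fourth power zero.
-/

set_option autoImplicit false

open CategoryTheory IsLocalRing

universe u

namespace SAC63

open SAC84 SAC75

section ring

variable (R : Type u) [CommRing R] [IsLocalRing R] [IsNoetherianRing R]

/-- The length of `R / m ^ 2`. -/
lemma ln_quot_sq : ln R (R ⧸ (maximalIdeal R ^ 2)) =
    1 + Module.finrank (ResidueField R) (CotangentSpace R) := by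
  have h1 : Module.length R (CotangentSpace R) =
      (Module.finrank (ResidueField R) (CotangentSpace R) : ℕ∞) := by
    rw [Module.length_eq_of_surjective (S := R) (R := ResidueField R) (M := CotangentSpace R)
      (IsLocalRing.residue_surjective), Module.length_eq_finrank]
  have h2 : Module.length R (R ⧸ maximalIdeal R) = 1 := len_residue
  have h3 : Module.length R (R ⧸ (maximalIdeal R ^ 2)) =
      Module.length R (CotangentSpace R) + Module.length R (R ⧸ maximalIdeal R) := by
    refine Module.length_eq_add_of_exact (maximalIdeal R).cotangentToQuotientSquare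
      (Submodule.factor (p := maximalIdeal R ^ 2) (p' := maximalIdeal R)
        (Ideal.pow_le_self two_ne_zero)) ?_ ?_ ?_
    · rw [← LinearMap.ker_eq_bot, LinearMap.ker_eq_bot']
      intro x hx
      obtain ⟨y, rfl⟩ := (maximalIdeal R).toCotangent_surjective x
      rw [Ideal.toCotangent_to_quotient_square] at hx
      rw [Ideal.toCotangent_eq_zero]
      exact (Submodule.Quotient.mk_eq_zero _).1 hx
    · exact Submodule.factor_surjective _
    · intro x
      obtain ⟨y, rfl⟩ := Submodule.mkQ_surjective _ x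
      constructor
      · intro hy
        have hy' : y ∈ maximalIdeal R := by
          have h5 : (maximalIdeal R).mkQ y = 0 := hy
          exact (Submodule.Quotient.mk_eq_zero _).1 h5
        exact ⟨(maximalIdeal R).toCotangent ⟨y, hy'⟩, rfl⟩
      · rintro ⟨z, hz⟩
        obtain ⟨w, rfl⟩ := (maximalIdeal R).toCotangent_surjective z
        rw [← hz]
        exact (Submodule.Quotient.mk_eq_zero _).2 w.2
  rw [ln, h3, h1, h2]
  have h6 : ((Module.finrank (ResidueField R) (CotangentSpace R) : ℕ∞) + 1) =
      ((1 + Module.finrank (ResidueField R) (CotangentSpace R) : ℕ) : ℕ∞) := by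
    push_cast
    ring
  rw [h6]
  rfl

end ring

section main

variable {R : Type u} [CommRing R] [IsLocalRing R] [IsArtinianRing R] [IsNoetherianRing R]
  [HasExt.{u} (ModuleCat.{u} R)]

omit [IsNoetherianRing R] in
lemma ln_soc_le_mu (Y : Type u) [AddCommGroup Y] [Module R Y] [Module.Finite R Y] :
    ln R (SAC3.soc R Y) = mu R Y 0 := by
  have hk : ∀ a ∈ maximalIdeal R, ∀ x : SAC3.soc R Y, a • x = 0 :=
    fun a ha x => Subtype.ext (x.2 a ha)
  have h1 := el_soc (R := R) Y
  rw [el_killed (R ⧸ maximalIdeal R) hk 0, ← coe_kap, kap_zero, ← coe_mu] at h1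
  have h2 : ln R (SAC3.soc R Y) * 1 = mu R Y 0 := by exact_mod_cast h1
  omega

/-- The number of generators outside the square of the maximal ideal, shifted. -/
noncomputable def lamJ (M : FGM R) : ℕ → ℕ
  | 0 => 0
  | j + 1 => lam M j

theorem jsys (M : FGM R) (h4 : maximalIdeal R ^ 4 = ⊥) (h : ¬ Module.Free R M.car)
    (hR : ∀ n, ExtZ R M.car R (n + 1)) {N : ℕ} (hM : ∀ n, N ≤ n → ExtZ R M.car M.car n) :
    JSys (bt M) (fun i => ln R (sy M i).car) (lamJ M) (hl M)
      (fun l => mu R (sy M l).car) (ln R R) (ln R (maximalIdeal R).annihilator)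
      (Module.finrank (ResidueField R) (CotangentSpace R))
      (ln R (maximalIdeal R ^ 3 : Ideal R)) (N + 4) := by
  have hV : ∀ i j, N + j ≤ 1 + i → ExtZ R (sy M i).car (sy M j).car 1 :=
    fun i j h' => ext_sy_sy M hR hM (n := 0) (by omega)
  have hE : ∀ i, ExtZ R (sy M i).car R 1 := fun i => ext_sy_ring M hR i 0
  have HH := hsys M h hR hM
  refine ⟨bt_pos' M h, bt_up M, HH.ls, ?_, ?_, ?_, ?_, ?_, ?_, ?_, ?_, mu_nz M h, ?_⟩
  · intro i j hij
    exact hl_add M i j (hV i j (by omega))
  · intro i j hij
    exact HH.S i j (by omega)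
  · intro i j hij
    exact hl_le M h4 i j (hV _ _ (by omega)) (hE _)
  · intro i j hij
    exact hl_le_lam M h4 i j (hV _ _ (by omega)) (hE _)
  · intro j
    cases j with
    | zero => exact Nat.zero_le _
    | succ j => exact lam_le M j
  · intro j _
    have h1 := ln_sy_le M j
    rw [ln_quot_sq R] at h1
    change ln R (sy M (j + 1)).car + lam M (j + 1) ≤ _
    linarith
  · intro l n i j hlj hij
    have h1 := SAC94.pieceP1 M h4 hR hM (i := i + n + 1) (j := j + 1) (l := l) (n := n)
      (by omega) (by omega) (by omega)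
    have e1 : i + n + 1 - 1 = i + n := by omega
    have e2 : j + 1 - 1 = j := by omega
    have e3 : i + n - n = i := by omega
    rw [e1, e2, e3] at h1
    set a := bt M (i + n) * bt M (j + 1) +
      ln R (maximalIdeal R).annihilator * (bt M (i + n + 1) * bt M j) with ha
    set t := mu R (sy M l).car n with ht
    calc a * t ≤ (hl M (i + n + 1) (j + 1) + (a - hl M (i + n + 1) (j + 1))) * t :=
          Nat.mul_le_mul_right _ (by omega)
      _ = hl M (i + n + 1) (j + 1) * t + (a - hl M (i + n + 1) (j + 1)) * t := by ring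
      _ ≤ _ := Nat.add_le_add_left h1 _
  · intro l n i j hlj hij
    obtain ⟨j', rfl⟩ : ∃ j', j = j' + 1 := ⟨j - 1, by omega⟩
    have h1 := soc_sy M j'
    have h2 := soc_hom (R := R) (sy M (i + n + 1)).car (sy M (j' + 2)).car
    have h3 := SAC94.decay' M (sy M l).car i (j' + 2) (fun i' _ => hV _ _ (by omega))
      (fun n => ext_sy_sy M hR hM (by omega)) n
    have h4' : ln R (maximalIdeal R).annihilator * (bt M (i + n + 1) * bt M (j' + 1)) ≤
        ln R (SAC3.soc R ((sy M (i + n + 1)).car →ₗ[R] (sy M (j' + 2)).car)) := by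
      refine le_trans ?_ h2
      calc ln R (maximalIdeal R).annihilator * (bt M (i + n + 1) * bt M (j' + 1))
          = bt M (i + n + 1) * (bt M (j' + 1) * ln R (maximalIdeal R).annihilator) := by ring
        _ ≤ bt M (i + n + 1) * ln R (SAC3.soc R (sy M (j' + 2)).car) :=
          Nat.mul_le_mul_left _ h1
    exact low_sub (sy M l).car
      (SAC3.soc R ((sy M (i + n + 1)).car →ₗ[R] (sy M (j' + 2)).car))
      (fun a ha x => Subtype.ext (x.2 a ha)) h4' h3
  · intro l
    have h1 := soc_sy M l
    rw [ln_soc_le_mu] at h1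
    rw [mul_comm]
    exact h1

omit [IsArtinianRing R] [IsNoetherianRing R] [HasExt.{u} (ModuleCat.{u} R)] in
lemma cube_le (h4 : maximalIdeal R ^ 4 = ⊥) :
    maximalIdeal R ^ 3 ≤ (maximalIdeal R).annihilator := by
  intro x hx
  rw [Submodule.mem_annihilator]
  intro y hy
  have h1 : x * y ∈ maximalIdeal R ^ 3 * maximalIdeal R := Ideal.mul_mem_mul hx hy
  rw [← pow_succ, h4] at h1
  simpa using h1

omit [HasExt.{u} (ModuleCat.{u} R)] in
lemma ln_cube_le (h4 : maximalIdeal R ^ 4 = ⊥) :
    ln R (maximalIdeal R ^ 3 : Ideal R) ≤ ln R (maximalIdeal R).annihilator :=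
  ln_le_inj (f := Submodule.inclusion (cube_le h4)) (Submodule.inclusion_injective _)

/-- Theorem J. -/
theorem thmJ (h4 : maximalIdeal R ^ 4 = ⊥) (hr : 2 ≤ ln R (maximalIdeal R).annihilator)
    (M : FGM R) (h : ¬ Module.Free R M.car)
    (hR : ∀ n, ExtZ R M.car R (n + 1)) {N : ℕ} (hM : ∀ n, N ≤ n → ExtZ R M.car M.car n) :
    ln R R = 4 * (1 + ln R (maximalIdeal R).annihilator) ∧
      Module.finrank (ResidueField R) (CotangentSpace R) =
        ln R (maximalIdeal R).annihilator + 2 ∧
      ln R (maximalIdeal R ^ 3 : Ideal R) = ln R (maximalIdeal R).annihilator ∧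
      ∃ B j1, ∀ j, j1 ≤ j → bt M j = B :=
  JSys.main (jsys M h4 h hR hM) hr (ln_cube_le h4)

omit [HasExt.{u} (ModuleCat.{u} R)] in
/-- The cube of the maximal ideal is the socle in the exceptional case. -/
theorem cube_eq (h4 : maximalIdeal R ^ 4 = ⊥)
    (h : ln R (maximalIdeal R ^ 3 : Ideal R) = ln R (maximalIdeal R).annihilator) :
    maximalIdeal R ^ 3 = (maximalIdeal R).annihilator := by
  have h1 : Function.Surjective (Submodule.inclusion (cube_le h4)) := by
    have h2 := ln_sub_add (LinearMap.range (Submodule.inclusion (cube_le (R := R) h4)))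
    have h3 := ln_eq_equiv (LinearEquiv.ofInjective (Submodule.inclusion (cube_le (R := R) h4))
      (Submodule.inclusion_injective _))
    have h4 : ln R (_ ⧸ (LinearMap.range (Submodule.inclusion (cube_le (R := R) h4)))) = 0 := by
      omega
    rw [ln_eq_zero_iff, Submodule.Quotient.subsingleton_iff] at h4
    exact LinearMap.range_eq_top.1 h4
  refine le_antisymm (cube_le h4) ?_
  intro x hx
  obtain ⟨y, hy⟩ := h1 ⟨x, hx⟩
  have h2 : (y : R) = x := congrArg Subtype.val hy
  rw [← h2]
  exact y.2

end main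

end SAC63
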