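import Mathlib
import Pool.Agent.Lib.SAC63.JMain
import Pool.Agent.Lib.SAC75.HFinal

/-!
Local rings whose maximal ideal has fourth power zero: the freeness theorem.
-/

set_option autoImplicit false

open CategoryTheory IsLocalRing

universe u

namespace SAC63

open SAC84 SAC75

section final

variable {R : Type u} [CommRing R] [IsLocalRing R] [IsArtinianRing R] [IsNoetherianRing R]
  [HasExt.{u} (ModuleCat.{u} R)]

/-- Over a ring of type one the dual is not longer than the module. -/
lemma ln_dual_le (h : ln R (maximalIdeal R).annihilator = 1) (Z : Type u) [AddCommGroup Z]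
    [Module R Z] [Module.Finite R Z] : ln R (Z →ₗ[R] R) ≤ ln R Z := by
  have hk : el R (R ⧸ maximalIdeal R) R 0 ≤ 1 := by
    refine el_k_le.trans ?_
    rw [← coe_ln, h]
    rfl
  have h1 := el_le' (R := R) Z R 0
  rw [el_zero, ← coe_ln] at h1
  have h2 : ((ln R (Z →ₗ[R] R) : ℕ) : ℕ∞) ≤ ((ln R Z : ℕ) : ℕ∞) * 1 :=
    h1.trans (by gcongr)
  rw [mul_one] at h2
  exact_mod_cast h2

/-- The square of the maximal ideal embeds in the dual of the ring modulo its square. -/
lemma ln_sq_le (h : ln R (maximalIdeal R).annihilator = 1) (h4 : maximalIdeal R ^ 4 = ⊥) :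
    ln R (maximalIdeal R ^ 2 : Ideal R) ≤ ln R (R ⧸ (maximalIdeal R ^ 2)) := by
  refine le_trans ?_ (ln_dual_le h (R ⧸ (maximalIdeal R ^ 2)))
  let f : (maximalIdeal R ^ 2 : Ideal R) →ₗ[R] ((R ⧸ (maximalIdeal R ^ 2)) →ₗ[R] R) :=
    { toFun := fun x => Submodule.liftQ (maximalIdeal R ^ 2)
        (LinearMap.toSpanSingleton R R (x : R)) (by
          intro y hy
          have h1 : y * (x : R) ∈ maximalIdeal R ^ 2 * maximalIdeal R ^ 2 :=
            Ideal.mul_mem_mul hy x.2
          rw [← pow_add, h4] at h1
          exact h1)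
      map_add' := fun x y => by
        ext
        change (1 : R) • ((x + y : (maximalIdeal R ^ 2 : Ideal R)) : R) =
          (1 : R) • (x : R) + (1 : R) • (y : R)
        rw [Submodule.coe_add, smul_add]
      map_smul' := fun c x => by
        ext
        change (1 : R) • ((c • x : (maximalIdeal R ^ 2 : Ideal R)) : R) =
          c • ((1 : R) • (x : R))
        rw [Submodule.coe_smul, one_smul, one_smul] }
  refine ln_le_inj (f := f) ?_
  intro x y hxy
  have h1 := congrArg (fun φ => φ (Submodule.Quotient.mk (1 : R))) hxy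
  have h2 : (1 : R) • (x : R) = (1 : R) • (y : R) := h1
  rw [one_smul, one_smul] at h2
  exact Subtype.ext h2

lemma ln_le_of_type_one (h : ln R (maximalIdeal R).annihilator = 1)
    (h4 : maximalIdeal R ^ 4 = ⊥) :
    ln R R ≤ 2 * (1 + Module.finrank (ResidueField R) (CotangentSpace R)) := by
  have h1 := ln_sub_add (R := R) (X := R) (maximalIdeal R ^ 2)
  have h2 := ln_sq_le h h4
  have h3 := ln_quot_sq R
  omega

/-- Freeness over local rings whose maximal ideal has fourth power zero. -/
theorem four_free (h4 : maximalIdeal R ^ 4 = ⊥)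
    (hr : 2 ≤ ln R (maximalIdeal R).annihilator ∨
      4 ≤ Module.finrank (ResidueField R) (CotangentSpace R))
    (hex : ∀ r : ℕ, 2 ≤ r → ln R R = 4 * (r + 1) →
      Module.finrank (ResidueField R) (CotangentSpace R) = r + 2 →
      ln R (maximalIdeal R ^ 3 : Ideal R) = r →
      maximalIdeal R ^ 3 = (maximalIdeal R).annihilator → False)
    (M : FGM R) (hR : ∀ n, ExtZ R M.car R (n + 1))
    {N : ℕ} (hM : ∀ n, N ≤ n → ExtZ R M.car M.car n) : Module.Free R M.car := by
  have h1 := type_pos (R := R)
  by_cases h3 : ln R (maximalIdeal R).annihilator = 1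
  · have h5 := ln_le_of_type_one h3 h4
    exact thmT (injective_of_type h3) (by omega) M hM
  · by_contra hfree
    obtain ⟨h5, h6, h7, -⟩ := thmJ h4 (by omega) M hfree hR hM
    exact hex (ln R (maximalIdeal R).annihilator) (by omega) (by omega) h6 h7 (cube_eq h4 h7)

end final

end SAC63
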