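import Mathlib
import Pool.Agent.Lib.SAC63.JFinal
import Pool.Agent.Lib.SAC3.RedGarc
import Pool.Agent.Lib.SAC3.FinRes

/-!
Local rings whose maximal ideal has fourth power zero: vanishing of all positive self extensions.
-/

set_option autoImplicit false

open CategoryTheory IsLocalRing

universe u

namespace SAC63

open SAC84 SAC75

section killed

variable {R : Type u} [CommRing R] [IsLocalRing R] [IsNoetherianRing R] [IsArtinianRing R]

/-- If a unimodular vector maps to zero, the length of the quotient drops. -/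
lemma ln_lt_of_killed {H : Type u} [AddCommGroup H] [Module R H] [Module.Finite R H]
    (hk : ∀ a ∈ maximalIdeal R, ∀ x : H, a • x = 0) {n : ℕ} (p : (Fin n → R) →ₗ[R] H)
    (hp : Function.Surjective p) (v : Fin n → R) (hv : p v = 0) (i : Fin n)
    (hi : v i ∉ maximalIdeal R) : ln R H + 1 ≤ n := by
  let q : (Fin n → R ⧸ maximalIdeal R) →ₗ[R] H :=
    ∑ i, (Submodule.liftQ (maximalIdeal R)
      (LinearMap.toSpanSingleton R H (p (Pi.single i 1)))
        (fun a ha => by simp [hk a ha])) ∘ₗ LinearMap.proj i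
  have hqv : ∀ w : Fin n → R, q (fun i => Submodule.Quotient.mk (w i)) = p w := by
    intro w
    have h1 : p w = ∑ j, w j • p (Pi.single j 1) := by
      conv_lhs => rw [← LinearMap.sum_single_apply (fun _ : Fin n => R) w]
      rw [map_sum]
      refine Finset.sum_congr rfl fun j _ => ?_
      rw [← map_smul]
      congr 1
      ext t
      simp [Pi.single_apply]
    rw [h1]
    simp only [q, LinearMap.sum_apply]
    refine Finset.sum_congr rfl fun j _ => ?_
    rfl
  have hq : Function.Surjective q := by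
    intro y
    obtain ⟨w, rfl⟩ := hp y
    exact ⟨_, hqv w⟩
  have h2 := ln_sub_add (R := R) (LinearMap.ker q)
  rw [ln_pi] at h2
  have h3 : ln R (R ⧸ maximalIdeal R) = 1 := by
    rw [ln, len_residue]
    rfl
  rw [h3, mul_one] at h2
  have h4 : ln R ((Fin n → R ⧸ maximalIdeal R) ⧸ LinearMap.ker q) = ln R H :=
    ln_eq_equiv (q.quotKerEquivOfSurjective hq)
  have h5 : ln R (LinearMap.ker q) ≠ 0 := by
    intro h5
    rw [ln_eq_zero_iff] at h5
    let w : LinearMap.ker q := ⟨fun i => Submodule.Quotient.mk (v i), by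
        rw [LinearMap.mem_ker, hqv, hv]⟩
    have h6 : w = 0 := Subsingleton.elim _ _
    have h7 : (w : Fin n → R ⧸ maximalIdeal R) i = 0 := by
      rw [h6]
      rfl
    exact hi ((Submodule.Quotient.mk_eq_zero _).1 h7)
  omega

variable [HasExt.{u} (ModuleCat.{u} R)]

/-- At the border the upper bound for the length of the module of homomorphisms is strict. -/
lemma hl_lt (M : FGM R) (h4 : maximalIdeal R ^ 4 = ⊥) (j : ℕ) (hb : 1 ≤ bt M (j + 1))
    (h1 : ExtZ R (sy M (j + 2)).car (sy M (j + 2)).car 1)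
    (h2 : ExtZ R (sy M (j + 1)).car R 1) :
    hl M (j + 2) (j + 1) + 1 ≤ bt M (j + 1) * bt M (j + 1) +
      ln R (maximalIdeal R).annihilator * (bt M (j + 2) * bt M j) := by
  set H := (sy M (j + 2)).car →ₗ[R] (sy M (j + 1)).car with hH
  let W : Submodule R H := maximalIdeal R • ⊤
  have hW : ln R H = ln R W + ln R (H ⧸ W) := ln_sub_add W
  have hq : ln R (H ⧸ W) + 1 ≤ bt M (j + 1) * bt M (j + 1) := by
    let Φ : ((Fin (bt M (j + 1)) → R) →ₗ[R] (Fin (bt M (j + 1)) → R)) →ₗ[R] H :=
      (pc (pro M (j + 1))) ∘ₗ (LinearMap.lcomp R _ (inc M (j + 1)))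
    have hΦ : Function.Surjective Φ := by
      intro φ
      obtain ⟨ψ, hψ⟩ := factor M (j + 1) (j + 1) h1 h2 φ
      exact ⟨ψ, hψ⟩
    have hid : Φ LinearMap.id = 0 := by
      refine LinearMap.ext fun x => ?_
      exact (inc_pro M (j + 1) (inc M (j + 1) x)).2 ⟨x, rfl⟩
    let e : (Fin (bt M (j + 1) * bt M (j + 1)) → R) ≃ₗ[R]
        ((Fin (bt M (j + 1)) → R) →ₗ[R] (Fin (bt M (j + 1)) → R)) :=
      (LinearEquiv.funCongrLeft R R
        (finProdFinEquiv (m := bt M (j + 1)) (n := bt M (j + 1)))) ≪≫ₗ
        (LinearEquiv.curry R R (Fin (bt M (j + 1))) (Fin (bt M (j + 1)))) ≪≫ₗ homPi _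
    let s : Fin (bt M (j + 1)) := ⟨0, hb⟩
    refine ln_lt_of_killed (fun a ha x => ?_) (W.mkQ ∘ₗ Φ ∘ₗ e.toLinearMap)
      (W.mkQ_surjective.comp (hΦ.comp e.surjective)) (e.symm LinearMap.id) ?_
      (finProdFinEquiv (s, s)) ?_
    · obtain ⟨y, rfl⟩ := W.mkQ_surjective x
      rw [← map_smul]
      exact (Submodule.Quotient.mk_eq_zero W).2 (Submodule.smul_mem_smul ha trivial)
    · change W.mkQ (Φ (e (e.symm LinearMap.id))) = 0
      rw [LinearEquiv.apply_symm_apply, hid, map_zero]
    · have h5 : ∀ w : Fin (bt M (j + 1) * bt M (j + 1)) → R,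
          e w (Pi.single s 1) s = w (finProdFinEquiv (s, s)) := by
        intro w
        have h6 : ∀ (g : Fin (bt M (j + 1)) → (Fin (bt M (j + 1)) → R)),
            homPi (R := R) (Y := Fin (bt M (j + 1)) → R) (bt M (j + 1)) g (Pi.single s 1) = g s := by
          intro g
          have h7 := congrFun ((homPi (R := R) (Y := Fin (bt M (j + 1)) → R)
            (bt M (j + 1))).symm_apply_apply g) s
          exact h7
        change homPi (R := R) (Y := Fin (bt M (j + 1)) → R) (bt M (j + 1))
          (fun a b => w (finProdFinEquiv (a, b))) (Pi.single s 1) s = _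
        rw [h6]
      rw [← h5 (e.symm LinearMap.id), LinearEquiv.apply_symm_apply]
      simp [mem_maximalIdeal]
  have hw : ln R W ≤ ln R (maximalIdeal R).annihilator * (bt M (j + 2) * bt M j) := by
    let Ψ : H →ₗ[R] (Fin (bt M (j + 2)) → (Fin (bt M j) → R)) :=
      (homPi (R := R) (Y := Fin (bt M j) → R) (bt M (j + 2))).symm.toLinearMap ∘ₗ
        (LinearMap.lcomp R (Fin (bt M j) → R) (pro M (j + 2))) ∘ₗ (pc (inc M j))
    have hΨ : ∀ f s t, Ψ f s t = inc M j (f (pro M (j + 2) (Pi.single s 1))) t := by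
      intro f s t
      rfl
    have hΨi : Function.Injective Ψ := by
      exact (homPi (R := R) (Y := Fin (bt M j) → R) (bt M (j + 2))).symm.injective.comp
        ((LinearMap.lcomp_injective_of_surjective _ (pro_surj M (j + 2))).comp
          (pc_inj (inc_inj M j)))
    have hsoc : ∀ f ∈ W, ∀ s t, Ψ f s t ∈ (maximalIdeal R).annihilator := by
      intro f hf s t
      refine Submodule.smul_induction_on hf ?_ ?_
      · intro a ha g _
        rw [map_smul, Pi.smul_apply, Pi.smul_apply, hΨ, Submodule.mem_annihilator]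
        intro b hb
        have h5 := factor_sq M (j + 1) j h1 h2 g (pro M (j + 2) (Pi.single s 1)) t
        have h6 : a * inc M j (g (pro M (j + 2) (Pi.single s 1))) t * b ∈
            maximalIdeal R ^ 4 := by
          have : maximalIdeal R ^ 4 = maximalIdeal R * maximalIdeal R ^ 2 * maximalIdeal R := by
            ring
          rw [this]
          exact Ideal.mul_mem_mul (Ideal.mul_mem_mul ha h5) hb
        rw [h4] at h6
        simpa using h6
      · intro f g hf hg
        rw [map_add, Pi.add_apply, Pi.add_apply]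
        exact Ideal.add_mem _ hf hg
    let Θ : W →ₗ[R] (Fin (bt M (j + 2)) → (Fin (bt M j) → (maximalIdeal R).annihilator)) :=
      { toFun := fun f s t => ⟨Ψ f.1 s t, hsoc f.1 f.2 s t⟩
        map_add' := by
          intro f g
          ext s t
          simp
        map_smul' := by
          intro a f
          ext s t
          simp }
    have hΘ : Function.Injective Θ := by
      intro f g hfg
      apply Subtype.ext
      apply hΨi
      ext s t
      have := congrArg (fun z => ((z s t : (maximalIdeal R).annihilator) : R)) hfg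
      exact this
    have h7 := ln_le_inj hΘ
    rw [ln_pi, ln_pi] at h7
    calc ln R W ≤ _ := h7
      _ = _ := by ring
  have : hl M (j + 2) (j + 1) = ln R H := rfl
  rw [this, hW]
  omega

/-- Freeness over local rings whose maximal ideal has fourth power zero; finite residue fields
are allowed without restriction. -/
theorem four_free_fin (h4 : maximalIdeal R ^ 4 = ⊥)
    (hr : 2 ≤ ln R (maximalIdeal R).annihilator ∨
      4 ≤ Module.finrank (ResidueField R) (CotangentSpace R))
    (hex : (∀ r : ℕ, 2 ≤ r → ln R R = 4 * (r + 1) →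
      Module.finrank (ResidueField R) (CotangentSpace R) = r + 2 →
      ln R (maximalIdeal R ^ 3 : Ideal R) = r →
      maximalIdeal R ^ 3 = (maximalIdeal R).annihilator → False) ∨ Finite (ResidueField R))
    (M : FGM R) (hR : ∀ n, ExtZ R M.car R (n + 1))
    {N : ℕ} (hM : ∀ n, N ≤ n → ExtZ R M.car M.car n) : Module.Free R M.car := by
  have h1 := type_pos (R := R)
  by_cases h3 : ln R (maximalIdeal R).annihilator = 1
  · have h5 := ln_le_of_type_one h3 h4
    exact thmT (injective_of_type h3) (by omega) M hM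
  · by_contra hfree
    obtain ⟨h5, h6, h7, B, j1, hB⟩ := thmJ h4 (by omega) M hfree hR hM
    rcases hex with hex | hfin
    · exact hex (ln R (maximalIdeal R).annihilator) (by omega) (by omega) h6 h7 (cube_eq h4 h7)
    · exact SAC3.no_bounded M hfree hR hM (fun j hj => (hB j hj).le)

/-- Vanishing of all positive self extensions: no exception. -/
theorem arc_free (h4 : maximalIdeal R ^ 4 = ⊥) (hr : 2 ≤ ln R (maximalIdeal R).annihilator)
    (M : FGM R) (hR : ∀ n, ExtZ R M.car R (n + 1)) (hM : ∀ n, ExtZ R M.car M.car (n + 1)) :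
    Module.Free R M.car := by
  by_contra hfree
  have hM' : ∀ n, 1 ≤ n → ExtZ R M.car M.car n := by
    intro n hn
    obtain ⟨k, rfl⟩ : ∃ k, n = k + 1 := ⟨n - 1, by omega⟩
    exact hM k
  have hV : ∀ i j, j ≤ i → ExtZ R (sy M i).car (sy M j).car 1 :=
    fun i j h' => ext_sy_sy M hR hM' (n := 0) (by omega)
  have hE : ∀ i, ExtZ R (sy M i).car R 1 := fun i => ext_sy_ring M hR i 0
  have HJ := jsys M h4 hfree hR hM'
  obtain ⟨hc, he, h3, B, j1, hB⟩ := thmJ h4 hr M hfree hR hM'
  set r := ln R (maximalIdeal R).annihilator with hrdef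
  set c := ln R R with hcdef
  have hB1 : 1 ≤ B := by
    have := HJ.b1 j1
    rwa [hB j1 le_rfl] at this
  have ls : ∀ j, j1 ≤ j → ln R (sy M j).car + ln R (sy M (j + 1)).car = 4 * (1 + r) * B := by
    intro j hj
    have h1 := HJ.ls j
    rw [hB j hj, hc] at h1
    exact h1
  have hs : ∀ i j, j1 ≤ i → j ≤ i → hl M i j + hl M (i + 1) j = B * ln R (sy M j).car := by
    intro i j hi hj
    have h1 := hl_add M i j (hV i j hj)
    rw [hB i hi] at h1
    exact h1
  have up : ∀ i j, j1 ≤ j → j + 5 ≤ i → hl M (i + 1) (j + 1) ≤ (1 + r) * (B * B) := by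
    intro i j hj hij
    have h1 := hl_le M h4 i j (hV _ _ (by omega)) (hE i)
    rw [hB i (by omega), hB (i + 1) (by omega), hB j hj, hB (j + 1) (by omega)] at h1
    calc hl M (i + 1) (j + 1) ≤ _ := h1
      _ = _ := by rw [← hrdef]; ring
  have far : ∀ i j, j1 ≤ j → j + 6 ≤ i → hl M (i + 1) (j + 1) = (1 + r) * (B * B) := by
    intro i j hj hij
    have a1 := up i j hj (by omega)
    have a2 := up (i + 1) j hj (by omega)
    have a3 := up i (j + 1) (by omega) (by omega)
    have a4 := up (i + 1) (j + 1) (by omega) (by omega)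
    have b1 := hs (i + 1) (j + 1) (by omega) (by omega)
    have b2 := hs (i + 1) (j + 2) (by omega) (by omega)
    have b3 := ls (j + 1) (by omega)
    have b4 : B * ln R (sy M (j + 1)).car + B * ln R (sy M (j + 2)).car =
        4 * ((1 + r) * (B * B)) := by
      calc B * ln R (sy M (j + 1)).car + B * ln R (sy M (j + 2)).car
          = B * (ln R (sy M (j + 1)).car + ln R (sy M (j + 1 + 1)).car) := by ring
        _ = _ := by rw [b3]; ring
    have e1 : i + 1 + 1 = i + 2 := rfl
    have e2 : j + 1 + 1 = j + 2 := rfl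
    rw [e1] at a2 a4 b1 b2
    rw [e2] at a3 a4
    omega
  have ell : ∀ j, j1 ≤ j → B * ln R (sy M (j + 1)).car = 2 * ((1 + r) * (B * B)) := by
    intro j hj
    have h1 := hs (j + 6 + 1) (j + 1) (by omega) (by omega)
    rw [far (j + 6) j hj (by omega), far (j + 6 + 1) j hj (by omega)] at h1
    omega
  have near : ∀ j, j1 ≤ j → ∀ k, k ≤ 6 →
      hl M (j + 7 - k + 1) (j + 1) = (1 + r) * (B * B) := by
    intro j hj k
    induction k with
    | zero =>
      intro _
      exact far (j + 7) j hj (by omega)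
    | succ k ih =>
      intro hk
      have h1 := ih (by omega)
      have h2 := hs (j + 7 - (k + 1) + 1) (j + 1) (by omega) (by omega)
      have h3 : j + 7 - (k + 1) + 1 + 1 = j + 7 - k + 1 := by omega
      rw [h3, h1, ell j hj] at h2
      omega
  have h1 := near j1 le_rfl 6 le_rfl
  have h2 := hl_lt M h4 j1 (by rw [hB _ (by omega)]; exact hB1) (hV _ _ le_rfl) (hE _)
  have h3' : j1 + 7 - 6 + 1 = j1 + 2 := by omega
  rw [h3'] at h1
  rw [h1, hB (j1 + 1) (by omega), hB (j1 + 2) (by omega), hB j1 le_rfl] at h2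
  have h4' : (1 + r) * (B * B) + 1 ≤ (1 + r) * (B * B) := by
    calc (1 + r) * (B * B) + 1 ≤ _ := h2
      _ = _ := by rw [← hrdef]; ring
  omega

/-- Vanishing of all positive self extensions, any type. -/
theorem arc_free' (h4 : maximalIdeal R ^ 4 = ⊥)
    (hr : 2 ≤ ln R (maximalIdeal R).annihilator ∨
      4 ≤ Module.finrank (ResidueField R) (CotangentSpace R))
    (M : FGM R) (hR : ∀ n, ExtZ R M.car R (n + 1)) (hM : ∀ n, ExtZ R M.car M.car (n + 1)) :
    Module.Free R M.car := by
  have h1 := type_pos (R := R)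
  by_cases h3 : ln R (maximalIdeal R).annihilator = 1
  · have h5 := ln_le_of_type_one h3 h4
    refine thmT (injective_of_type h3) (by omega) M (N := 1) fun n hn => ?_
    obtain ⟨k, rfl⟩ : ∃ k, n = k + 1 := ⟨n - 1, by omega⟩
    exact hM k
  · exact arc_free h4 (by omega) M hR hM

end killed

end SAC63

namespace SAC63

open SAC84 SAC75 SAC3 RingTheory.Sequence

section red

variable {R : Type u} [CommRing R] [IsLocalRing R] [IsNoetherianRing R]
  [HasExt.{u} (ModuleCat.{u} R)]

/-- Reduction modulo a regular sequence for the vanishing of all positive self extensions. -/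
theorem reduction_arc {rs : List R} (hrs : ∀ x ∈ rs, x ∈ maximalIdeal R)
    (hreg : IsWeaklyRegular R rs) [HasExt.{u} (ModuleCat.{u} (R ⧸ Ideal.ofList rs))]
    (G : ∀ M' : FGM (R ⧸ Ideal.ofList rs),
      (∀ n, ExtZ (R ⧸ Ideal.ofList rs) M'.car (R ⧸ Ideal.ofList rs) (n + 1)) →
      (∀ n, ExtZ (R ⧸ Ideal.ofList rs) M'.car M'.car (n + 1)) →
      Module.Free (R ⧸ Ideal.ofList rs) M'.car)
    (M : FGM R) (hR : ∀ n, ExtZ R M.car R (n + 1))
    (hM : ∀ n, ExtZ R M.car M.car (n + 1)) : Module.Free R M.car := by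
  have hM' : ∀ n, 1 ≤ n → ExtZ R M.car M.car n := by
    intro n hn
    obtain ⟨k, rfl⟩ : ∃ k, n = k + 1 := ⟨n - 1, by omega⟩
    exact hM k
  set I := Ideal.ofList rs with hI
  refine free_of_free_sy' M hR rs.length ?_
  have hN : ∀ i, IsWeaklyRegular (sy (sy M rs.length) i).car rs := by
    intro i
    rw [sy_sy]
    exact (wr_sy M hreg _).wr (by omega)
  have hN0 : IsWeaklyRegular (sy M rs.length).car rs := hN 0
  have inj : ∀ i, Function.Injective (red I (inc (sy M rs.length) i)) :=
    fun i => red_inj (inc_inj _ i) (pro_surj _ i) (inc_pro _ i) (hN i)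
  refine free_of_red (sy M rs.length) hrs hN0 ?_
  have : Module.Finite (R ⧸ I) ((sy M rs.length).car ⧸
      (I • ⊤ : Submodule R (sy M rs.length).car)) :=
    Module.Finite.of_restrictScalars_finite R _ _
  let N' : FGM (R ⧸ I) := ⟨(sy M rs.length).car ⧸ (I • ⊤ : Submodule R (sy M rs.length).car)⟩
  refine G N' ?_ ?_
  · intro n
    refine extZ_red (sy M rs.length) I inj (R ⧸ I) n ?_
    have h1 := extZ_quot_reg (Z := (sy M rs.length).car) hreg (a := 1) (fun m hm => by
      obtain ⟨k, rfl⟩ := Nat.exists_eq_add_of_le' hm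
      exact ext_sy_ring M hR _ k) (n + 1) (by omega)
    refine extZ_congr_right (Submodule.quotEquivOfEq _ _ ?_) h1
    rw [smul_eq_mul, Ideal.mul_top]
  · intro k
    refine extZ_red (sy M rs.length) I inj N'.car k ?_
    exact extZ_quot_reg (Z := (sy M rs.length).car) hN0 (a := 1) (fun m hm => by
      obtain ⟨k, rfl⟩ := Nat.exists_eq_add_of_le' (show 1 ≤ m by omega)
      exact ext_sy_sy M hR hM' (by omega)) (k + 1) (by omega)

end red

end SAC63
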