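import Pool.Agent.Lib.SAC63.JNum

/-!
The Betti numbers have growth one.
-/

set_option autoImplicit false

namespace SAC63

open Finset SAC75

variable {b ℓ lam : ℕ → ℕ} {h μ : ℕ → ℕ → ℕ} {c r e m D : ℕ}

/-- Averaging an equality of three consecutive terms. -/
lemma avg3_eq {f : ℕ → ℕ} (h1 : ∀ n, 1 ≤ f n) (r0 : 0 < rad f) (u v w : ℝ) (L : ℕ)
    (h : ∀ i, L ≤ i → u * (f i : ℝ) + v * f (i + 1) + w * f (i + 2) = 0) :
    u + v * (1 / rad f) + w * (1 / rad f) ^ 2 = 0 := by
  have a := avg3 h1 r0 u v w L (fun i hi => (h i hi).ge)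
  have b := avg3 h1 r0 (-u) (-v) (-w) L (fun i hi => by
    have := h i hi
    linarith)
  linarith

/-- When the growth is larger than one, the recursion is exact. -/
lemma JSys.g_zero (H : JSys b ℓ lam h μ c r e m D) (x1 : 1 < 1 / rad b) (j : ℕ)
    (hj : 2 + D ≤ j) : gg b c r (1 / rad b) j = 0 := by
  refine le_antisymm ?_ (H.g_nonneg j)
  by_contra hneg
  push Not at hneg
  set x : ℝ := 1 / rad b with hx
  set C : ℝ := (1 + x) * (b (j + 1) * ℓ 1) with hC
  obtain ⟨n0, hn0⟩ : ∃ n0 : ℕ, C / gg b c r x j < x ^ n0 := pow_unbounded_of_one_lt _ x1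
  obtain ⟨n, hn, hμ⟩ := H.nz n0
  have h1 := H.g_sm 1 n j (by omega)
  rw [← hx] at h1
  have h2 : x ^ n0 ≤ x ^ n := pow_le_pow_right₀ x1.le hn
  have h3 : (1 : ℝ) ≤ μ 1 n := by exact_mod_cast Nat.one_le_iff_ne_zero.2 hμ
  have h4 : C < x ^ n0 * gg b c r x j := by rwa [div_lt_iff₀ hneg] at hn0
  have x0 : 0 < x := by linarith
  have h5 : x ^ n0 * gg b c r x j ≤ x ^ n * gg b c r x j :=
    mul_le_mul_of_nonneg_right h2 hneg.le
  have h6 : x ^ n * gg b c r x j * 1 ≤ x ^ n * gg b c r x j * μ 1 n :=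
    mul_le_mul_of_nonneg_left h3 (by positivity)
  linarith

/-- The growth of the Betti numbers is one. -/
theorem JSys.x_eq_one (H : JSys b ℓ lam h μ c r e m D) (hr : 2 ≤ r) (hm : m ≤ r) :
    1 / rad b = 1 := by
  have r0 := H.rpos
  have xb : 1 ≤ 1 / rad b := by rw [one_le_div r0]; exact rad_le_one H.b1
  by_contra hne
  have x1 : 1 < 1 / rad b := lt_of_le_of_ne xb (Ne.symm hne)
  have hg := H.g_zero x1
  have hl := H.g_lam
  have hS := H.stepS
  have hle := H.le2
  set x : ℝ := 1 / rad b with hx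
  have x0 : 0 < x := by linarith
  -- `c x = (1 + r) (1 + x)^2`
  have cx : (c : ℝ) * x = (1 + r) * (1 + x) ^ 2 := by
    have := avg3_eq H.b1 r0 ((r : ℝ) * x * (1 + x))
      ((1 + x) + r * x * (1 + x) - c * x) (1 + x) (2 + D) (fun j hj => by
        have := hg j hj
        unfold gg at this
        linarith)
    rw [← hx] at this
    have h2 : ((c : ℝ) * x) * x = ((1 + r) * (1 + x) ^ 2) * x := by nlinarith
    exact mul_right_cancel₀ x0.ne' h2
  -- `lam = b`
  have lamb : ∀ j, 2 + D ≤ j → lam (j + 1) = b (j + 1) := by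
    intro j hj
    have h1 := hl j
    rw [hg j hj] at h1
    have h2 : (lam (j + 1) : ℝ) ≤ b (j + 1) := by exact_mod_cast H.la1 (j + 1)
    have h3 : (lam (j + 2) : ℝ) ≤ b (j + 2) := by exact_mod_cast H.la1 (j + 2)
    have h4 : ((b (j + 1) : ℝ) - lam (j + 1)) + (b (j + 2) - lam (j + 2)) ≤ 0 := by
      by_contra hcon
      push Not at hcon
      have : 0 < (1 + x) * (((b (j + 1) : ℝ) - lam (j + 1)) + (b (j + 2) - lam (j + 2))) := by
        positivity
      linarith
    have h5 : (lam (j + 1) : ℝ) = b (j + 1) := by linarith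
    exact_mod_cast h5
  -- `e x ≥ 1 + x^2 + r x`
  have E1 : 1 + x ^ 2 + r * x ≤ e * x := by
    have hm' : (m : ℝ) ≤ r := by exact_mod_cast hm
    have key := avg_lin H.b1 r0 (N := 4)
      ![(m : ℝ), (m : ℝ) + (1 + e) - c, (1 + e) - 1, -1]
      ![0, 1, 2, 3] (2 + D) (fun j hj => by
        have h1 := hle j (by omega)
        have h2 : (lam (j + 2) : ℝ) = b (j + 2) := by exact_mod_cast lamb (j + 1) (by omega)
        have h3 : (lam (j + 3) : ℝ) = b (j + 3) := by exact_mod_cast lamb (j + 2) (by omega)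
        rw [h2, h3] at h1
        simp only [Fin.sum_univ_succ, Fin.sum_univ_zero, Matrix.cons_val_zero,
          Matrix.cons_val_succ, add_zero]
        linarith)
    simp only [Fin.sum_univ_succ, Fin.sum_univ_zero, Matrix.cons_val_zero,
      Matrix.cons_val_succ, add_zero, pow_zero, pow_one, mul_one, ← hx] at key
    have h1 : (m : ℝ) * (1 + x) ≤ r * (1 + x) := mul_le_mul_of_nonneg_right hm' (by linarith)
    have h2 : 0 ≤ (1 + x) * (e * x - (1 + x ^ 2 + r * x)) := by nlinarith
    have h3 := nonneg_of_mul_nonneg_right h2 (by linarith)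
    linarith
  have E2 : (e : ℝ) * x ≤ 1 + x ^ 2 + r * x := by
    have h1 : (c : ℝ) * x ^ 2 = (1 + r) * x * (1 + x) ^ 2 := by
      calc (c : ℝ) * x ^ 2 = (c * x) * x := by ring
        _ = _ := by rw [cx]; ring
    rw [h1] at hS
    have h2 : (((e : ℝ) + 1) * x) * (1 + x) ^ 2 ≤ ((1 + x ^ 2) + (1 + r) * x) * (1 + x) ^ 2 := by
      linarith
    have h3 := le_of_mul_le_mul_right h2 (by positivity)
    linarith
  have E : ((e : ℤ) - (r : ℤ) : ℝ) * x = 1 + x ^ 2 := by
    push_cast
    linarith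
  -- the integers `V j`
  set V : ℕ → ℤ := fun j => (b (j + 1) : ℤ) - r * b j with hV
  have hrec : ∀ j, 2 + D ≤ j → (V (j + 1) : ℝ) = x * V j := by
    intro j hj
    have h1 := hg j hj
    unfold gg at h1
    rw [cx] at h1
    have h2 : (1 + x) * ((V (j + 1) : ℝ) - x * V j) = 0 := by
      simp only [hV]
      push_cast
      have e2 : b (j + 1 + 1) = b (j + 2) := rfl
      rw [e2]
      linarith
    rcases mul_eq_zero.1 h2 with h3 | h3
    · linarith
    · linarith
  set j0 : ℕ := 2 + D with hj0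
  rcases eq_or_ne (V j0) 0 with hz | hnz
  · -- `b (j+1) = r b j`
    have all : ∀ n, V (j0 + n) = 0 := by
      intro n
      induction n with
      | zero => exact hz
      | succ n ih =>
        have h1 := hrec (j0 + n) (by omega)
        rw [ih] at h1
        have : (V (j0 + (n + 1)) : ℝ) = 0 := by
          have e1 : j0 + (n + 1) = j0 + n + 1 := by omega
          rw [e1, h1]; simp
        exact_mod_cast this
    have xr : x = r := by
      have := avg3_eq H.b1 r0 (-(r : ℝ)) 1 0 j0 (fun j hj => by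
        obtain ⟨n, rfl⟩ : ∃ n, j = j0 + n := ⟨j - j0, by omega⟩
        have h1 := all n
        have h2 : (V (j0 + n) : ℝ) = 0 := by exact_mod_cast h1
        simp only [hV] at h2
        push_cast at h2
        linarith)
      rw [← hx] at this
      linarith
    rw [xr] at E
    have E' : ((e : ℤ) - r) * r = 1 + (r : ℤ) ^ 2 := by exact_mod_cast E
    have h1 : (r : ℤ) ∣ 1 := ⟨(e : ℤ) - r - r, by linarith⟩
    have h2 : (r : ℤ) ≤ 1 := Int.le_of_dvd one_pos h1
    omega
  · -- backward recursion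
    have x0' : x ≠ 0 := x0.ne'
    have back : ∀ n : ℕ, ∃ U W : ℤ, (U : ℝ) = V j0 * (1 / x) ^ n ∧
        (W : ℝ) = V j0 * (1 / x) ^ n * x := by
      intro n
      induction n with
      | zero =>
        refine ⟨V j0, V (j0 + 1), by simp, ?_⟩
        rw [hrec j0 le_rfl]
        simp only [pow_zero, mul_one]
        ring
      | succ n ih =>
        obtain ⟨U, W, hU, hW⟩ := ih
        refine ⟨((e : ℤ) - r) * U - W, U, ?_, ?_⟩
        · have E' : (e : ℝ) - r = 1 / x + x := by
            have : ((e : ℝ) - r) * x = (1 / x + x) * x := by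
              field_simp
              push_cast at E
              linarith
            exact mul_right_cancel₀ x0' this
          push_cast
          rw [hU, hW, E', pow_succ]
          ring
        · rw [hU, pow_succ]
          field_simp
    have hx1 : 1 / x < 1 := by rw [div_lt_one x0]; exact x1
    have vpos : 0 < |(V j0 : ℝ)| := by
      have : (V j0 : ℝ) ≠ 0 := by exact_mod_cast hnz
      positivity
    obtain ⟨n, hn⟩ : ∃ n : ℕ, (1 / x) ^ n < 1 / |(V j0 : ℝ)| :=
      exists_pow_lt_of_lt_one (by positivity) hx1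
    obtain ⟨U, -, hU, -⟩ := back n
    have p0 : 0 < (1 / x) ^ n := by positivity
    have h1 : |(U : ℝ)| < 1 := by
      rw [hU, abs_mul, abs_of_pos p0]
      rw [lt_div_iff₀ vpos] at hn
      linarith
    have h2 : U ≠ 0 := by
      intro h0
      rw [h0] at hU
      have h3 : (V j0 : ℝ) ≠ 0 := by exact_mod_cast hnz
      have h4 : (V j0 : ℝ) * (1 / x) ^ n ≠ 0 := mul_ne_zero h3 p0.ne'
      apply h4
      rw [← hU]
      simp
    have h3 : (1 : ℝ) ≤ |(U : ℝ)| := by
      have : (1 : ℤ) ≤ |U| := Int.one_le_abs h2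
      exact_mod_cast this
    linarith

end SAC63
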