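import Pool.Agent.Lib.SAC75.HNumB

/-!
Numerical part for local rings whose maximal ideal has fourth power zero. `b` are the Betti
numbers of a module, `ℓ` the lengths of its syzygies, `lam j` the number of generators of the
`j`-th syzygy which do not lie in the square of the maximal ideal times the free module, `h i j`
the lengths of the modules of homomorphisms from the `i`-th to the `j`-th syzygy, `μ l` the Bass
numbers of the `l`-th syzygy.
-/

set_option autoImplicit false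

namespace SAC63

open Finset SAC75

/-- The numerical data. -/
structure JSys (b ℓ lam : ℕ → ℕ) (h μ : ℕ → ℕ → ℕ) (c r e m D : ℕ) : Prop where
  b1 : ∀ n, 1 ≤ b n
  bup : ∀ n, b (n + 1) ≤ c * b n
  ls : ∀ j, ℓ j + ℓ (j + 1) = c * b j
  hs : ∀ i j, j + D ≤ i → h i j + h (i + 1) j = b i * ℓ j
  S : ∀ i j, j + D ≤ i →
    b (i + 1) * b j * (e + 1) ≤ h (i + 2) j + b i * b j + b (i + 1) * b (j + 1)
  up : ∀ i j, j + D ≤ i → h (i + 1) (j + 1) ≤ b i * b (j + 1) + r * (b (i + 1) * b j)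
  la : ∀ i j, j + D ≤ i → h (i + 1) (j + 1) ≤ b i * lam (j + 1) + r * (b (i + 1) * b j)
  la1 : ∀ j, lam j ≤ b j
  le : ∀ j, 1 ≤ j → ℓ (j + 1) + lam (j + 2) ≤ (1 + e) * b (j + 1) + m * b j
  sm : ∀ l n i j, l + D ≤ j → j + D ≤ i →
    (b (i + n) * b (j + 1) + r * (b (i + n + 1) * b j)) * μ l n
      ≤ h (i + n + 1) (j + 1) * μ l n + b i * h (j + 1) l
  B : ∀ l n i j, l + D ≤ j → j + D ≤ i →
    r * (b (i + n + 1) * b j) * (μ l (n + 1) + μ l n)
      ≤ h (i + n + 1) (j + 1) * μ l (n + 1) + b i * h (j + 1) l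
  nz : ∀ n0, ∃ n, n0 ≤ n ∧ μ 1 n ≠ 0
  mu0 : ∀ l, r * b (l + 1) ≤ μ (l + 2) 0

variable {b ℓ lam : ℕ → ℕ} {h μ : ℕ → ℕ → ℕ} {c r e m D : ℕ}

lemma JSys.rpos (H : JSys b ℓ lam h μ c r e m D) : 0 < rad b := by
  have c0 : (0 : ℝ) < c + 1 := by positivity
  have hb : ∀ n, b n ≤ (c + 1) ^ n * b 0 := by
    intro n
    induction n with
    | zero => simp
    | succ n ih =>
      calc b (n + 1) ≤ c * b n := H.bup n
        _ ≤ (c + 1) * ((c + 1) ^ n * b 0) := Nat.mul_le_mul (by omega) ih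
        _ = _ := by ring
  set t : ℝ := 1 / (2 * (c + 1)) with ht
  have t0 : 0 < t := by positivity
  refine lt_of_lt_of_le t0 (le_rad H.b1 ⟨t0.le, ?_⟩)
  refine Summable.of_nonneg_of_le (fun n => by positivity) (fun n => ?_)
    ((summable_geometric_of_lt_one (r := 1 / 2) (by norm_num) (by norm_num)).mul_left (b 0 : ℝ))
  have h1 : (b n : ℝ) ≤ (c + 1) ^ n * b 0 := by exact_mod_cast hb n
  have h2 : ((c : ℝ) + 1) ^ n * t ^ n = (1 / 2) ^ n := by
    rw [← mul_pow, ht]; congr 1; field_simp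
  calc (b n : ℝ) * t ^ n ≤ ((c + 1) ^ n * b 0) * t ^ n :=
        mul_le_mul_of_nonneg_right h1 (by positivity)
    _ = b 0 * (((c : ℝ) + 1) ^ n * t ^ n) := by ring
    _ = _ := by rw [h2]

lemma JSys.sq (H : JSys b ℓ lam h μ c r e m D) (i j : ℕ) (hij : j + 1 + D ≤ i) :
    (h i j : ℝ) + h (i + 1) j + h i (j + 1) + h (i + 1) (j + 1) = c * (b i * b j) := by
  have h1 := H.hs i j (by omega)
  have h2 := H.hs i (j + 1) (by omega)
  have h3 := H.ls j
  have h1' : (h i j : ℝ) + h (i + 1) j = b i * ℓ j := by exact_mod_cast h1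
  have h2' : (h i (j + 1) : ℝ) + h (i + 1) (j + 1) = b i * ℓ (j + 1) := by exact_mod_cast h2
  have h3' : (ℓ j : ℝ) + ℓ (j + 1) = c * b j := by exact_mod_cast h3
  calc (h i j : ℝ) + h (i + 1) j + h i (j + 1) + h (i + 1) (j + 1)
      = (h i j + h (i + 1) j) + (h i (j + 1) + h (i + 1) (j + 1)) := by ring
    _ = b i * (ℓ j + ℓ (j + 1)) := by rw [h1', h2']; ring
    _ = _ := by rw [h3']; ring

/-- The defect of the recursion. -/
noncomputable def gg (b : ℕ → ℕ) (c r : ℕ) (x : ℝ) (j : ℕ) : ℝ :=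
  (1 + x) * ((b (j + 1) : ℝ) + b (j + 2)) + r * x * (1 + x) * ((b j : ℝ) + b (j + 1))
    - c * x * b (j + 1)

/-- Averaging a combination of three consecutive terms. -/
lemma avg3 {f : ℕ → ℕ} (h1 : ∀ n, 1 ≤ f n) (r0 : 0 < rad f) (u v w : ℝ) (L : ℕ)
    (h : ∀ i, L ≤ i → 0 ≤ u * (f i : ℝ) + v * f (i + 1) + w * f (i + 2)) :
    0 ≤ u + v * (1 / rad f) + w * (1 / rad f) ^ 2 := by
  have := avg_lin h1 r0 (N := 3) ![u, v, w] ![0, 1, 2] L (fun i hi => by
    have := h i hi
    simp only [Fin.sum_univ_succ, Fin.sum_univ_zero, Matrix.cons_val_zero,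
      Matrix.cons_val_succ, add_zero]
    linarith)
  simp only [Fin.sum_univ_succ, Fin.sum_univ_zero, Matrix.cons_val_zero,
    Matrix.cons_val_succ, add_zero, pow_zero, pow_one, mul_one] at this
  linarith

lemma JSys.g_nonneg (H : JSys b ℓ lam h μ c r e m D) (j : ℕ) :
    0 ≤ gg b c r (1 / rad b) j := by
  have r0 := H.rpos
  set x : ℝ := 1 / rad b with hx
  have key := avg3 H.b1 r0 ((b (j + 1) : ℝ) + b (j + 2))
    (((b (j + 1) : ℝ) + b (j + 2)) + r * ((b j : ℝ) + b (j + 1)) - c * b (j + 1))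
    (r * ((b j : ℝ) + b (j + 1))) (j + 2 + D) (fun i hi => by
      have S := H.sq (i + 1) (j + 1) (by omega)
      have U1 := H.up i j (by omega)
      have U2 := H.up (i + 1) j (by omega)
      have U3 := H.up i (j + 1) (by omega)
      have U4 := H.up (i + 1) (j + 1) (by omega)
      have U1' : (h (i + 1) (j + 1) : ℝ) ≤ b i * b (j + 1) + r * (b (i + 1) * b j) := by
        exact_mod_cast U1
      have U2' : (h (i + 1 + 1) (j + 1) : ℝ) ≤ b (i + 1) * b (j + 1) + r * (b (i + 2) * b j) := by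
        exact_mod_cast U2
      have U3' : (h (i + 1) (j + 1 + 1) : ℝ) ≤ b i * b (j + 2) + r * (b (i + 1) * b (j + 1)) := by
        exact_mod_cast U3
      have U4' : (h (i + 1 + 1) (j + 1 + 1) : ℝ) ≤ b (i + 1) * b (j + 2)
          + r * (b (i + 2) * b (j + 1)) := by
        exact_mod_cast U4
      linarith)
  rw [← hx] at key
  unfold gg
  linarith

lemma JSys.g_lam (H : JSys b ℓ lam h μ c r e m D) (j : ℕ) :
    (1 + 1 / rad b) * (((b (j + 1) : ℝ) - lam (j + 1)) + (b (j + 2) - lam (j + 2)))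
      ≤ gg b c r (1 / rad b) j := by
  have r0 := H.rpos
  set x : ℝ := 1 / rad b with hx
  have key := avg3 H.b1 r0 ((lam (j + 1) : ℝ) + lam (j + 2))
    (((lam (j + 1) : ℝ) + lam (j + 2)) + r * ((b j : ℝ) + b (j + 1)) - c * b (j + 1))
    (r * ((b j : ℝ) + b (j + 1))) (j + 2 + D) (fun i hi => by
      have S := H.sq (i + 1) (j + 1) (by omega)
      have U1 := H.la i j (by omega)
      have U2 := H.la (i + 1) j (by omega)
      have U3 := H.la i (j + 1) (by omega)
      have U4 := H.la (i + 1) (j + 1) (by omega)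
      have U1' : (h (i + 1) (j + 1) : ℝ) ≤ b i * lam (j + 1) + r * (b (i + 1) * b j) := by
        exact_mod_cast U1
      have U2' : (h (i + 1 + 1) (j + 1) : ℝ) ≤ b (i + 1) * lam (j + 1)
          + r * (b (i + 2) * b j) := by
        exact_mod_cast U2
      have U3' : (h (i + 1) (j + 1 + 1) : ℝ) ≤ b i * lam (j + 2)
          + r * (b (i + 1) * b (j + 1)) := by
        exact_mod_cast U3
      have U4' : (h (i + 1 + 1) (j + 1 + 1) : ℝ) ≤ b (i + 1) * lam (j + 2)
          + r * (b (i + 2) * b (j + 1)) := by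
        exact_mod_cast U4
      linarith)
  rw [← hx] at key
  unfold gg
  linarith

lemma JSys.g_sm (H : JSys b ℓ lam h μ c r e m D) (l n j : ℕ) (hj : l + 1 + D ≤ j) :
    (1 / rad b) ^ n * gg b c r (1 / rad b) j * μ l n
      ≤ (1 + 1 / rad b) * (b (j + 1) * ℓ l) := by
  have r0 := H.rpos
  set x : ℝ := 1 / rad b with hx
  set u : ℝ := (μ l n : ℝ) with hu
  set X : ℝ := (b (j + 1) : ℝ) + b (j + 2) with hX
  set Y : ℝ := (b j : ℝ) + b (j + 1) with hY
  have key := avg_lin H.b1 r0 (N := 5)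
    ![(b (j + 1) : ℝ) * ℓ l, (b (j + 1) : ℝ) * ℓ l, -(X * u),
      -(X * u) - r * (Y * u) + c * b (j + 1) * u, -(r * (Y * u))]
    ![0, 1, n, n + 1, n + 2] (j + 2 + D) (fun i hi => by
      have S := H.sq (i + n + 1) (j + 1) (by omega)
      have T := H.hs (j + 1) l (by omega)
      have T' : (h (j + 1) l : ℝ) + h (j + 1 + 1) l = b (j + 1) * ℓ l := by exact_mod_cast T
      have L1 := H.sm l n i j (by omega) (by omega)
      have L2 := H.sm l n (i + 1) j (by omega) (by omega)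
      have L3 := H.sm l n i (j + 1) (by omega) (by omega)
      have L4 := H.sm l n (i + 1) (j + 1) (by omega) (by omega)
      have e1 : i + 1 + n = i + n + 1 := by omega
      rw [e1] at L2 L4
      have L1' : ((b (i + n) : ℝ) * b (j + 1) + r * (b (i + n + 1) * b j)) * u
          ≤ h (i + n + 1) (j + 1) * u + b i * h (j + 1) l := by
        rw [hu]; exact_mod_cast L1
      have L2' : ((b (i + n + 1) : ℝ) * b (j + 1) + r * (b (i + n + 2) * b j)) * u
          ≤ h (i + n + 1 + 1) (j + 1) * u + b (i + 1) * h (j + 1) l := by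
        rw [hu]; exact_mod_cast L2
      have L3' : ((b (i + n) : ℝ) * b (j + 2) + r * (b (i + n + 1) * b (j + 1))) * u
          ≤ h (i + n + 1) (j + 1 + 1) * u + b i * h (j + 1 + 1) l := by
        rw [hu]; exact_mod_cast L3
      have L4' : ((b (i + n + 1) : ℝ) * b (j + 2) + r * (b (i + n + 2) * b (j + 1))) * u
          ≤ h (i + n + 1 + 1) (j + 1 + 1) * u + b (i + 1) * h (j + 1 + 1) l := by
        rw [hu]; exact_mod_cast L4
      have S' : ((h (i + n + 1) (j + 1) : ℝ) + h (i + n + 1 + 1) (j + 1)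
          + h (i + n + 1) (j + 1 + 1) + h (i + n + 1 + 1) (j + 1 + 1)) * u
          = (c * (b (i + n + 1) * b (j + 1))) * u := by
        rw [S]
      have T1 : (b i : ℝ) * (h (j + 1) l + h (j + 1 + 1) l) = b i * (b (j + 1) * ℓ l) := by
        rw [T']
      have T2 : (b (i + 1) : ℝ) * (h (j + 1) l + h (j + 1 + 1) l)
          = b (i + 1) * (b (j + 1) * ℓ l) := by
        rw [T']
      simp only [Fin.sum_univ_succ, Fin.sum_univ_zero, Matrix.cons_val_zero,
        Matrix.cons_val_succ, add_zero]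
      have e3 : i + (n + 1) = i + n + 1 := by omega
      have e4 : i + (n + 2) = i + n + 2 := by omega
      rw [e3, e4, hX, hY]
      linarith)
  simp only [Fin.sum_univ_succ, Fin.sum_univ_zero, Matrix.cons_val_zero,
    Matrix.cons_val_succ, add_zero, pow_zero, pow_one, mul_one, ← hx] at key
  have e5 : x ^ (n + 2) = x ^ n * x ^ 2 := by ring
  have e6 : x ^ (n + 1) = x ^ n * x := by ring
  rw [e5, e6] at key
  have e7 : x ^ n * gg b c r x j * u = x ^ n * (X * u) + x ^ n * x * (X * u)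
      + x ^ n * x * (r * (Y * u)) + x ^ n * x ^ 2 * (r * (Y * u))
      - c * b (j + 1) * u * (x ^ n * x) := by
    unfold gg
    rw [← hX, ← hY]
    ring
  rw [e7]
  linarith

/-- Inequality (S1), as in `HSys.stepS`. -/
lemma JSys.stepS (H : JSys b ℓ lam h μ c r e m D) :
    ((e : ℝ) + 1) * (1 / rad b) * (1 + 1 / rad b) ^ 2
      ≤ (1 + (1 / rad b) ^ 2) * (1 + 1 / rad b) ^ 2 + c * (1 / rad b) ^ 2 := by
  have r0 := H.rpos
  set x : ℝ := 1 / rad b with hx
  -- average in `i`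
  have step1 : ∀ j : ℕ, 0 ≤ (x ^ 2 * c + (1 + x) - (e + 1) * (x + x ^ 2) + (x + x ^ 2) * 0)
      * (b j : ℝ) + (x + x ^ 2 + (1 + x) - (e + 1) * (x + x ^ 2)) * b (j + 1)
      + (x + x ^ 2) * b (j + 2) := by
    intro j
    have := avg3 H.b1 r0 ((b j : ℝ) + b (j + 1))
        (((b j : ℝ) + b (j + 1)) + (b (j + 1) + b (j + 2)) - (e + 1) * (b j + b (j + 1)))
        ((c : ℝ) * b j + (b (j + 1) + b (j + 2)) - (e + 1) * (b j + b (j + 1)))
      (j + 1 + D) (fun i hi => by
        have L1 := H.S i j (by omega)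
        have L2 := H.S (i + 1) j (by omega)
        have L3 := H.S i (j + 1) (by omega)
        have L4 := H.S (i + 1) (j + 1) (by omega)
        have S := H.sq (i + 2) j (by omega)
        have L1' : (b (i + 1) : ℝ) * b j * (e + 1) ≤ h (i + 2) j + b i * b j
            + b (i + 1) * b (j + 1) := by exact_mod_cast L1
        have L2' : (b (i + 2) : ℝ) * b j * (e + 1) ≤ h (i + 2 + 1) j + b (i + 1) * b j
            + b (i + 2) * b (j + 1) := by exact_mod_cast L2
        have L3' : (b (i + 1) : ℝ) * b (j + 1) * (e + 1) ≤ h (i + 2) (j + 1) + b i * b (j + 1)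
            + b (i + 1) * b (j + 2) := by exact_mod_cast L3
        have L4' : (b (i + 2) : ℝ) * b (j + 1) * (e + 1) ≤ h (i + 2 + 1) (j + 1)
            + b (i + 1) * b (j + 1) + b (i + 2) * b (j + 2) := by exact_mod_cast L4
        nlinarith)
    rw [← hx] at this
    nlinarith
  have key := avg3 H.b1 r0
    (x ^ 2 * c + (1 + x) - (e + 1) * (x + x ^ 2)) (x + x ^ 2 + (1 + x) - (e + 1) * (x + x ^ 2))
      (x + x ^ 2) 0 (fun j _ => by
      have := step1 j
      nlinarith)
  rw [← hx] at key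
  nlinarith

/-- Sum of two consecutive inequalities `le`. -/
lemma JSys.le2 (H : JSys b ℓ lam h μ c r e m D) (j : ℕ) (hj : 1 ≤ j) :
    (c : ℝ) * b (j + 1) + (lam (j + 2) + lam (j + 3))
      ≤ (1 + e) * ((b (j + 1) : ℝ) + b (j + 2)) + m * ((b j : ℝ) + b (j + 1)) := by
  have h1 := H.le j hj
  have h2 := H.le (j + 1) (by omega)
  have h3 := H.ls (j + 1)
  have h1' : (ℓ (j + 1) : ℝ) + lam (j + 2) ≤ (1 + e) * b (j + 1) + m * b j := by
    exact_mod_cast h1
  have h2' : (ℓ (j + 1 + 1) : ℝ) + lam (j + 1 + 2) ≤ (1 + e) * b (j + 1 + 1) + m * b (j + 1) := by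
    exact_mod_cast h2
  have h3' : (ℓ (j + 1) : ℝ) + ℓ (j + 1 + 1) = c * b (j + 1) := by exact_mod_cast h3
  have e1 : lam (j + 1 + 2) = lam (j + 3) := rfl
  have e2 : b (j + 1 + 1) = b (j + 2) := rfl
  rw [e1, e2] at h2'
  linarith

end SAC63
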