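import Mathlib
import Pool.Agent.Lib.SAC84.P84
import Pool.Agent.Lib.SAC75.HMain
import Pool.Agent.Lib.SAC94.P1

/-!
Upper bounds for the lengths of the modules of homomorphisms between syzygies over an artinian
local ring, and the lower bound from the generators and the socle.
-/

set_option autoImplicit false

open CategoryTheory IsLocalRing

universe u

namespace SAC63

open SAC84 SAC75

section up

variable {R : Type u} [CommRing R] [IsLocalRing R] [IsNoetherianRing R] [IsArtinianRing R]
  [HasExt.{u} (ModuleCat.{u} R)]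

/-- The upper bound for the length of the module of homomorphisms, with the image of the syzygy
modulo the square of the maximal ideal. -/
lemma hl_le_lam_cube (M : FGM R) (i j : ℕ)
    (h1 : ExtZ R (sy M (i + 1)).car (sy M (j + 2)).car 1)
    (h2 : ExtZ R (sy M i).car R 1) :
    hl M (i + 1) (j + 1) ≤ bt M i * lam M j +
      ln R (maximalIdeal R ^ 3 : Ideal R) * (bt M (i + 1) * bt M j) := by
  set H := (sy M (i + 1)).car →ₗ[R] (sy M (j + 1)).car with hH
  let Ψ : H →ₗ[R] (Fin (bt M (i + 1)) → (Fin (bt M j) → R)) :=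
    (homPi (R := R) (Y := Fin (bt M j) → R) (bt M (i + 1))).symm.toLinearMap ∘ₗ
      (LinearMap.lcomp R (Fin (bt M j) → R) (pro M (i + 1))) ∘ₗ (pc (inc M j))
  have hΨ : ∀ f s t, Ψ f s t = inc M j (f (pro M (i + 1) (Pi.single s 1))) t := by
    intro f s t
    rfl
  have hΨi : Function.Injective Ψ := by
    exact (homPi (R := R) (Y := Fin (bt M j) → R) (bt M (i + 1))).symm.injective.comp
      ((LinearMap.lcomp_injective_of_surjective _ (pro_surj M (i + 1))).comp
        (pc_inj (inc_inj M j)))
  -- the homomorphisms with values in the cube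
  let W : Submodule R H :=
    { carrier := {f | ∀ s t, Ψ f s t ∈ (maximalIdeal R ^ 3 : Ideal R)}
      add_mem' := by
        intro f g hf hg s t
        rw [map_add, Pi.add_apply, Pi.add_apply]
        exact Ideal.add_mem _ (hf s t) (hg s t)
      zero_mem' := by
        intro s t
        rw [map_zero]
        exact Ideal.zero_mem _
      smul_mem' := by
        intro a f hf s t
        rw [map_smul, Pi.smul_apply, Pi.smul_apply]
        exact Ideal.mul_mem_left _ _ (hf s t) }
  have hW : ln R H = ln R W + ln R (H ⧸ W) := ln_sub_add W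
  have hw : ln R W ≤ ln R (maximalIdeal R ^ 3 : Ideal R) * (bt M (i + 1) * bt M j) := by
    let Θ : W →ₗ[R] (Fin (bt M (i + 1)) → (Fin (bt M j) → (maximalIdeal R ^ 3 : Ideal R))) :=
      { toFun := fun f s t => ⟨Ψ f.1 s t, f.2 s t⟩
        map_add' := by
          intro f g
          ext s t
          simp
        map_smul' := by
          intro a f
          ext s t
          simp }
    have hΘ : Function.Injective Θ := by
      intro f g hfg
      apply Subtype.ext
      apply hΨi
      ext s t
      have := congrArg (fun z => ((z s t : (maximalIdeal R ^ 3 : Ideal R)) : R)) hfg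
      exact this
    have h7 := ln_le_inj hΘ
    rw [ln_pi, ln_pi] at h7
    calc ln R W ≤ _ := h7
      _ = _ := by ring
  have hq : ln R (H ⧸ W) ≤ bt M i * lam M j := by
    let Φ : ((Fin (bt M i) → R) →ₗ[R] (Fin (bt M (j + 1)) → R)) →ₗ[R] H :=
      (pc (pro M (j + 1))) ∘ₗ (LinearMap.lcomp R _ (inc M i))
    have hΦ : Function.Surjective Φ := by
      intro φ
      obtain ⟨ψ, hψ⟩ := factor M i (j + 1) h1 h2 φ
      exact ⟨ψ, hψ⟩
    let Λ : ((Fin (bt M i) → R) →ₗ[R] (Fin (bt M (j + 1)) → R)) →ₗ[R]
        (Fin (bt M i) → LinearMap.range (qm M j)) :=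
      LinearMap.pi fun s => (qm M j).rangeRestrict ∘ₗ pro M (j + 1) ∘ₗ
        (LinearMap.applyₗ (Pi.single s (1 : R)))
    have hΛa : ∀ G s, Λ G s = (qm M j).rangeRestrict (pro M (j + 1) (G (Pi.single s 1))) := by
      intro G s
      rfl
    have hΛ : Function.Surjective Λ := by
      intro v
      have h3 : ∀ s, ∃ y : Fin (bt M (j + 1)) → R,
          (qm M j).rangeRestrict (pro M (j + 1) y) = v s := by
        intro s
        obtain ⟨x, hx⟩ := (qm M j).surjective_rangeRestrict (v s)
        obtain ⟨y, rfl⟩ := pro_surj M (j + 1) x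
        exact ⟨y, hx⟩
      choose y hy using h3
      refine ⟨homPi (R := R) (Y := Fin (bt M (j + 1)) → R) (bt M i) y, ?_⟩
      funext s
      rw [hΛa, ← hy s]
      have h5 : homPi (R := R) (Y := Fin (bt M (j + 1)) → R) (bt M i) y (Pi.single s 1) = y s :=
        congrFun ((homPi (R := R) (Y := Fin (bt M (j + 1)) → R) (bt M i)).symm_apply_apply y) s
      rw [h5]
    have hker : LinearMap.ker Λ ≤ LinearMap.ker (W.mkQ ∘ₗ Φ) := by
      intro G hG
      refine (Submodule.Quotient.mk_eq_zero _).2 ?_
      intro s t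
      have hG' : ∀ s t, inc M j (pro M (j + 1) (G (Pi.single s 1))) t ∈
          (maximalIdeal R ^ 2 : Ideal R) := by
        intro s t
        have h5 : Λ G s = 0 := congrFun hG s
        rw [hΛa] at h5
        have h6 : qm M j (pro M (j + 1) (G (Pi.single s 1))) = 0 := congrArg Subtype.val h5
        exact (Submodule.Quotient.mk_eq_zero _).1 (congrFun h6 t)
      rw [hΨ]
      let L : (Fin (bt M i) → R) →ₗ[R] R :=
        (LinearMap.proj t) ∘ₗ inc M j ∘ₗ pro M (j + 1) ∘ₗ G
      have hL : ∀ v, L v = ∑ s, v s • L (Pi.single s 1) := by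
        intro v
        conv_lhs => rw [← LinearMap.sum_single_apply (fun _ : Fin (bt M i) => R) v]
        rw [map_sum]
        refine Finset.sum_congr rfl fun j _ => ?_
        rw [← map_smul]
        congr 1
        ext t
        simp [Pi.single_apply]
      change L (inc M i (pro M (i + 1) (Pi.single s 1))) ∈ _
      rw [hL]
      refine Ideal.sum_mem _ fun s' _ => ?_
      rw [smul_eq_mul, pow_succ' (maximalIdeal R) 2]
      exact Ideal.mul_mem_mul (inc_mem M i _ s') (hG' s' t)
    let e := Λ.quotKerEquivOfSurjective hΛ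
    let p : (Fin (bt M i) → LinearMap.range (qm M j)) →ₗ[R] (H ⧸ W) :=
      (LinearMap.ker Λ).liftQ (W.mkQ ∘ₗ Φ) hker ∘ₗ (e.symm : _ →ₗ[R] _)
    have hp : Function.Surjective p := by
      intro y
      obtain ⟨x, rfl⟩ := W.mkQ_surjective y
      obtain ⟨G, rfl⟩ := hΦ x
      refine ⟨e (Submodule.Quotient.mk G), ?_⟩
      change (LinearMap.ker Λ).liftQ (W.mkQ ∘ₗ Φ) hker
        (e.symm (e (Submodule.Quotient.mk G))) = _
      rw [LinearEquiv.symm_apply_apply]
      rfl
    have h10 := ln_le_surj hp
    rw [ln_pi] at h10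
    exact h10
  have : hl M (i + 1) (j + 1) = ln R H := rfl
  rw [this, hW]
  omega

/-- An upper bound for the length of the module of homomorphisms, for each ideal. -/
lemma hl_le_ideal (J : Ideal R) (M : FGM R) (i j : ℕ)
    (h1 : ExtZ R (sy M (i + 1)).car (sy M (j + 2)).car 1)
    (h2 : ExtZ R (sy M i).car R 1) :
    hl M (i + 1) (j + 1) ≤ bt M i * (bt M (j + 1) * ln R (R ⧸ J)) +
      ln R (maximalIdeal R ^ 2 * J : Ideal R) * (bt M (i + 1) * bt M j) := by
  set H := (sy M (i + 1)).car →ₗ[R] (sy M (j + 1)).car with hH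
  let Ψ : H →ₗ[R] (Fin (bt M (i + 1)) → (Fin (bt M j) → R)) :=
    (homPi (R := R) (Y := Fin (bt M j) → R) (bt M (i + 1))).symm.toLinearMap ∘ₗ
      (LinearMap.lcomp R (Fin (bt M j) → R) (pro M (i + 1))) ∘ₗ (pc (inc M j))
  have hΨ : ∀ f s t, Ψ f s t = inc M j (f (pro M (i + 1) (Pi.single s 1))) t := by
    intro f s t
    rfl
  have hΨi : Function.Injective Ψ := by
    exact (homPi (R := R) (Y := Fin (bt M j) → R) (bt M (i + 1))).symm.injective.comp
      ((LinearMap.lcomp_injective_of_surjective _ (pro_surj M (i + 1))).comp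
        (pc_inj (inc_inj M j)))
  -- the homomorphisms with values in the product
  let W : Submodule R H :=
    { carrier := {f | ∀ s t, Ψ f s t ∈ (maximalIdeal R ^ 2 * J : Ideal R)}
      add_mem' := by
        intro f g hf hg s t
        rw [map_add, Pi.add_apply, Pi.add_apply]
        exact Ideal.add_mem _ (hf s t) (hg s t)
      zero_mem' := by
        intro s t
        rw [map_zero]
        exact Ideal.zero_mem _
      smul_mem' := by
        intro a f hf s t
        rw [map_smul, Pi.smul_apply, Pi.smul_apply]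
        exact Ideal.mul_mem_left _ _ (hf s t) }
  have hW : ln R H = ln R W + ln R (H ⧸ W) := ln_sub_add W
  have hw : ln R W ≤ ln R (maximalIdeal R ^ 2 * J : Ideal R) * (bt M (i + 1) * bt M j) := by
    let Θ : W →ₗ[R] (Fin (bt M (i + 1)) → (Fin (bt M j) → (maximalIdeal R ^ 2 * J : Ideal R))) :=
      { toFun := fun f s t => ⟨Ψ f.1 s t, f.2 s t⟩
        map_add' := by
          intro f g
          ext s t
          simp
        map_smul' := by
          intro a f
          ext s t
          simp }
    have hΘ : Function.Injective Θ := by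
      intro f g hfg
      apply Subtype.ext
      apply hΨi
      ext s t
      have := congrArg (fun z => ((z s t : (maximalIdeal R ^ 2 * J : Ideal R)) : R)) hfg
      exact this
    have h7 := ln_le_inj hΘ
    rw [ln_pi, ln_pi] at h7
    calc ln R W ≤ _ := h7
      _ = _ := by ring
  have hq : ln R (H ⧸ W) ≤ bt M i * (bt M (j + 1) * ln R (R ⧸ J)) := by
    let Φ : ((Fin (bt M i) → R) →ₗ[R] (Fin (bt M (j + 1)) → R)) →ₗ[R] H :=
      (pc (pro M (j + 1))) ∘ₗ (LinearMap.lcomp R _ (inc M i))
    have hΦ : Function.Surjective Φ := by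
      intro φ
      obtain ⟨ψ, hψ⟩ := factor M i (j + 1) h1 h2 φ
      exact ⟨ψ, hψ⟩
    let Λ : ((Fin (bt M i) → R) →ₗ[R] (Fin (bt M (j + 1)) → R)) →ₗ[R]
        (Fin (bt M i) → (Fin (bt M (j + 1)) → R ⧸ J)) :=
      { toFun := fun G s t => J.mkQ (G (Pi.single s 1) t)
        map_add' := by
          intro G G'
          ext s t
          simp
        map_smul' := by
          intro a G
          funext s t
          exact map_smul J.mkQ a (G (Pi.single s 1) t) }
    have hΛ : Function.Surjective Λ := by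
      intro v
      have h3 : ∀ s t, ∃ a : R, J.mkQ a = v s t := fun s t => Submodule.mkQ_surjective _ (v s t)
      choose y hy using h3
      refine ⟨homPi (R := R) (Y := Fin (bt M (j + 1)) → R) (bt M i) y, ?_⟩
      funext s t
      change J.mkQ (homPi (R := R) (Y := Fin (bt M (j + 1)) → R) (bt M i) y (Pi.single s 1) t)
        = v s t
      have h5 : homPi (R := R) (Y := Fin (bt M (j + 1)) → R) (bt M i) y (Pi.single s 1) = y s :=
        congrFun ((homPi (R := R) (Y := Fin (bt M (j + 1)) → R) (bt M i)).symm_apply_apply y) s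
      rw [h5, hy]
    have hker : LinearMap.ker Λ ≤ LinearMap.ker (W.mkQ ∘ₗ Φ) := by
      intro G hG
      refine (Submodule.Quotient.mk_eq_zero _).2 ?_
      intro s t
      have hG0 : ∀ s t, G (Pi.single s 1) t ∈ J := by
        intro s t
        have h5 : Λ G s t = 0 := congrFun (congrFun hG s) t
        exact (Submodule.Quotient.mk_eq_zero _).1 h5
      have hG' : ∀ s t, inc M j (pro M (j + 1) (G (Pi.single s 1))) t ∈
          (maximalIdeal R * J : Ideal R) := by
        intro s t
        have h5 := sum_single ((LinearMap.proj t : (Fin (bt M j) → R) →ₗ[R] R) ∘ₗ inc M j ∘ₗ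
          pro M (j + 1)) (G (Pi.single s 1))
        change inc M j (pro M (j + 1) (G (Pi.single s 1))) t = _ at h5
        rw [h5]
        refine Ideal.sum_mem _ fun s' _ => ?_
        rw [smul_eq_mul, mul_comm (maximalIdeal R) J]
        exact Ideal.mul_mem_mul (hG0 s s') (inc_mem M j _ t)
      rw [hΨ]
      let L : (Fin (bt M i) → R) →ₗ[R] R :=
        (LinearMap.proj t) ∘ₗ inc M j ∘ₗ pro M (j + 1) ∘ₗ G
      have hL : ∀ v, L v = ∑ s, v s • L (Pi.single s 1) := by
        intro v
        conv_lhs => rw [← LinearMap.sum_single_apply (fun _ : Fin (bt M i) => R) v]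
        rw [map_sum]
        refine Finset.sum_congr rfl fun j _ => ?_
        rw [← map_smul]
        congr 1
        ext t
        simp [Pi.single_apply]
      change L (inc M i (pro M (i + 1) (Pi.single s 1))) ∈ _
      rw [hL]
      refine Ideal.sum_mem _ fun s' _ => ?_
      rw [smul_eq_mul, pow_two, mul_assoc]
      exact Ideal.mul_mem_mul (inc_mem M i _ s') (hG' s' t)
    let e := Λ.quotKerEquivOfSurjective hΛ
    let p : (Fin (bt M i) → (Fin (bt M (j + 1)) → R ⧸ J)) →ₗ[R] (H ⧸ W) :=
      (LinearMap.ker Λ).liftQ (W.mkQ ∘ₗ Φ) hker ∘ₗ (e.symm : _ →ₗ[R] _)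
    have hp : Function.Surjective p := by
      intro y
      obtain ⟨x, rfl⟩ := W.mkQ_surjective y
      obtain ⟨G, rfl⟩ := hΦ x
      refine ⟨e (Submodule.Quotient.mk G), ?_⟩
      change (LinearMap.ker Λ).liftQ (W.mkQ ∘ₗ Φ) hker
        (e.symm (e (Submodule.Quotient.mk G))) = _
      rw [LinearEquiv.symm_apply_apply]
      rfl
    have h10 := ln_le_surj hp
    rw [ln_pi, ln_pi] at h10
    exact h10
  have : hl M (i + 1) (j + 1) = ln R H := rfl
  rw [this, hW]
  omega

end up

section ret

variable {R : Type u} [CommRing R] [IsLocalRing R] [IsArtinianRing R] [IsNoetherianRing R]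

omit [IsArtinianRing R] in
/-- The part of a submodule killed by the maximal ideal which lies outside `W` splits off, if
the quotient by `W` is killed by the maximal ideal. -/
lemma exists_retract' {H : Type u} [AddCommGroup H] [Module R H] [Module.Finite R H]
    [IsArtinianRing R]
    (W S : Submodule R H) (hS : ∀ a ∈ maximalIdeal R, ∀ x : S, a • x = 0)
    (hW : ∀ a ∈ maximalIdeal R, ∀ x : H ⧸ W, a • x = 0) :
    ∃ (V : Submodule R (H ⧸ W)) (ι : V →ₗ[R] H) (π : H →ₗ[R] V), π ∘ₗ ι = LinearMap.id ∧
      ln R S ≤ ln R W + ln R V := by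
  have ssS : IsSemisimpleModule R S := SAC94.semisimple_of_killed hS
  have ssX : IsSemisimpleModule R (H ⧸ W) := SAC94.semisimple_of_killed hW
  let V : Submodule R (H ⧸ W) := Submodule.map W.mkQ S
  let q : S →ₗ[R] V := (W.mkQ ∘ₗ S.subtype).codRestrict V (fun x => ⟨x.1, x.2, rfl⟩)
  have hq : Function.Surjective q := by
    rintro ⟨_, x, hx, rfl⟩
    exact ⟨⟨x, hx⟩, rfl⟩
  obtain ⟨σ, hσ⟩ := IsSemisimpleModule.lifting_property q hq LinearMap.id
  obtain ⟨π0, hπ0⟩ := IsSemisimpleModule.extension_property V.subtype V.injective_subtype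
    LinearMap.id
  refine ⟨V, S.subtype ∘ₗ σ, π0 ∘ₗ W.mkQ, ?_, ?_⟩
  · apply LinearMap.ext
    intro v
    have h1 : q (σ v) = v := congrArg (fun z => z v) hσ
    have h2 : W.mkQ (S.subtype (σ v)) = V.subtype v := by
      have := congrArg Subtype.val h1
      exact this
    change π0 (W.mkQ (S.subtype (σ v))) = v
    rw [h2]
    exact congrArg (fun z => z v) hπ0
  · have h1 : ln R S = ln R (LinearMap.ker q) + ln R V :=
      ln_add (LinearMap.ker q).injective_subtype hq (LinearMap.exact_subtype_ker_map q)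
    let f : LinearMap.ker q →ₗ[R] W :=
      (S.subtype ∘ₗ (LinearMap.ker q).subtype).codRestrict W (by
        intro x
        have h2 : W.mkQ x.1.1 = 0 := congrArg Subtype.val x.2
        exact (Submodule.Quotient.mk_eq_zero _).1 h2)
    have h3 : ln R (LinearMap.ker q) ≤ ln R W := by
      refine ln_le_inj (f := f) ?_
      intro x y hxy
      apply Subtype.ext
      apply Subtype.ext
      have h4 := congrArg (fun z : W => (z : H)) hxy
      exact h4
    omega

variable [HasExt.{u} (ModuleCat.{u} R)]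

/-- The resulting bound for `Ext` from `H`. -/
lemma retract_le' {H : Type u} [AddCommGroup H] [Module R H] [Module.Finite R H]
    (W S : Submodule R H) (hS : ∀ a ∈ maximalIdeal R, ∀ x : S, a • x = 0)
    (hW : ∀ a ∈ maximalIdeal R, ∀ x : H ⧸ W, a • x = 0)
    (Y : Type u) [AddCommGroup Y] [Module R Y] [Module.Finite R Y] (n : ℕ) {q p : ℕ}
    (hq : q ≤ ln R (H ⧸ W)) (hp : p ≤ ln R S) :
    (((q + p - ln R H) * mu R Y n : ℕ) : ℕ∞) ≤ el R H Y n := by
  obtain ⟨V, ι, π, hπ, hln⟩ := exists_retract' W S hS hW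
  have h1 : el R V Y n ≤ el R H Y n := by
    refine Module.length_le_of_injective (qf Y π n) ?_
    refine Function.LeftInverse.injective (g := qf Y ι n) fun y => ?_
    rw [← qf_comp, hπ, qf_id]
  have h2 : ∀ a ∈ maximalIdeal R, ∀ x : V, a • x = 0 :=
    fun a ha x => Subtype.ext (hW a ha x.1)
  rw [el_killed' Y h2, ← coe_mu] at h1
  refine le_trans ?_ h1
  have h3 : ln R H = ln R W + ln R (H ⧸ W) := ln_sub_add W
  have h4 : q + p - ln R H ≤ ln R V := by omega
  exact_mod_cast Nat.mul_le_mul_right _ h4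

/-- Piece P1 in general. -/
theorem pieceP1' (M : FGM R) (hR : ∀ n, ExtZ R M.car R (n + 1))
    {N : ℕ} (hM : ∀ n, N ≤ n → ExtZ R M.car M.car n) {i j l n : ℕ} (hj : 2 ≤ j)
    (hij : N + j + n + 1 ≤ i) (hjl : N + l ≤ j + 1) :
    (bt M (i - 1) * bt M j + ln R (maximalIdeal R).annihilator * (bt M i * bt M (j - 1)) -
      hl M i j) * mu R (sy M l).car n ≤ bt M (i - 1 - n) * hl M j l := by
  have hV : ∀ i j, N + j ≤ 1 + i → ExtZ R (sy M i).car (sy M j).car 1 :=
    fun i j h' => ext_sy_sy M hR hM (n := 0) (by omega)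
  have hE : ∀ i, ExtZ R (sy M i).car R 1 := fun i => ext_sy_ring M hR i 0
  obtain ⟨k, rfl⟩ : ∃ k, j = k + 2 := ⟨j - 2, by omega⟩
  have h1 : el R ((sy M i).car →ₗ[R] (sy M (k + 2)).car) (sy M l).car n ≤
      ((bt M (i - 1 - n) * hl M (k + 2) l : ℕ) : ℕ∞) := by
    obtain ⟨p, rfl⟩ : ∃ p, i = p + n + 1 := ⟨i - n - 1, by omega⟩
    have h2 : p + n + 1 - 1 - n = p := by omega
    rw [h2]
    exact SAC94.decay' M (sy M l).car p (k + 2) (fun i' _ => hV _ _ (by omega))
      (fun n => ext_sy_sy M hR hM (by omega)) n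
  obtain ⟨m, rfl⟩ : ∃ m, i = m + 2 := ⟨i - 2, by omega⟩
  have h2 := gen_lower M m (k + 2) (hV _ _ (by omega)) (hV _ _ (by omega)) (hE _) (hE _)
  have h3 : ln R (maximalIdeal R).annihilator * (bt M (m + 2) * bt M (k + 1)) ≤
      ln R (SAC3.soc R ((sy M (m + 2)).car →ₗ[R] (sy M (k + 2)).car)) := by
    refine le_trans ?_ (soc_hom (R := R) (sy M (m + 2)).car (sy M (k + 2)).car)
    calc ln R (maximalIdeal R).annihilator * (bt M (m + 2) * bt M (k + 1))
        = bt M (m + 2) * (bt M (k + 1) * ln R (maximalIdeal R).annihilator) := by ring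
      _ ≤ bt M (m + 2) * ln R (SAC3.soc R (sy M (k + 2)).car) :=
        Nat.mul_le_mul_left _ (soc_sy M k)
  have h5 := retract_le' (maximalIdeal R • ⊤)
    (SAC3.soc R ((sy M (m + 2)).car →ₗ[R] (sy M (k + 2)).car))
    (fun a ha x => Subtype.ext (x.2 a ha))
    (fun a ha x => by
      obtain ⟨y, rfl⟩ := Submodule.mkQ_surjective _ x
      rw [← map_smul]
      exact (Submodule.Quotient.mk_eq_zero _).2 (Submodule.smul_mem_smul ha trivial))
    (sy M l).car n h2 h3
  have h6 := h5.trans h1
  exact_mod_cast h6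

end ret

end SAC63
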