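import Mathlib
import Pool.Agent.Lib.SAC63.LUp
import Pool.Agent.Lib.SAC63.JMain
import Pool.Agent.Lib.SAC63.JFinal

/-!
Artinian local rings for which the length of the cube of the maximal ideal is at most the type.
-/

set_option autoImplicit false

open CategoryTheory IsLocalRing

universe u

namespace SAC63

open SAC84 SAC75

section num

variable {b ℓ lam : ℕ → ℕ} {h μ : ℕ → ℕ → ℕ} {c r e m D : ℕ}

/-- The lengths of the modules of homomorphisms in the exceptional case. -/
lemma JSys.far (H : JSys b ℓ lam h μ c r e m D) (hc : c = 4 * (1 + r)) {B j1 : ℕ}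
    (hB : ∀ j, j1 ≤ j → b j = B) (i j : ℕ) (hj : j1 ≤ j) (hij : j + 1 + D ≤ i) :
    h (i + 1) (j + 1) = (1 + r) * (B * B) := by
  have up : ∀ i j, j1 ≤ j → j + D ≤ i → h (i + 1) (j + 1) ≤ (1 + r) * (B * B) := by
    intro i j hj hij
    have h1 := H.up i j hij
    rw [hB i (by omega), hB (i + 1) (by omega), hB j hj, hB (j + 1) (by omega)] at h1
    calc h (i + 1) (j + 1) ≤ _ := h1
      _ = _ := by ring
  have a1 := up i j hj (by omega)
  have a2 := up (i + 1) j hj (by omega)
  have a3 := up i (j + 1) (by omega) (by omega)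
  have a4 := up (i + 1) (j + 1) (by omega) (by omega)
  have b1 := H.hs (i + 1) (j + 1) (by omega)
  have b2 := H.hs (i + 1) (j + 2) (by omega)
  have b3 := H.ls (j + 1)
  rw [hB (i + 1) (by omega)] at b1 b2
  rw [hB (j + 1) (by omega), hc] at b3
  have b4 : B * ℓ (j + 1) + B * ℓ (j + 2) = 4 * ((1 + r) * (B * B)) := by
    calc B * ℓ (j + 1) + B * ℓ (j + 2) = B * (ℓ (j + 1) + ℓ (j + 1 + 1)) := by ring
      _ = _ := by rw [b3]; ring
  have e1 : i + 1 + 1 = i + 2 := rfl
  have e2 : j + 1 + 1 = j + 2 := rfl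
  rw [e1] at a2 a4 b1 b2
  rw [e2] at a3 a4
  omega

end num

section main

variable {R : Type u} [CommRing R] [IsLocalRing R] [IsArtinianRing R] [IsNoetherianRing R]
  [HasExt.{u} (ModuleCat.{u} R)]

theorem jsysL (M : FGM R)
    (h3 : ln R (maximalIdeal R ^ 3 : Ideal R) ≤ ln R (maximalIdeal R).annihilator)
    (h : ¬ Module.Free R M.car)
    (hR : ∀ n, ExtZ R M.car R (n + 1)) {N : ℕ} (hM : ∀ n, N ≤ n → ExtZ R M.car M.car n) :
    JSys (bt M) (fun i => ln R (sy M i).car) (lamJ M) (hl M)
      (fun l => mu R (sy M l).car) (ln R R) (ln R (maximalIdeal R).annihilator)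
      (Module.finrank (ResidueField R) (CotangentSpace R))
      (ln R (maximalIdeal R ^ 3 : Ideal R)) (N + 4) := by
  have hV : ∀ i j, N + j ≤ 1 + i → ExtZ R (sy M i).car (sy M j).car 1 :=
    fun i j h' => ext_sy_sy M hR hM (n := 0) (by omega)
  have hE : ∀ i, ExtZ R (sy M i).car R 1 := fun i => ext_sy_ring M hR i 0
  have HH := hsys M h hR hM
  refine ⟨bt_pos' M h, bt_up M, HH.ls, ?_, ?_, ?_, ?_, ?_, ?_, ?_, ?_, mu_nz M h, ?_⟩
  · intro i j hij
    exact hl_add M i j (hV i j (by omega))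
  · intro i j hij
    exact HH.S i j (by omega)
  · intro i j hij
    exact (hl_le_cube M i j (hV _ _ (by omega)) (hE _)).trans
      (Nat.add_le_add_left (Nat.mul_le_mul_right _ h3) _)
  · intro i j hij
    exact (hl_le_lam_cube M i j (hV _ _ (by omega)) (hE _)).trans
      (Nat.add_le_add_left (Nat.mul_le_mul_right _ h3) _)
  · intro j
    cases j with
    | zero => exact Nat.zero_le _
    | succ j => exact lam_le M j
  · intro j _
    have h1 := ln_sy_le M j
    rw [ln_quot_sq R] at h1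
    change ln R (sy M (j + 1)).car + lam M (j + 1) ≤ _
    linarith
  · intro l n i j hlj hij
    have h1 := pieceP1' M hR hM (i := i + n + 1) (j := j + 1) (l := l) (n := n)
      (by omega) (by omega) (by omega)
    have e1 : i + n + 1 - 1 = i + n := by omega
    have e2 : j + 1 - 1 = j := by omega
    have e3 : i + n - n = i := by omega
    rw [e1, e2, e3] at h1
    set a := bt M (i + n) * bt M (j + 1) +
      ln R (maximalIdeal R).annihilator * (bt M (i + n + 1) * bt M j) with ha
    set t := mu R (sy M l).car n with ht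
    calc a * t ≤ (hl M (i + n + 1) (j + 1) + (a - hl M (i + n + 1) (j + 1))) * t :=
          Nat.mul_le_mul_right _ (by omega)
      _ = hl M (i + n + 1) (j + 1) * t + (a - hl M (i + n + 1) (j + 1)) * t := by ring
      _ ≤ _ := Nat.add_le_add_left h1 _
  · intro l n i j hlj hij
    obtain ⟨j', rfl⟩ : ∃ j', j = j' + 1 := ⟨j - 1, by omega⟩
    have h1 := soc_sy M j'
    have h2 := soc_hom (R := R) (sy M (i + n + 1)).car (sy M (j' + 2)).car
    have h3 := SAC94.decay' M (sy M l).car i (j' + 2) (fun i' _ => hV _ _ (by omega))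
      (fun n => ext_sy_sy M hR hM (by omega)) n
    have h4' : ln R (maximalIdeal R).annihilator * (bt M (i + n + 1) * bt M (j' + 1)) ≤
        ln R (SAC3.soc R ((sy M (i + n + 1)).car →ₗ[R] (sy M (j' + 2)).car)) := by
      refine le_trans ?_ h2
      calc ln R (maximalIdeal R).annihilator * (bt M (i + n + 1) * bt M (j' + 1))
          = bt M (i + n + 1) * (bt M (j' + 1) * ln R (maximalIdeal R).annihilator) := by ring
        _ ≤ bt M (i + n + 1) * ln R (SAC3.soc R (sy M (j' + 2)).car) :=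
          Nat.mul_le_mul_left _ h1
    exact low_sub (sy M l).car
      (SAC3.soc R ((sy M (i + n + 1)).car →ₗ[R] (sy M (j' + 2)).car))
      (fun a ha x => Subtype.ext (x.2 a ha)) h4' h3
  · intro l
    have h1 := soc_sy M l
    rw [ln_soc_le_mu] at h1
    rw [mul_comm]
    exact h1

/-- The two layers of the module of homomorphisms. -/
lemma hom_layers (M : FGM R) (i j : ℕ)
    (h1 : ExtZ R (sy M (i + 1)).car (sy M (j + 2)).car 1)
    (h2 : ExtZ R (sy M i).car R 1) :
    ln R (((sy M (i + 1)).car →ₗ[R] (sy M (j + 1)).car) ⧸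
      (maximalIdeal R • (⊤ : Submodule R ((sy M (i + 1)).car →ₗ[R] (sy M (j + 1)).car)))) ≤
        bt M i * bt M (j + 1) ∧
    ∃ Θ : (maximalIdeal R • (⊤ : Submodule R ((sy M (i + 1)).car →ₗ[R] (sy M (j + 1)).car)) :
        Submodule R _) →ₗ[R]
        (Fin (bt M (i + 1)) → (Fin (bt M j) → (maximalIdeal R ^ 3 : Ideal R))),
      Function.Injective Θ := by
  set H := (sy M (i + 1)).car →ₗ[R] (sy M (j + 1)).car with hH
  let W : Submodule R H := maximalIdeal R • ⊤
  have hq : ln R (H ⧸ W) ≤ bt M i * bt M (j + 1) := by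
    let Φ : ((Fin (bt M i) → R) →ₗ[R] (Fin (bt M (j + 1)) → R)) →ₗ[R] H :=
      (pc (pro M (j + 1))) ∘ₗ (LinearMap.lcomp R _ (inc M i))
    have hΦ : Function.Surjective Φ := by
      intro φ
      obtain ⟨ψ, hψ⟩ := factor M i (j + 1) h1 h2 φ
      exact ⟨ψ, hψ⟩
    let e : (Fin (bt M i * bt M (j + 1)) → R) ≃ₗ[R]
        ((Fin (bt M i) → R) →ₗ[R] (Fin (bt M (j + 1)) → R)) :=
      (LinearEquiv.funCongrLeft R R (finProdFinEquiv (m := bt M i) (n := bt M (j + 1)))) ≪≫ₗ
        (LinearEquiv.curry R R (Fin (bt M i)) (Fin (bt M (j + 1)))) ≪≫ₗ homPi _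
    refine ln_le_of_killed (fun a ha x => ?_) (W.mkQ ∘ₗ Φ ∘ₗ e.toLinearMap)
      (W.mkQ_surjective.comp (hΦ.comp e.surjective))
    obtain ⟨y, rfl⟩ := W.mkQ_surjective x
    rw [← map_smul]
    exact (Submodule.Quotient.mk_eq_zero W).2 (Submodule.smul_mem_smul ha trivial)
  refine ⟨hq, ?_⟩
  let Ψ : H →ₗ[R] (Fin (bt M (i + 1)) → (Fin (bt M j) → R)) :=
    (homPi (R := R) (Y := Fin (bt M j) → R) (bt M (i + 1))).symm.toLinearMap ∘ₗ
      (LinearMap.lcomp R (Fin (bt M j) → R) (pro M (i + 1))) ∘ₗ (pc (inc M j))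
  have hΨ : ∀ f s t, Ψ f s t = inc M j (f (pro M (i + 1) (Pi.single s 1))) t := by
    intro f s t
    rfl
  have hΨi : Function.Injective Ψ := by
    exact (homPi (R := R) (Y := Fin (bt M j) → R) (bt M (i + 1))).symm.injective.comp
      ((LinearMap.lcomp_injective_of_surjective _ (pro_surj M (i + 1))).comp
        (pc_inj (inc_inj M j)))
  have hsoc : ∀ f ∈ W, ∀ s t, Ψ f s t ∈ (maximalIdeal R ^ 3 : Ideal R) := by
    intro f hf s t
    refine Submodule.smul_induction_on hf ?_ ?_
    · intro a ha g _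
      rw [map_smul, Pi.smul_apply, Pi.smul_apply, hΨ, smul_eq_mul,
        pow_succ' (maximalIdeal R) 2]
      exact Ideal.mul_mem_mul ha (factor_sq M i j h1 h2 g (pro M (i + 1) (Pi.single s 1)) t)
    · intro f g hf hg
      rw [map_add, Pi.add_apply, Pi.add_apply]
      exact Ideal.add_mem _ hf hg
  let Θ : W →ₗ[R] (Fin (bt M (i + 1)) → (Fin (bt M j) → (maximalIdeal R ^ 3 : Ideal R))) :=
    { toFun := fun f s t => ⟨Ψ f.1 s t, hsoc f.1 f.2 s t⟩
      map_add' := by
        intro f g
        ext s t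
        simp
      map_smul' := by
        intro a f
        ext s t
        simp }
  have hΘ : Function.Injective Θ := by
    intro f g hfg
    apply Subtype.ext
    apply hΨi
    ext s t
    have := congrArg (fun z => ((z s t : (maximalIdeal R ^ 3 : Ideal R)) : R)) hfg
    exact this
  exact ⟨Θ, hΘ⟩

/-- A module with as many homomorphisms to the residue field as its length is killed by the
maximal ideal. -/
lemma killed_of_hom {W : Type u} [AddCommGroup W] [Module R W] [Module.Finite R W]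
    (h : ((ln R W : ℕ) : ℕ∞) ≤ el R W (R ⧸ maximalIdeal R) 0) :
    ∀ a ∈ maximalIdeal R, ∀ x : W, a • x = 0 := by
  let U : Submodule R W := maximalIdeal R • ⊤
  have hk : ∀ a ∈ maximalIdeal R, ∀ x : W ⧸ U, a • x = 0 := by
    intro a ha x
    obtain ⟨y, rfl⟩ := Submodule.mkQ_surjective _ x
    rw [← map_smul]
    exact (Submodule.Quotient.mk_eq_zero _).2 (Submodule.smul_mem_smul ha trivial)
  have h1 : el R W (R ⧸ maximalIdeal R) 0 ≤ el R (W ⧸ U) (R ⧸ maximalIdeal R) 0 := by
    rw [el_zero, el_zero]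
    refine Module.length_le_of_surjective
      (LinearMap.lcomp R (R ⧸ maximalIdeal R) U.mkQ) ?_
    intro φ
    have hφ : U ≤ LinearMap.ker φ := by
      refine Submodule.smul_le.2 ?_
      intro a ha x _
      rw [LinearMap.mem_ker, map_smul]
      obtain ⟨y, hy⟩ := Submodule.Quotient.mk_surjective _ (φ x)
      rw [← hy]
      exact (Submodule.Quotient.mk_eq_zero _).2 (Ideal.mul_mem_right _ _ ha)
    exact ⟨U.liftQ φ hφ, by ext x; rfl⟩
  rw [el_killed' (R ⧸ maximalIdeal R) hk 0, ← coe_kap, kap_zero] at h1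
  have h2 : ln R W ≤ ln R (W ⧸ U) * 1 := by exact_mod_cast h.trans h1
  have h3 := ln_sub_add U
  have h4 : ln R U = 0 := by omega
  rw [ln_eq_zero_iff] at h4
  intro a ha x
  have h5 : (⟨a • x, Submodule.smul_mem_smul ha trivial⟩ : U) = 0 := h4.elim _ _
  exact congrArg Subtype.val h5

/-- In the exceptional case the fourth power of the maximal ideal is zero. -/
theorem fourth_zero (M : FGM R)
    (hc : ln R R = 4 * (1 + ln R (maximalIdeal R).annihilator))
    (he : Module.finrank (ResidueField R) (CotangentSpace R) =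
        ln R (maximalIdeal R).annihilator + 2)
    (h3 : ln R (maximalIdeal R ^ 3 : Ideal R) = ln R (maximalIdeal R).annihilator)
    {B j1 : ℕ} (hB : ∀ j, j1 ≤ j → bt M j = B) (h : ¬ Module.Free R M.car)
    (hR : ∀ n, ExtZ R M.car R (n + 1)) {N : ℕ} (hM : ∀ n, N ≤ n → ExtZ R M.car M.car n) :
    maximalIdeal R ^ 4 = ⊥ := by
  have hV : ∀ i j, N + j ≤ 1 + i → ExtZ R (sy M i).car (sy M j).car 1 :=
    fun i j h' => ext_sy_sy M hR hM (n := 0) (by omega)
  have hE : ∀ i, ExtZ R (sy M i).car R 1 := fun i => ext_sy_ring M hR i 0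
  have HJ := jsysL M h3.le h hR hM
  set r := ln R (maximalIdeal R).annihilator with hr
  have hB1 : 1 ≤ B := by
    have := HJ.b1 j1
    rwa [hB j1 le_rfl] at this
  set j := j1 with hj
  set i := j + 1 + (N + 4) with hi
  have hfar := HJ.far hc hB (i + 1) j le_rfl (by omega)
  have b1 : bt M (i + 1) = B := hB _ (by omega)
  have b2 : bt M (j + 1) = B := hB _ (by omega)
  have b3 : bt M (i + 2) = B := hB _ (by omega)
  have b4 : bt M j = B := hB _ (by omega)
  have b5 : bt M i = B := hB _ (by omega)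
  have b6 : bt M (j + 2) = B := hB _ (by omega)
  obtain ⟨hq, Θ, hΘ⟩ := hom_layers M (i + 1) j (hV _ _ (by omega)) (hE _)
  rw [b1, b2] at hq
  set H := (sy M (i + 1 + 1)).car →ₗ[R] (sy M (j + 1)).car with hH
  let W : Submodule R H := maximalIdeal R • ⊤
  have hW : ln R H = ln R W + ln R (H ⧸ W) := ln_sub_add W
  have hl1 : ln R H = (1 + r) * (B * B) := hfar
  have hWle : ln R W ≤ r * (B * B) := by
    have h7 := ln_le_inj hΘ
    rw [ln_pi, ln_pi, h3] at h7
    have e1 : bt M (i + 1 + 1) = B := b3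
    rw [e1, b4] at h7
    calc ln R W ≤ _ := h7
      _ = _ := by ring
  have hWeq : ln R W = r * (B * B) := by
    have : (1 + r) * (B * B) = B * B + r * (B * B) := by ring
    have hq' : ln R (H ⧸ W) ≤ B * B := hq
    omega
  -- the quotient has at least as many generators
  have g1 := gen_lower M i (j + 1) (hV _ _ (by omega)) (hV _ _ (by omega)) (hE _) (hE _)
  rw [b1, b2] at g1
  have g1' : B * B ≤ ln R (H ⧸ W) := g1
  have hkq : ∀ a ∈ maximalIdeal R, ∀ x : H ⧸ W, a • x = 0 := by
    intro a ha x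
    obtain ⟨y, rfl⟩ := Submodule.mkQ_surjective _ x
    rw [← map_smul]
    exact (Submodule.Quotient.mk_eq_zero _).2 (Submodule.smul_mem_smul ha trivial)
  have h6 : ln R (R ⧸ maximalIdeal R) = 1 := by
    rw [ln, len_residue]
    rfl
  have hE1 : el R H (R ⧸ maximalIdeal R) (0 + 1) ≤ ((B * B + B * B : ℕ) : ℕ∞) := by
    have h2 := decay_succ M (R ⧸ maximalIdeal R) (i + 1) (j + 1) 0 (hV _ _ (by omega))
    have h3 := decay_zero M (R ⧸ maximalIdeal R) i (j + 1) (hV _ _ (by omega))
    have h4 := el_sy_succ M (R ⧸ maximalIdeal R) (j + 1) 0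
    have h5 := el_zero_le (R ⧸ maximalIdeal R) (pro M (j + 1 + 1)) (pro_surj M (j + 1 + 1))
    rw [h6, mul_one] at h3 h5
    rw [b5, b2] at h3
    have b6' : bt M (j + 1 + 1) = B := b6
    rw [b6'] at h5
    rw [b1] at h2
    refine h2.trans ?_
    push_cast
    refine add_le_add (by exact_mod_cast h3) ?_
    gcongr
    exact h4.trans h5
  have hconn := el_conn (Y := R ⧸ maximalIdeal R) W.injective_subtype W.mkQ_surjective
    (LinearMap.exact_subtype_mkQ W) 0
  rw [el_killed' (R ⧸ maximalIdeal R) hkq (0 + 1), ← coe_kap] at hconn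
  have h9 := edim_le_kap (R := R)
  have hWk : ((ln R W : ℕ) : ℕ∞) ≤ el R W (R ⧸ maximalIdeal R) 0 := by
    have h10 : ((B * B * (r + 2) : ℕ) : ℕ∞) ≤
        el R W (R ⧸ maximalIdeal R) 0 + ((B * B + B * B : ℕ) : ℕ∞) := by
      refine le_trans ?_ (hconn.trans (add_le_add le_rfl hE1))
      have h11 : B * B * (r + 2) ≤ ln R (H ⧸ W) * kap R (0 + 1) := by
        refine Nat.mul_le_mul g1' ?_
        rw [← he]
        exact h9
      exact_mod_cast h11
    have h12 : B * B * (r + 2) = ln R W + (B * B + B * B) := by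
      rw [hWeq]; ring
    rw [h12, Nat.cast_add] at h10
    exact (ENat.add_le_add_iff_right (ENat.natCast_ne_top _)).1 h10
  have hWz := killed_of_hom hWk
  -- the injection is bijective
  have hΘs : Function.Surjective Θ := by
    have h1 := ln_sub_add (LinearMap.range Θ)
    have h2 := ln_eq_equiv (LinearEquiv.ofInjective Θ hΘ)
    rw [ln_pi, ln_pi, h3] at h1
    have e1 : bt M (i + 1 + 1) = B := b3
    have h5 : ln R (_ ⧸ LinearMap.range Θ) = 0 := by
      have h7 : ln R (LinearMap.range Θ) = r * (B * B) := by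
        rw [← h2]
        exact hWeq
      have h8 : bt M (i + 1 + 1) * (bt M j * r) = r * (B * B) := by
        rw [e1, b4]; ring
      rw [h7, h8] at h1
      omega
    rw [ln_eq_zero_iff, Submodule.Quotient.subsingleton_iff] at h5
    exact LinearMap.range_eq_top.1 h5
  rw [eq_bot_iff]
  have h13 : maximalIdeal R ^ 4 = maximalIdeal R * maximalIdeal R ^ 3 := by ring
  rw [h13, Ideal.mul_le]
  intro a ha v hv
  let s : Fin (bt M (i + 1 + 1)) := ⟨0, by
    have e1 : bt M (i + 1 + 1) = B := b3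
    omega⟩
  let t : Fin (bt M j) := ⟨0, by omega⟩
  obtain ⟨f, hf⟩ := hΘs (fun _ _ => ⟨v, hv⟩)
  have h14 : a • f = 0 := hWz a ha f
  have h15 : a • Θ f = 0 := by rw [← map_smul, h14, map_zero]
  rw [hf] at h15
  have h16 := congrArg (fun z => ((z s t : (maximalIdeal R ^ 3 : Ideal R)) : R)) h15
  exact h16

/-- Theorem L. -/
theorem thmL
    (h3 : ln R (maximalIdeal R ^ 3 : Ideal R) ≤ ln R (maximalIdeal R).annihilator)
    (hr : 2 ≤ ln R (maximalIdeal R).annihilator)
    (M : FGM R) (h : ¬ Module.Free R M.car)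
    (hR : ∀ n, ExtZ R M.car R (n + 1)) {N : ℕ} (hM : ∀ n, N ≤ n → ExtZ R M.car M.car n) :
    ln R R = 4 * (1 + ln R (maximalIdeal R).annihilator) ∧
      Module.finrank (ResidueField R) (CotangentSpace R) =
        ln R (maximalIdeal R).annihilator + 2 ∧
      ln R (maximalIdeal R ^ 3 : Ideal R) = ln R (maximalIdeal R).annihilator ∧
      maximalIdeal R ^ 4 = ⊥ ∧
      ∃ B j1, ∀ j, j1 ≤ j → bt M j = B := by
  obtain ⟨h1, h2, h4, B, j1, hB⟩ := JSys.main (jsysL M h3 h hR hM) hr h3
  exact ⟨h1, h2, h4, fourth_zero M h1 h2 h4 hB h hR hM, B, j1, hB⟩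

omit [HasExt.{u} (ModuleCat.{u} R)] in
/-- An ideal of length at most one is killed by the maximal ideal. -/
lemma mul_zero_of_one (K : Ideal R) (h : ln R K ≤ 1) : maximalIdeal R * K = ⊥ := by
  by_contra hne
  have hle : maximalIdeal R * K ≤ K := Ideal.mul_le_right
  have h5 : ln R (maximalIdeal R * K : Ideal R) ≠ 0 := by
    intro h0
    rw [ln_eq_zero_iff, Submodule.subsingleton_iff_eq_bot] at h0
    exact hne h0
  have h6 : K ≤ maximalIdeal R • K := by
    let f := Submodule.inclusion hle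
    have h7 := ln_sub_add (LinearMap.range f)
    have h8 := ln_eq_equiv (LinearEquiv.ofInjective f (Submodule.inclusion_injective _))
    have h9 : ln R (_ ⧸ LinearMap.range f) = 0 := by omega
    rw [ln_eq_zero_iff, Submodule.Quotient.subsingleton_iff] at h9
    intro x hx
    obtain ⟨y, hy⟩ := (LinearMap.range_eq_top.1 h9) ⟨x, hx⟩
    have h10 : (y : R) = x := congrArg Subtype.val hy
    rw [← h10]
    exact y.2
  have h11 := Submodule.eq_bot_of_le_smul_of_le_jacobson_bot (maximalIdeal R) K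
    (IsNoetherian.noetherian K) h6 (IsLocalRing.maximalIdeal_le_jacobson _)
  apply hne
  rw [eq_bot_iff, ← h11]
  exact hle

omit [HasExt.{u} (ModuleCat.{u} R)] in
/-- If the cube of the maximal ideal has length at most one then the fourth power vanishes. -/
lemma fourth_zero_of_one (h : ln R (maximalIdeal R ^ 3 : Ideal R) ≤ 1) :
    maximalIdeal R ^ 4 = ⊥ := by
  rw [pow_succ' (maximalIdeal R) 3]
  exact mul_zero_of_one _ h

end main

end SAC63
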