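import Mathlib
import Pool.Agent.Lib.SAC63.LMain
import Pool.Agent.Lib.SAC63.Arc

/-!
Artinian local rings for which the length of the cube of the maximal ideal is at most the type:
the freeness theorems.
-/

set_option autoImplicit false

open CategoryTheory IsLocalRing

universe u

namespace SAC63

open SAC84 SAC75

section main

variable {R : Type u} [CommRing R] [IsLocalRing R] [IsNoetherianRing R] [IsArtinianRing R]
  [HasExt.{u} (ModuleCat.{u} R)]

/-- At the border the number of generators of the module of homomorphisms drops. -/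
lemma quot_lt (M : FGM R) (j : ℕ) (hb : 1 ≤ bt M (j + 1))
    (h1 : ExtZ R (sy M (j + 2)).car (sy M (j + 2)).car 1)
    (h2 : ExtZ R (sy M (j + 1)).car R 1) :
    ln R (((sy M (j + 2)).car →ₗ[R] (sy M (j + 1)).car) ⧸
      (maximalIdeal R • (⊤ : Submodule R ((sy M (j + 2)).car →ₗ[R] (sy M (j + 1)).car)))) + 1 ≤
        bt M (j + 1) * bt M (j + 1) := by
  set H := (sy M (j + 2)).car →ₗ[R] (sy M (j + 1)).car with hH
  let W : Submodule R H := maximalIdeal R • ⊤
  have hq : ln R (H ⧸ W) + 1 ≤ bt M (j + 1) * bt M (j + 1) := by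
    let Φ : ((Fin (bt M (j + 1)) → R) →ₗ[R] (Fin (bt M (j + 1)) → R)) →ₗ[R] H :=
      (pc (pro M (j + 1))) ∘ₗ (LinearMap.lcomp R _ (inc M (j + 1)))
    have hΦ : Function.Surjective Φ := by
      intro φ
      obtain ⟨ψ, hψ⟩ := factor M (j + 1) (j + 1) h1 h2 φ
      exact ⟨ψ, hψ⟩
    have hid : Φ LinearMap.id = 0 := by
      refine LinearMap.ext fun x => ?_
      exact (inc_pro M (j + 1) (inc M (j + 1) x)).2 ⟨x, rfl⟩
    let e : (Fin (bt M (j + 1) * bt M (j + 1)) → R) ≃ₗ[R]
        ((Fin (bt M (j + 1)) → R) →ₗ[R] (Fin (bt M (j + 1)) → R)) :=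
      (LinearEquiv.funCongrLeft R R
        (finProdFinEquiv (m := bt M (j + 1)) (n := bt M (j + 1)))) ≪≫ₗ
        (LinearEquiv.curry R R (Fin (bt M (j + 1))) (Fin (bt M (j + 1)))) ≪≫ₗ homPi _
    let s : Fin (bt M (j + 1)) := ⟨0, hb⟩
    refine ln_lt_of_killed (fun a ha x => ?_) (W.mkQ ∘ₗ Φ ∘ₗ e.toLinearMap)
      (W.mkQ_surjective.comp (hΦ.comp e.surjective)) (e.symm LinearMap.id) ?_
      (finProdFinEquiv (s, s)) ?_
    · obtain ⟨y, rfl⟩ := W.mkQ_surjective x
      rw [← map_smul]
      exact (Submodule.Quotient.mk_eq_zero W).2 (Submodule.smul_mem_smul ha trivial)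
    · change W.mkQ (Φ (e (e.symm LinearMap.id))) = 0
      rw [LinearEquiv.apply_symm_apply, hid, map_zero]
    · have h5 : ∀ w : Fin (bt M (j + 1) * bt M (j + 1)) → R,
          e w (Pi.single s 1) s = w (finProdFinEquiv (s, s)) := by
        intro w
        have h6 : ∀ (g : Fin (bt M (j + 1)) → (Fin (bt M (j + 1)) → R)),
            homPi (R := R) (Y := Fin (bt M (j + 1)) → R) (bt M (j + 1)) g (Pi.single s 1) = g s := by
          intro g
          have h7 := congrFun ((homPi (R := R) (Y := Fin (bt M (j + 1)) → R)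
            (bt M (j + 1))).symm_apply_apply g) s
          exact h7
        change homPi (R := R) (Y := Fin (bt M (j + 1)) → R) (bt M (j + 1))
          (fun a b => w (finProdFinEquiv (a, b))) (Pi.single s 1) s = _
        rw [h6]
      rw [← h5 (e.symm LinearMap.id), LinearEquiv.apply_symm_apply]
      simp [mem_maximalIdeal]
  exact hq

/-- At the border the upper bound for the length of the module of homomorphisms is strict. -/
lemma hl_ltL (M : FGM R) (j : ℕ) (hb : 1 ≤ bt M (j + 1))
    (h1 : ExtZ R (sy M (j + 2)).car (sy M (j + 2)).car 1)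
    (h2 : ExtZ R (sy M (j + 1)).car R 1) :
    hl M (j + 2) (j + 1) + 1 ≤ bt M (j + 1) * bt M (j + 1) +
      ln R (maximalIdeal R ^ 3 : Ideal R) * (bt M (j + 2) * bt M j) := by
  have h3 := quot_lt M j hb h1 h2
  obtain ⟨-, Θ, hΘ⟩ := hom_layers M (j + 1) j h1 h2
  have h4 := ln_le_inj hΘ
  rw [ln_pi, ln_pi] at h4
  have h5 := ln_sub_add (maximalIdeal R •
    (⊤ : Submodule R ((sy M (j + 1 + 1)).car →ₗ[R] (sy M (j + 1)).car)))
  have h6 : hl M (j + 2) (j + 1) = ln R ((sy M (j + 1 + 1)).car →ₗ[R] (sy M (j + 1)).car) := rfl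
  have h7 : bt M (j + 1 + 1) * (bt M j * ln R (maximalIdeal R ^ 3 : Ideal R)) =
      ln R (maximalIdeal R ^ 3 : Ideal R) * (bt M (j + 2) * bt M j) := by ring
  rw [h7] at h4
  rw [h6, h5]
  exact (by omega : ∀ a b c d : ℕ, a ≤ b → c + 1 ≤ d → a + c + 1 ≤ d + b) _ _ _ _ h4 h3

/-- Freeness when the cube of the maximal ideal is not longer than the socle. -/
theorem cube_free
    (h4 : ln R (maximalIdeal R ^ 3 : Ideal R) ≤ ln R (maximalIdeal R).annihilator)
    (hr : 2 ≤ ln R (maximalIdeal R).annihilator ∨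
      4 ≤ Module.finrank (ResidueField R) (CotangentSpace R))
    (hex : (∀ r : ℕ, 2 ≤ r → ln R R = 4 * (r + 1) →
      Module.finrank (ResidueField R) (CotangentSpace R) = r + 2 →
      ln R (maximalIdeal R ^ 3 : Ideal R) = r → maximalIdeal R ^ 4 = ⊥ →
      maximalIdeal R ^ 3 = (maximalIdeal R).annihilator → False) ∨ Finite (ResidueField R))
    (M : FGM R) (hR : ∀ n, ExtZ R M.car R (n + 1))
    {N : ℕ} (hM : ∀ n, N ≤ n → ExtZ R M.car M.car n) : Module.Free R M.car := by
  have h1 := type_pos (R := R)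
  by_cases h3 : ln R (maximalIdeal R).annihilator = 1
  · have h4' := fourth_zero_of_one (h4.trans h3.le)
    have h5 := ln_le_of_type_one h3 h4'
    exact thmT (injective_of_type h3) (by omega) M hM
  · by_contra hfree
    obtain ⟨h5, h6, h7, h8, B, j1, hB⟩ := thmL h4 (by omega) M hfree hR hM
    rcases hex with hex | hfin
    · exact hex (ln R (maximalIdeal R).annihilator) (by omega) (by omega) h6 h7 h8
        (cube_eq h8 h7)
    · exact SAC3.no_bounded M hfree hR hM (fun j hj => (hB j hj).le)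

/-- Vanishing of all positive self extensions: no exception. -/
theorem arc_freeL
    (h4 : ln R (maximalIdeal R ^ 3 : Ideal R) ≤ ln R (maximalIdeal R).annihilator)
    (hr : 2 ≤ ln R (maximalIdeal R).annihilator)
    (M : FGM R) (hR : ∀ n, ExtZ R M.car R (n + 1)) (hM : ∀ n, ExtZ R M.car M.car (n + 1)) :
    Module.Free R M.car := by
  by_contra hfree
  have hM' : ∀ n, 1 ≤ n → ExtZ R M.car M.car n := by
    intro n hn
    obtain ⟨k, rfl⟩ : ∃ k, n = k + 1 := ⟨n - 1, by omega⟩
    exact hM k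
  have hV : ∀ i j, j ≤ i → ExtZ R (sy M i).car (sy M j).car 1 :=
    fun i j h' => ext_sy_sy M hR hM' (n := 0) (by omega)
  have hE : ∀ i, ExtZ R (sy M i).car R 1 := fun i => ext_sy_ring M hR i 0
  have HJ := jsysL M h4 hfree hR hM'
  obtain ⟨hc, he, h3, -, B, j1, hB⟩ := thmL h4 hr M hfree hR hM'
  set r := ln R (maximalIdeal R).annihilator with hrdef
  set c := ln R R with hcdef
  have hB1 : 1 ≤ B := by
    have := HJ.b1 j1
    rwa [hB j1 le_rfl] at this
  have ls : ∀ j, j1 ≤ j → ln R (sy M j).car + ln R (sy M (j + 1)).car = 4 * (1 + r) * B := by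
    intro j hj
    have h1 := HJ.ls j
    rw [hB j hj, hc] at h1
    exact h1
  have hs : ∀ i j, j1 ≤ i → j ≤ i → hl M i j + hl M (i + 1) j = B * ln R (sy M j).car := by
    intro i j hi hj
    have h1 := hl_add M i j (hV i j hj)
    rw [hB i hi] at h1
    exact h1
  have far : ∀ i j, j1 ≤ j → j + 6 ≤ i → hl M (i + 1) (j + 1) = (1 + r) * (B * B) := by
    intro i j hj hij
    exact HJ.far hc hB i j hj (by omega)
  have ell : ∀ j, j1 ≤ j → B * ln R (sy M (j + 1)).car = 2 * ((1 + r) * (B * B)) := by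
    intro j hj
    have h1 := hs (j + 6 + 1) (j + 1) (by omega) (by omega)
    rw [far (j + 6) j hj (by omega), far (j + 6 + 1) j hj (by omega)] at h1
    omega
  have near : ∀ j, j1 ≤ j → ∀ k, k ≤ 6 →
      hl M (j + 7 - k + 1) (j + 1) = (1 + r) * (B * B) := by
    intro j hj k
    induction k with
    | zero =>
      intro _
      exact far (j + 7) j hj (by omega)
    | succ k ih =>
      intro hk
      have h1 := ih (by omega)
      have h2 := hs (j + 7 - (k + 1) + 1) (j + 1) (by omega) (by omega)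
      have h3 : j + 7 - (k + 1) + 1 + 1 = j + 7 - k + 1 := by omega
      rw [h3, h1, ell j hj] at h2
      omega
  have h1 := near j1 le_rfl 6 le_rfl
  have h2 := hl_ltL M j1 (by rw [hB _ (by omega)]; exact hB1) (hV _ _ le_rfl) (hE _)
  have h3' : j1 + 7 - 6 + 1 = j1 + 2 := by omega
  rw [h3'] at h1
  rw [h1, hB (j1 + 1) (by omega), hB (j1 + 2) (by omega), hB j1 le_rfl, h3] at h2
  have h4' : (1 + r) * (B * B) + 1 ≤ (1 + r) * (B * B) := by
    calc (1 + r) * (B * B) + 1 ≤ _ := h2
      _ = _ := by ring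
  omega

/-- Vanishing of all positive self extensions, any type. -/
theorem arc_freeL'
    (h4 : ln R (maximalIdeal R ^ 3 : Ideal R) ≤ ln R (maximalIdeal R).annihilator)
    (hr : 2 ≤ ln R (maximalIdeal R).annihilator ∨
      4 ≤ Module.finrank (ResidueField R) (CotangentSpace R))
    (M : FGM R) (hR : ∀ n, ExtZ R M.car R (n + 1)) (hM : ∀ n, ExtZ R M.car M.car (n + 1)) :
    Module.Free R M.car := by
  have h1 := type_pos (R := R)
  by_cases h3 : ln R (maximalIdeal R).annihilator = 1
  · have h4' := fourth_zero_of_one (h4.trans h3.le)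
    have h5 := ln_le_of_type_one h3 h4'
    refine thmT (injective_of_type h3) (by omega) M (N := 1) fun n hn => ?_
    obtain ⟨k, rfl⟩ : ∃ k, n = k + 1 := ⟨n - 1, by omega⟩
    exact hM k
  · exact arc_freeL h4 (by omega) M hR hM

end main

end SAC63
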