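import Pool.Agent.Lib.SAC63.JOne

/-!
Numerical part for artinian local rings of arbitrary Loewy length. `b` are the Betti numbers of
a module, `ℓ` the lengths of its syzygies, `h i j` the lengths of the modules of homomorphisms
from the `i`-th to the `j`-th syzygy, `μ l` the Bass numbers of the `l`-th syzygy.
-/

set_option autoImplicit false

namespace SAC63

open Finset SAC75

/-- The numerical data. -/
structure USys (b ℓ : ℕ → ℕ) (h μ : ℕ → ℕ → ℕ) (c r e D : ℕ) : Prop where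
  b1 : ∀ n, 1 ≤ b n
  bup : ∀ n, b (n + 1) ≤ c * b n
  ls : ∀ j, ℓ j + ℓ (j + 1) = c * b j
  hs : ∀ i j, j + D ≤ i → h i j + h (i + 1) j = b i * ℓ j
  S : ∀ i j, j + D ≤ i →
    b (i + 1) * b j * (e + 1) ≤ h (i + 2) j + b i * b j + b (i + 1) * b (j + 1)
  sm : ∀ l n i j, l + D ≤ j → j + D ≤ i →
    (b (i + n) * b (j + 1) + r * (b (i + n + 1) * b j)) * μ l n
      ≤ h (i + n + 1) (j + 1) * μ l n + b i * h (j + 1) l
  B : ∀ l n i j, l + D ≤ j → j + D ≤ i →
    r * (b (i + n + 1) * b j) * (μ l (n + 1) + μ l n)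
      ≤ h (i + n + 1) (j + 1) * μ l (n + 1) + b i * h (j + 1) l
  nz : ∀ n0, ∃ n, n0 ≤ n ∧ μ 1 n ≠ 0
  mu0 : ∀ l, r * b (l + 1) ≤ μ (l + 2) 0

variable {b ℓ : ℕ → ℕ} {h μ : ℕ → ℕ → ℕ} {c r e D : ℕ}

lemma USys.rpos (H : USys b ℓ h μ c r e D) : 0 < rad b := by
  have c0 : (0 : ℝ) < c + 1 := by positivity
  have hb : ∀ n, b n ≤ (c + 1) ^ n * b 0 := by
    intro n
    induction n with
    | zero => simp
    | succ n ih =>
      calc b (n + 1) ≤ c * b n := H.bup n
        _ ≤ (c + 1) * ((c + 1) ^ n * b 0) := Nat.mul_le_mul (by omega) ih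
        _ = _ := by ring
  set t : ℝ := 1 / (2 * (c + 1)) with ht
  have t0 : 0 < t := by positivity
  refine lt_of_lt_of_le t0 (le_rad H.b1 ⟨t0.le, ?_⟩)
  refine Summable.of_nonneg_of_le (fun n => by positivity) (fun n => ?_)
    ((summable_geometric_of_lt_one (r := 1 / 2) (by norm_num) (by norm_num)).mul_left (b 0 : ℝ))
  have h1 : (b n : ℝ) ≤ (c + 1) ^ n * b 0 := by exact_mod_cast hb n
  have h2 : ((c : ℝ) + 1) ^ n * t ^ n = (1 / 2) ^ n := by
    rw [← mul_pow, ht]; congr 1; field_simp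
  calc (b n : ℝ) * t ^ n ≤ ((c + 1) ^ n * b 0) * t ^ n :=
        mul_le_mul_of_nonneg_right h1 (by positivity)
    _ = b 0 * (((c : ℝ) + 1) ^ n * t ^ n) := by ring
    _ = _ := by rw [h2]

lemma USys.sq (H : USys b ℓ h μ c r e D) (i j : ℕ) (hij : j + 1 + D ≤ i) :
    (h i j : ℝ) + h (i + 1) j + h i (j + 1) + h (i + 1) (j + 1) = c * (b i * b j) := by
  have h1 := H.hs i j (by omega)
  have h2 := H.hs i (j + 1) (by omega)
  have h3 := H.ls j
  have h1' : (h i j : ℝ) + h (i + 1) j = b i * ℓ j := by exact_mod_cast h1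
  have h2' : (h i (j + 1) : ℝ) + h (i + 1) (j + 1) = b i * ℓ (j + 1) := by exact_mod_cast h2
  have h3' : (ℓ j : ℝ) + ℓ (j + 1) = c * b j := by exact_mod_cast h3
  calc (h i j : ℝ) + h (i + 1) j + h i (j + 1) + h (i + 1) (j + 1)
      = (h i j + h (i + 1) j) + (h i (j + 1) + h (i + 1) (j + 1)) := by ring
    _ = b i * (ℓ j + ℓ (j + 1)) := by rw [h1', h2']; ring
    _ = _ := by rw [h3']; ring

lemma USys.g_sm (H : USys b ℓ h μ c r e D) (l n j : ℕ) (hj : l + 1 + D ≤ j) :
    (1 / rad b) ^ n * gg b c r (1 / rad b) j * μ l n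
      ≤ (1 + 1 / rad b) * (b (j + 1) * ℓ l) := by
  have r0 := H.rpos
  set x : ℝ := 1 / rad b with hx
  set u : ℝ := (μ l n : ℝ) with hu
  set X : ℝ := (b (j + 1) : ℝ) + b (j + 2) with hX
  set Y : ℝ := (b j : ℝ) + b (j + 1) with hY
  have key := avg_lin H.b1 r0 (N := 5)
    ![(b (j + 1) : ℝ) * ℓ l, (b (j + 1) : ℝ) * ℓ l, -(X * u),
      -(X * u) - r * (Y * u) + c * b (j + 1) * u, -(r * (Y * u))]
    ![0, 1, n, n + 1, n + 2] (j + 2 + D) (fun i hi => by
      have S := H.sq (i + n + 1) (j + 1) (by omega)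
      have T := H.hs (j + 1) l (by omega)
      have T' : (h (j + 1) l : ℝ) + h (j + 1 + 1) l = b (j + 1) * ℓ l := by exact_mod_cast T
      have L1 := H.sm l n i j (by omega) (by omega)
      have L2 := H.sm l n (i + 1) j (by omega) (by omega)
      have L3 := H.sm l n i (j + 1) (by omega) (by omega)
      have L4 := H.sm l n (i + 1) (j + 1) (by omega) (by omega)
      have e1 : i + 1 + n = i + n + 1 := by omega
      rw [e1] at L2 L4
      have L1' : ((b (i + n) : ℝ) * b (j + 1) + r * (b (i + n + 1) * b j)) * u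
          ≤ h (i + n + 1) (j + 1) * u + b i * h (j + 1) l := by
        rw [hu]; exact_mod_cast L1
      have L2' : ((b (i + n + 1) : ℝ) * b (j + 1) + r * (b (i + n + 2) * b j)) * u
          ≤ h (i + n + 1 + 1) (j + 1) * u + b (i + 1) * h (j + 1) l := by
        rw [hu]; exact_mod_cast L2
      have L3' : ((b (i + n) : ℝ) * b (j + 2) + r * (b (i + n + 1) * b (j + 1))) * u
          ≤ h (i + n + 1) (j + 1 + 1) * u + b i * h (j + 1 + 1) l := by
        rw [hu]; exact_mod_cast L3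
      have L4' : ((b (i + n + 1) : ℝ) * b (j + 2) + r * (b (i + n + 2) * b (j + 1))) * u
          ≤ h (i + n + 1 + 1) (j + 1 + 1) * u + b (i + 1) * h (j + 1 + 1) l := by
        rw [hu]; exact_mod_cast L4
      have S' : ((h (i + n + 1) (j + 1) : ℝ) + h (i + n + 1 + 1) (j + 1)
          + h (i + n + 1) (j + 1 + 1) + h (i + n + 1 + 1) (j + 1 + 1)) * u
          = (c * (b (i + n + 1) * b (j + 1))) * u := by
        rw [S]
      have T1 : (b i : ℝ) * (h (j + 1) l + h (j + 1 + 1) l) = b i * (b (j + 1) * ℓ l) := by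
        rw [T']
      have T2 : (b (i + 1) : ℝ) * (h (j + 1) l + h (j + 1 + 1) l)
          = b (i + 1) * (b (j + 1) * ℓ l) := by
        rw [T']
      simp only [Fin.sum_univ_succ, Fin.sum_univ_zero, Matrix.cons_val_zero,
        Matrix.cons_val_succ, add_zero]
      have e3 : i + (n + 1) = i + n + 1 := by omega
      have e4 : i + (n + 2) = i + n + 2 := by omega
      rw [e3, e4, hX, hY]
      linarith)
  simp only [Fin.sum_univ_succ, Fin.sum_univ_zero, Matrix.cons_val_zero,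
    Matrix.cons_val_succ, add_zero, pow_zero, pow_one, mul_one, ← hx] at key
  have e5 : x ^ (n + 2) = x ^ n * x ^ 2 := by ring
  have e6 : x ^ (n + 1) = x ^ n * x := by ring
  rw [e5, e6] at key
  have e7 : x ^ n * gg b c r x j * u = x ^ n * (X * u) + x ^ n * x * (X * u)
      + x ^ n * x * (r * (Y * u)) + x ^ n * x ^ 2 * (r * (Y * u))
      - c * b (j + 1) * u * (x ^ n * x) := by
    unfold gg
    rw [← hX, ← hY]
    ring
  rw [e7]
  linarith

/-- Inequality (S1), as in `HSys.stepS`. -/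
lemma USys.stepS (H : USys b ℓ h μ c r e D) :
    ((e : ℝ) + 1) * (1 / rad b) * (1 + 1 / rad b) ^ 2
      ≤ (1 + (1 / rad b) ^ 2) * (1 + 1 / rad b) ^ 2 + c * (1 / rad b) ^ 2 := by
  have r0 := H.rpos
  set x : ℝ := 1 / rad b with hx
  -- average in `i`
  have step1 : ∀ j : ℕ, 0 ≤ (x ^ 2 * c + (1 + x) - (e + 1) * (x + x ^ 2) + (x + x ^ 2) * 0)
      * (b j : ℝ) + (x + x ^ 2 + (1 + x) - (e + 1) * (x + x ^ 2)) * b (j + 1)
      + (x + x ^ 2) * b (j + 2) := by
    intro j
    have := avg3 H.b1 r0 ((b j : ℝ) + b (j + 1))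
        (((b j : ℝ) + b (j + 1)) + (b (j + 1) + b (j + 2)) - (e + 1) * (b j + b (j + 1)))
        ((c : ℝ) * b j + (b (j + 1) + b (j + 2)) - (e + 1) * (b j + b (j + 1)))
      (j + 1 + D) (fun i hi => by
        have L1 := H.S i j (by omega)
        have L2 := H.S (i + 1) j (by omega)
        have L3 := H.S i (j + 1) (by omega)
        have L4 := H.S (i + 1) (j + 1) (by omega)
        have S := H.sq (i + 2) j (by omega)
        have L1' : (b (i + 1) : ℝ) * b j * (e + 1) ≤ h (i + 2) j + b i * b j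
            + b (i + 1) * b (j + 1) := by exact_mod_cast L1
        have L2' : (b (i + 2) : ℝ) * b j * (e + 1) ≤ h (i + 2 + 1) j + b (i + 1) * b j
            + b (i + 2) * b (j + 1) := by exact_mod_cast L2
        have L3' : (b (i + 1) : ℝ) * b (j + 1) * (e + 1) ≤ h (i + 2) (j + 1) + b i * b (j + 1)
            + b (i + 1) * b (j + 2) := by exact_mod_cast L3
        have L4' : (b (i + 2) : ℝ) * b (j + 1) * (e + 1) ≤ h (i + 2 + 1) (j + 1)
            + b (i + 1) * b (j + 1) + b (i + 2) * b (j + 2) := by exact_mod_cast L4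
        nlinarith)
    rw [← hx] at this
    nlinarith
  have key := avg3 H.b1 r0
    (x ^ 2 * c + (1 + x) - (e + 1) * (x + x ^ 2)) (x + x ^ 2 + (1 + x) - (e + 1) * (x + x ^ 2))
      (x + x ^ 2) 0 (fun j _ => by
      have := step1 j
      nlinarith)
  rw [← hx] at key
  nlinarith

/-- Averaging two sequences at once: an upper bound for `h`. -/
lemma USys.stepU (H : USys b ℓ h μ c r e D) {α β : ℕ}
    (hU : ∀ i j, j + D ≤ i →
      h (i + 1) (j + 1) ≤ b i * (b (j + 1) * α) + β * (b (i + 1) * b j)) :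
    (c : ℝ) * (1 / rad b) ≤ (α + β) * (1 + 1 / rad b) ^ 2 := by
  have r0 := H.rpos
  have xb : 1 ≤ 1 / rad b := by rw [one_le_div r0]; exact rad_le_one H.b1
  set x : ℝ := 1 / rad b with hx
  have step1 : ∀ j : ℕ, 0 ≤ (β * x * (1 + x)) * (b j : ℝ)
      + (α * (1 + x) + β * x * (1 + x) - c * x) * b (j + 1) + (α * (1 + x)) * b (j + 2) := by
    intro j
    have := avg3 H.b1 r0 ((α : ℝ) * (b (j + 1) + b (j + 2)))
      ((α : ℝ) * (b (j + 1) + b (j + 2)) + β * (b j + b (j + 1)) - c * b (j + 1))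
      ((β : ℝ) * (b j + b (j + 1))) (j + 2 + D) (fun i hi => by
        have S := H.sq (i + 1) (j + 1) (by omega)
        have U1 := hU i j (by omega)
        have U2 := hU (i + 1) j (by omega)
        have U3 := hU i (j + 1) (by omega)
        have U4 := hU (i + 1) (j + 1) (by omega)
        have U1' : (h (i + 1) (j + 1) : ℝ) ≤ b i * (b (j + 1) * α) + β * (b (i + 1) * b j) := by
          exact_mod_cast U1
        have U2' : (h (i + 1 + 1) (j + 1) : ℝ) ≤ b (i + 1) * (b (j + 1) * α)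
            + β * (b (i + 2) * b j) := by
          exact_mod_cast U2
        have U3' : (h (i + 1) (j + 1 + 1) : ℝ) ≤ b i * (b (j + 2) * α)
            + β * (b (i + 1) * b (j + 1)) := by
          exact_mod_cast U3
        have U4' : (h (i + 1 + 1) (j + 1 + 1) : ℝ) ≤ b (i + 1) * (b (j + 2) * α)
            + β * (b (i + 2) * b (j + 1)) := by
          exact_mod_cast U4
        linarith)
    rw [← hx] at this
    linarith
  have key := avg3 H.b1 r0 _ _ _ 0 (fun j _ => step1 j)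
  rw [← hx] at key
  have h2 : 0 ≤ ((α + β) * (1 + x) ^ 2 - c * x) * x := by nlinarith
  have h3 := nonneg_of_mul_nonneg_left h2 (by linarith)
  linarith

/-- The bound from the second socle. -/
lemma USys.stepD (H : USys b ℓ h μ c r e D) {s : ℕ}
    (hD : ∀ i j, j + 2 + D ≤ i →
      s * (b i * b (j + 1)) ≤ h i (j + 2) + r * (b (i + 1) * b (j + 1)) + r * (b i * b j)) :
    (s : ℝ) * (1 / rad b) * (1 + 1 / rad b) ^ 2
      ≤ c * (1 / rad b) ^ 2 + r * (1 + (1 / rad b) ^ 2) * (1 + 1 / rad b) ^ 2 := by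
  have r0 := H.rpos
  have xb : 1 ≤ 1 / rad b := by rw [one_le_div r0]; exact rad_le_one H.b1
  set x : ℝ := 1 / rad b with hx
  have step1 : ∀ j : ℕ, 0 ≤ (r * (1 + x)) * (b j : ℝ)
      + (r * (1 + x) + r * x * (1 + x) - s * (1 + x)) * b (j + 1)
      + (c + r * x * (1 + x) - s * (1 + x)) * b (j + 2) := by
    intro j
    have := avg3 H.b1 r0
      ((c : ℝ) * b (j + 2) + r * (b j + b (j + 1)) - s * (b (j + 1) + b (j + 2)))
      ((r : ℝ) * (b (j + 1) + b (j + 2)) + r * (b j + b (j + 1)) - s * (b (j + 1) + b (j + 2)))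
      ((r : ℝ) * (b (j + 1) + b (j + 2))) (j + 3 + D) (fun i hi => by
        have S := H.sq i (j + 2) (by omega)
        have U1 := hD i j (by omega)
        have U2 := hD (i + 1) j (by omega)
        have U3 := hD i (j + 1) (by omega)
        have U4 := hD (i + 1) (j + 1) (by omega)
        have U1' : (s : ℝ) * (b i * b (j + 1)) ≤ h i (j + 2) + r * (b (i + 1) * b (j + 1))
            + r * (b i * b j) := by
          exact_mod_cast U1
        have U2' : (s : ℝ) * (b (i + 1) * b (j + 1)) ≤ h (i + 1) (j + 2)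
            + r * (b (i + 2) * b (j + 1)) + r * (b (i + 1) * b j) := by
          exact_mod_cast U2
        have U3' : (s : ℝ) * (b i * b (j + 2)) ≤ h i (j + 2 + 1) + r * (b (i + 1) * b (j + 2))
            + r * (b i * b (j + 1)) := by
          exact_mod_cast U3
        have U4' : (s : ℝ) * (b (i + 1) * b (j + 2)) ≤ h (i + 1) (j + 2 + 1)
            + r * (b (i + 2) * b (j + 2)) + r * (b (i + 1) * b (j + 1)) := by
          exact_mod_cast U4
        linarith)
    rw [← hx] at this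
    linarith
  have key := avg3 H.b1 r0 _ _ _ 0 (fun j _ => step1 j)
  rw [← hx] at key
  linarith

/-- The bound from the linear parts of the syzygies. -/
lemma USys.stepL (H : USys b ℓ h μ c r e D) {lam : ℕ → ℕ} {t : ℕ}
    (la : ∀ i j, j + D ≤ i → h (i + 1) (j + 1) ≤ b i * lam (j + 1) + t * (b (i + 1) * b j))
    (le : ∀ j, 1 ≤ j → ℓ (j + 1) + lam (j + 2) ≤ (1 + e) * b (j + 1) + t * b j) :
    (c : ℝ) * (1 / rad b) * (1 + 1 / rad b + (1 / rad b) ^ 2)
      ≤ ((1 + e) * (1 / rad b) + t * (1 + (1 / rad b) ^ 2)) * (1 + 1 / rad b) ^ 2 := by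
  have r0 := H.rpos
  have xb : 1 ≤ 1 / rad b := by rw [one_le_div r0]; exact rad_le_one H.b1
  have bx0 : (0 : ℝ) < 1 / rad b := by linarith
  have bx : (0 : ℝ) < 1 + 1 / rad b := by linarith
  set x : ℝ := 1 / rad b with hx
  have step1 : ∀ j : ℕ, (c : ℝ) * x * b (j + 1) ≤ (1 + x) * ((lam (j + 1) : ℝ) + lam (j + 2))
      + t * x * (1 + x) * ((b j : ℝ) + b (j + 1)) := by
    intro j
    have key := avg3 H.b1 r0 ((lam (j + 1) : ℝ) + lam (j + 2))
      (((lam (j + 1) : ℝ) + lam (j + 2)) + t * ((b j : ℝ) + b (j + 1)) - c * b (j + 1))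
      (t * ((b j : ℝ) + b (j + 1))) (j + 2 + D) (fun i hi => by
        have S := H.sq (i + 1) (j + 1) (by omega)
        have U1 := la i j (by omega)
        have U2 := la (i + 1) j (by omega)
        have U3 := la i (j + 1) (by omega)
        have U4 := la (i + 1) (j + 1) (by omega)
        have U1' : (h (i + 1) (j + 1) : ℝ) ≤ b i * lam (j + 1) + t * (b (i + 1) * b j) := by
          exact_mod_cast U1
        have U2' : (h (i + 1 + 1) (j + 1) : ℝ) ≤ b (i + 1) * lam (j + 1)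
            + t * (b (i + 2) * b j) := by
          exact_mod_cast U2
        have U3' : (h (i + 1) (j + 1 + 1) : ℝ) ≤ b i * lam (j + 2)
            + t * (b (i + 1) * b (j + 1)) := by
          exact_mod_cast U3
        have U4' : (h (i + 1 + 1) (j + 1 + 1) : ℝ) ≤ b (i + 1) * lam (j + 2)
            + t * (b (i + 2) * b (j + 1)) := by
          exact_mod_cast U4
        linarith)
    rw [← hx] at key
    linarith
  have key := avg3 H.b1 r0 ((1 + x) * (t : ℝ))
    ((1 + x) * (1 + e) + (1 + x) * t - (1 + x) * c + t * x * (1 + x))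
    ((1 + x) * (1 + e) - c * x + t * x * (1 + x)) 1 (fun j hj => by
      have h1 := step1 (j + 1)
      have h2 := le j hj
      have h3 := le (j + 1) (by omega)
      have h4 := H.ls (j + 1)
      have h2' : (ℓ (j + 1) : ℝ) + lam (j + 2) ≤ (1 + e) * b (j + 1) + t * b j := by
        exact_mod_cast h2
      have h3' : (ℓ (j + 1 + 1) : ℝ) + lam (j + 1 + 2) ≤
          (1 + e) * b (j + 1 + 1) + t * b (j + 1) := by
        exact_mod_cast h3
      have h4' : (ℓ (j + 1) : ℝ) + ℓ (j + 1 + 1) = c * b (j + 1) := by exact_mod_cast h4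
      have e1 : lam (j + 1 + 2) = lam (j + 3) := rfl
      have e2 : b (j + 1 + 1) = b (j + 2) := rfl
      have e3 : lam (j + 1 + 1) = lam (j + 2) := rfl
      rw [e1, e2] at h3'
      rw [e1, e2, e3] at h1
      have h5 : (c : ℝ) * b (j + 1) + (lam (j + 2) + lam (j + 3))
          ≤ (1 + e) * ((b (j + 1) : ℝ) + b (j + 2)) + t * ((b j : ℝ) + b (j + 1)) := by
        linarith
      have h6 := mul_le_mul_of_nonneg_left h5 bx.le
      linarith)
  rw [← hx] at key
  linarith

section one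

variable (x1 : 1 / rad b = 1)

include x1

/-- Averaged form of `sm`. -/
lemma USys.sm_one (H : USys b ℓ h μ c r e D) (l n : ℕ) :
    (4 * (1 + r) - c : ℝ) * μ l n ≤ 2 * ℓ l := by
  have r0 := H.rpos
  set u : ℝ := (μ l n : ℝ) with hu
  have key := avg3 H.b1 r0 (-(2 * (r : ℝ) * u)) (2 * ℓ l - (2 + 2 * r - c) * u) (-(2 * u))
    (l + 1 + D) (fun j hj => by
    have := H.g_sm l n j hj
    rw [x1, gg_one, one_pow] at this
    linarith)
  rw [x1] at key
  linarith

/-- Averaged form of `B`. -/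
lemma USys.B_one (H : USys b ℓ h μ c r e D) (l n : ℕ) :
    4 * (r : ℝ) * (μ l (n + 1) + μ l n) ≤ c * μ l (n + 1) + 2 * ℓ l := by
  have r0 := H.rpos
  set u : ℝ := (μ l (n + 1) : ℝ) with hu
  set v : ℝ := (r : ℝ) * ((μ l (n + 1) : ℝ) + μ l n) with hv
  -- average in `i`
  have step1 : ∀ j : ℕ, l + D + 1 ≤ j → 0 ≤ -(2 * v) * (b j : ℝ)
      + (c * u + 2 * ℓ l - 2 * v) * b (j + 1) + 0 * b (j + 2) := by
    intro j hj
    set Y : ℝ := (b j : ℝ) + b (j + 1) with hY
    have key := avg_lin H.b1 r0 (N := 4)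
      ![(b (j + 1) : ℝ) * ℓ l, (b (j + 1) : ℝ) * ℓ l,
        -(v * Y) + c * b (j + 1) * u, -(v * Y)]
      ![0, 1, n + 1, n + 2] (j + 2 + D) (fun i hi => by
        have S := H.sq (i + n + 1) (j + 1) (by omega)
        have T := H.hs (j + 1) l (by omega)
        have T' : (h (j + 1) l : ℝ) + h (j + 1 + 1) l = b (j + 1) * ℓ l := by exact_mod_cast T
        have L1 := H.B l n i j (by omega) (by omega)
        have L2 := H.B l n (i + 1) j (by omega) (by omega)
        have L3 := H.B l n i (j + 1) (by omega) (by omega)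
        have L4 := H.B l n (i + 1) (j + 1) (by omega) (by omega)
        have e1 : i + 1 + n + 1 = i + n + 2 := by omega
        rw [e1] at L2 L4
        have L1' : (r : ℝ) * (b (i + n + 1) * b j) * (μ l (n + 1) + μ l n)
            ≤ h (i + n + 1) (j + 1) * u + b i * h (j + 1) l := by
          rw [hu]; exact_mod_cast L1
        have L2' : (r : ℝ) * (b (i + n + 2) * b j) * (μ l (n + 1) + μ l n)
            ≤ h (i + n + 2) (j + 1) * u + b (i + 1) * h (j + 1) l := by
          rw [hu]; exact_mod_cast L2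
        have L3' : (r : ℝ) * (b (i + n + 1) * b (j + 1)) * (μ l (n + 1) + μ l n)
            ≤ h (i + n + 1) (j + 1 + 1) * u + b i * h (j + 1 + 1) l := by
          rw [hu]; exact_mod_cast L3
        have L4' : (r : ℝ) * (b (i + n + 2) * b (j + 1)) * (μ l (n + 1) + μ l n)
            ≤ h (i + n + 2) (j + 1 + 1) * u + b (i + 1) * h (j + 1 + 1) l := by
          rw [hu]; exact_mod_cast L4
        have S' : ((h (i + n + 1) (j + 1) : ℝ) + h (i + n + 1 + 1) (j + 1)
            + h (i + n + 1) (j + 1 + 1) + h (i + n + 1 + 1) (j + 1 + 1)) * u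
            = (c * (b (i + n + 1) * b (j + 1))) * u := by
          rw [S]
        have T1 : (b i : ℝ) * (h (j + 1) l + h (j + 1 + 1) l) = b i * (b (j + 1) * ℓ l) := by
          rw [T']
        have T2 : (b (i + 1) : ℝ) * (h (j + 1) l + h (j + 1 + 1) l)
            = b (i + 1) * (b (j + 1) * ℓ l) := by
          rw [T']
        simp only [Fin.sum_univ_succ, Fin.sum_univ_zero, Matrix.cons_val_zero,
          Matrix.cons_val_succ, add_zero]
        have e3 : i + (n + 1) = i + n + 1 := by omega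
        have e4 : i + (n + 2) = i + n + 2 := by omega
        have e5 : i + n + 1 + 1 = i + n + 2 := by omega
        rw [e3, e4, hY, hv]
        rw [e5] at S'
        linarith)
    simp only [Fin.sum_univ_succ, Fin.sum_univ_zero, Matrix.cons_val_zero,
      Matrix.cons_val_succ, add_zero, mul_one, x1, one_pow] at key
    rw [hY] at key
    linarith
  have key := avg3 H.b1 r0 _ _ _ (l + D + 1) step1
  rw [x1] at key
  rw [hv] at key
  linarith

/-- The length of the ring is at least `4 (1 + r)`. -/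
theorem USys.c_ge (H : USys b ℓ h μ c r e D) (hr : 2 ≤ r) (h11 : r = 2 → c ≠ 11) :
    4 * (1 + r) ≤ c := by
  have r0 := H.rpos
  by_contra hne
  have hlt : c < 4 * (1 + r) := by omega
  have hc1 : (c : ℝ) + 1 ≤ 4 * (1 + r) := by exact_mod_cast hlt
  have hr2 : (2 : ℝ) ≤ r := by exact_mod_cast hr
  -- the Bass numbers are bounded
  have bdd : ∀ l n, μ l n ≤ 2 * ℓ l := by
    intro l n
    have h1 := H.sm_one x1 l n
    have h2 : (0 : ℝ) ≤ μ l n := by positivity
    have h3 : (μ l n : ℝ) ≤ 2 * ℓ l := by nlinarith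
    exact_mod_cast h3
  have mx : ∀ l, ∃ n0, ∀ n, μ l n ≤ μ l n0 := by
    intro l
    have hfin : (Set.range (μ l)).Finite :=
      Set.Finite.subset (Set.finite_Iic (2 * ℓ l)) (by rintro _ ⟨n, rfl⟩; exact bdd l n)
    have hne : (Set.range (μ l)).Nonempty := ⟨_, ⟨0, rfl⟩⟩
    obtain ⟨s, ⟨n0, rfl⟩, hs⟩ := hfin.exists_maximal hne
    refine ⟨n0, fun n => ?_⟩
    rcases le_total (μ l n) (μ l n0) with h | h
    · exact h
    · exact hs ⟨n, rfl⟩ h
  -- both cases give an inequality for all `l`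
  rcases Nat.lt_or_ge c (4 * r) with hcr | hcr
  · have hcr' : (c : ℝ) < 4 * r := by exact_mod_cast hcr
    have one : ∀ l, 4 * (r : ℝ) * (r * b (l + 1)) ≤ 2 * ℓ (l + 2) := by
      intro l
      obtain ⟨n0, hn0⟩ := mx (l + 2)
      have h1 := H.B_one x1 (l + 2) n0
      have h3 : (r : ℝ) * b (l + 1) ≤ μ (l + 2) 0 := by exact_mod_cast H.mu0 l
      have h4 : (μ (l + 2) 0 : ℝ) ≤ μ (l + 2) n0 := by exact_mod_cast hn0 0
      have h5 : (0 : ℝ) ≤ μ (l + 2) (n0 + 1) := by positivity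
      have h6 : ((c : ℝ) - 4 * r) * μ (l + 2) (n0 + 1) ≤ 0 :=
        mul_nonpos_of_nonpos_of_nonneg (by linarith) h5
      have h7 : 4 * (r : ℝ) * (r * b (l + 1)) ≤ 4 * r * μ (l + 2) n0 :=
        mul_le_mul_of_nonneg_left (h3.trans h4) (by positivity)
      linarith
    have key := avg3 H.b1 r0 (-(4 * (r : ℝ) * r)) (2 * (c : ℝ) - 4 * r * r) 0 1 (fun k hk => by
      obtain ⟨l, rfl⟩ : ∃ l, k = l + 1 := ⟨k - 1, by omega⟩
      have h1 := one l
      have h2 := one (l + 1)
      have h5 : (ℓ (l + 2) : ℝ) + ℓ (l + 1 + 2) = c * b (l + 2) := by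
        exact_mod_cast H.ls (l + 2)
      have e1 : l + 1 + 1 = l + 2 := rfl
      rw [e1] at h2 ⊢
      linarith)
    rw [x1] at key
    nlinarith
  · have hcr' : (4 : ℝ) * r ≤ c := by exact_mod_cast hcr
    have p0 : 0 < 8 * (r : ℝ) - c := by linarith
    have one : ∀ l, (8 * (r : ℝ) - c) * (r * b (l + 1)) ≤ 2 * ℓ (l + 2) := by
      intro l
      obtain ⟨n0, hn0⟩ := mx (l + 2)
      have h1 := H.B_one x1 (l + 2) n0
      have h3 : (r : ℝ) * b (l + 1) ≤ μ (l + 2) 0 := by exact_mod_cast H.mu0 l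
      have h4 : (μ (l + 2) 0 : ℝ) ≤ μ (l + 2) n0 := by exact_mod_cast hn0 0
      have h5 : (μ (l + 2) (n0 + 1) : ℝ) ≤ μ (l + 2) n0 := by exact_mod_cast hn0 (n0 + 1)
      have h6 : ((c : ℝ) - 4 * r) * μ (l + 2) (n0 + 1) ≤ (c - 4 * r) * μ (l + 2) n0 :=
        mul_le_mul_of_nonneg_left h5 (by linarith)
      have h7 : (8 * (r : ℝ) - c) * (r * b (l + 1)) ≤ (8 * r - c) * μ (l + 2) n0 :=
        mul_le_mul_of_nonneg_left (h3.trans h4) p0.le
      linarith
    have key := avg3 H.b1 r0 (-((8 * (r : ℝ) - c) * r)) (2 * (c : ℝ) - (8 * r - c) * r) 0 1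
      (fun k hk => by
      obtain ⟨l, rfl⟩ : ∃ l, k = l + 1 := ⟨k - 1, by omega⟩
      have h1 := one l
      have h2 := one (l + 1)
      have h5 : (ℓ (l + 2) : ℝ) + ℓ (l + 1 + 2) = c * b (l + 2) := by
        exact_mod_cast H.ls (l + 2)
      have e1 : l + 1 + 1 = l + 2 := rfl
      rw [e1] at h2 ⊢
      linarith)
    rw [x1] at key
    have h8 : (8 : ℝ) * r * r ≤ c * (1 + r) := by linarith
    have h8' : 8 * r * r ≤ c * (1 + r) := by exact_mod_cast h8
    have r2 : r = 2 := by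
      by_contra h
      have h3 : 3 ≤ r := by omega
      have h9 : c * (1 + r) ≤ (4 * r + 3) * (1 + r) := Nat.mul_le_mul_right _ (by omega)
      nlinarith
    have h12 := h11 r2
    subst r2
    omega

end one

/-- The main numerical statement. -/
theorem USys.main (H : USys b ℓ h μ c r e D) (hr : 2 ≤ r) (h11 : r = 2 → c ≠ 11)
    (hZ : 1 < 1 / rad b → (1 + (r : ℝ)) * (1 + 1 / rad b) ^ 2 ≤ c * (1 / rad b))
    {s t : ℕ} {lam : ℕ → ℕ}
    (hD : ∀ i j, j + 2 + D ≤ i →
      s * (b i * b (j + 1)) ≤ h i (j + 2) + r * (b (i + 1) * b (j + 1)) + r * (b i * b j))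
    (la : ∀ i j, j + D ≤ i → h (i + 1) (j + 1) ≤ b i * lam (j + 1) + t * (b (i + 1) * b j))
    (le : ∀ j, 1 ≤ j → ℓ (j + 1) + lam (j + 2) ≤ (1 + e) * b (j + 1) + t * b j) :
    ∃ y z : ℝ, y * z = c ∧ 4 ≤ y ∧ (r : ℝ) + 1 ≤ z ∧ (e : ℝ) + 3 ≤ y + z ∧
      (s : ℝ) ≤ z + r * (y - 2) ∧ (y - 1) * z ≤ e + 1 + (y - 2) * t ∧
      ∀ α β : ℕ, (∀ i j, j + D ≤ i →
        h (i + 1) (j + 1) ≤ b i * (b (j + 1) * α) + β * (b (i + 1) * b j)) →
        z ≤ α + β := by
  have r0 := H.rpos
  have xb : 1 ≤ 1 / rad b := by rw [one_le_div r0]; exact rad_le_one H.b1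
  have S := H.stepS
  have Dd := H.stepD hD
  have L := H.stepL la le
  have U : ∀ α β : ℕ, (∀ i j, j + D ≤ i →
      h (i + 1) (j + 1) ≤ b i * (b (j + 1) * α) + β * (b (i + 1) * b j)) →
      (c : ℝ) * (1 / rad b) ≤ (α + β) * (1 + 1 / rad b) ^ 2 := fun α β h => H.stepU h
  have Z : (1 + (r : ℝ)) * (1 + 1 / rad b) ^ 2 ≤ c * (1 / rad b) := by
    rcases eq_or_lt_of_le xb with x1 | x1
    · have h1 := H.c_ge x1.symm hr h11
      have h2 : (4 : ℝ) * (1 + r) ≤ c := by exact_mod_cast h1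
      rw [← x1]
      linarith
    · exact hZ x1
  set x : ℝ := 1 / rad b with hx
  have x0 : 0 < x := by linarith
  have p : 0 < (1 + x) ^ 2 := by positivity
  have p' : 0 < x * (1 + x) ^ 2 := by positivity
  obtain ⟨y, hy⟩ : ∃ y : ℝ, y * x = (1 + x) ^ 2 := ⟨(1 + x) ^ 2 / x, by field_simp⟩
  obtain ⟨z, hz⟩ : ∃ z : ℝ, z * (1 + x) ^ 2 = c * x := ⟨c * x / (1 + x) ^ 2, by field_simp⟩
  have yx : (y - 2) * x = 1 + x ^ 2 := by linarith
  have y1x : (y - 1) * x = 1 + x + x ^ 2 := by linarith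
  refine ⟨y, z, ?_, ?_, ?_, ?_, ?_, ?_, ?_⟩
  · have : (y * z) * x = c * x := by
      calc (y * z) * x = z * (y * x) := by ring
        _ = _ := by rw [hy, hz]
    exact mul_right_cancel₀ x0.ne' this
  · have : 4 * x ≤ y * x := by rw [hy]; nlinarith [sq_nonneg (x - 1)]
    exact le_of_mul_le_mul_right this x0
  · have : ((r : ℝ) + 1) * (1 + x) ^ 2 ≤ z * (1 + x) ^ 2 := by rw [hz]; linarith
    exact le_of_mul_le_mul_right this p
  · have : ((e : ℝ) + 3) * (x * (1 + x) ^ 2) ≤ (y + z) * (x * (1 + x) ^ 2) := by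
      have e1 : (y + z) * (x * (1 + x) ^ 2) = (y * x) * (1 + x) ^ 2 + x * (z * (1 + x) ^ 2) := by
        ring
      rw [e1, hy, hz]
      nlinarith
    exact le_of_mul_le_mul_right this p'
  · have : (s : ℝ) * (x * (1 + x) ^ 2) ≤ (z + r * (y - 2)) * (x * (1 + x) ^ 2) := by
      have e1 : (z + r * (y - 2)) * (x * (1 + x) ^ 2) =
          x * (z * (1 + x) ^ 2) + r * ((y - 2) * x) * (1 + x) ^ 2 := by
        ring
      rw [e1, yx, hz]
      linarith
    exact le_of_mul_le_mul_right this p'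
  · have : ((y - 1) * z) * (x * (1 + x) ^ 2) ≤ (e + 1 + (y - 2) * t) * (x * (1 + x) ^ 2) := by
      have e1 : ((y - 1) * z) * (x * (1 + x) ^ 2) = ((y - 1) * x) * (z * (1 + x) ^ 2) := by ring
      have e2 : (e + 1 + (y - 2) * t) * (x * (1 + x) ^ 2) =
          ((e + 1) * x + ((y - 2) * x) * t) * (1 + x) ^ 2 := by ring
      rw [e1, e2, y1x, yx, hz]
      linarith
    exact le_of_mul_le_mul_right this p'
  · intro α β hU
    have h1 := U α β hU
    have : z * (1 + x) ^ 2 ≤ ((α : ℝ) + β) * (1 + x) ^ 2 := by rw [hz]; exact h1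
    exact le_of_mul_le_mul_right this p

end SAC63
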