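import Mathlib
import Pool.Agent.Lib.SAC63.LMain
import Pool.Agent.Lib.SAC63.UNum

/-!
Artinian local rings of arbitrary Loewy length: inequalities forced by a module which is not free.
-/

set_option autoImplicit false

open CategoryTheory IsLocalRing

universe u

namespace SAC63

open SAC84 SAC75

section dual

variable {R : Type u} [CommRing R] [IsLocalRing R] [IsNoetherianRing R] [IsArtinianRing R]

omit [IsLocalRing R] [IsNoetherianRing R] in
lemma ln_ker_range {A C : Type u} [AddCommGroup A] [Module R A] [Module.Finite R A]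
    [AddCommGroup C] [Module R C] [Module.Finite R C] (φ : A →ₗ[R] C) :
    ln R A ≤ ln R (LinearMap.ker φ) + ln R C := by
  have h1 : ln R A = ln R (LinearMap.ker φ) + ln R (LinearMap.range φ) :=
    ln_add (LinearMap.ker φ).injective_subtype φ.surjective_rangeRestrict (by
      intro x
      constructor
      · intro hx
        exact ⟨⟨x, congrArg Subtype.val hx⟩, rfl⟩
      · rintro ⟨y, rfl⟩
        exact Subtype.ext y.2)
  have h2 : ln R (LinearMap.range φ) ≤ ln R C :=
    ln_le_inj (f := (LinearMap.range φ).subtype) (LinearMap.range φ).injective_subtype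
  omega

omit [IsNoetherianRing R] [IsArtinianRing R] in
lemma mem_soc_of {x v : R} (hx : x ∈ maximalIdeal R)
    (hv : v ∈ (maximalIdeal R ^ 2 : Ideal R).annihilator) :
    x * v ∈ (maximalIdeal R).annihilator := by
  rw [Submodule.mem_annihilator]
  intro a ha
  have h1 : a * x ∈ (maximalIdeal R ^ 2 : Ideal R) := by
    rw [pow_two]
    exact Ideal.mul_mem_mul ha hx
  have h2 := (Submodule.mem_annihilator.1 hv) _ h1
  rw [smul_eq_mul] at h2 ⊢
  linear_combination h2

/-- A lower bound for the length of the module of homomorphisms by the second socle. -/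
lemma hl_ge_dual (M : FGM R) (i j : ℕ) :
    ln R ((maximalIdeal R ^ 2 : Ideal R).annihilator) * (bt M i * bt M (j + 1)) ≤
      ln R ((sy M i).car →ₗ[R] (sy M (j + 2)).car) +
        ln R (maximalIdeal R).annihilator * (bt M (i + 1) * bt M (j + 1)) +
        ln R (maximalIdeal R).annihilator * (bt M i * bt M j) := by
  let T : Ideal R := (maximalIdeal R ^ 2 : Ideal R).annihilator
  let A := Fin (bt M i) → (Fin (bt M (j + 1)) → T)
  let emb : A →ₗ[R] (Fin (bt M i) → (Fin (bt M (j + 1)) → R)) :=
    { toFun := fun v s t => (v s t : R)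
      map_add' := fun _ _ => rfl
      map_smul' := fun _ _ => rfl }
  let Γ : A →ₗ[R] ((Fin (bt M i) → R) →ₗ[R] (Fin (bt M (j + 1)) → R)) :=
    (homPi (R := R) (Y := Fin (bt M (j + 1)) → R) (bt M i)).toLinearMap ∘ₗ emb
  have hΓs : ∀ (v : A) s, Γ v (Pi.single s 1) = fun t => (v s t : R) := fun v s =>
    congrFun ((homPi (R := R) (Y := Fin (bt M (j + 1)) → R) (bt M i)).symm_apply_apply
      (emb v)) s
  have hΓ : ∀ (v : A) (w : Fin (bt M i) → R) t, Γ v w t = ∑ s, w s * (v s t : R) := by
    intro v w t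
    rw [sum_single (Γ v) w, Finset.sum_apply]
    refine Finset.sum_congr rfl fun s _ => ?_
    rw [hΓs]
    rfl
  -- the first condition
  have m1 : ∀ (v : A) (x : (sy M (i + 1)).car) t,
      Γ v (inc M i x) t ∈ (maximalIdeal R).annihilator := by
    intro v x t
    rw [hΓ]
    exact Ideal.sum_mem _ fun s _ => mem_soc_of (inc_mem M i x s) (v s t).2
  let φ1 : A →ₗ[R] (Fin (bt M (i + 1)) → (Fin (bt M (j + 1)) → (maximalIdeal R).annihilator)) :=
    { toFun := fun v s t => ⟨Γ v (inc M i (pro M (i + 1) (Pi.single s 1))) t, m1 v _ t⟩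
      map_add' := by
        intro v w
        ext s t
        simp
      map_smul' := by
        intro a v
        ext s t
        simp }
  -- the second condition
  have m2 : ∀ (v : A) (s : Fin (bt M i)) t,
      inc M j (pro M (j + 1) (fun t' => (v s t' : R))) t ∈ (maximalIdeal R).annihilator := by
    intro v s t
    have h1 := sum_single ((LinearMap.proj t : (Fin (bt M j) → R) →ₗ[R] R) ∘ₗ inc M j ∘ₗ
      pro M (j + 1)) (fun t' => (v s t' : R))
    change inc M j (pro M (j + 1) (fun t' => (v s t' : R))) t = _ at h1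
    rw [h1]
    refine Ideal.sum_mem _ fun s' _ => ?_
    rw [smul_eq_mul, mul_comm]
    exact mem_soc_of (inc_mem M j _ t) (v s s').2
  let φ2 : A →ₗ[R] (Fin (bt M i) → (Fin (bt M j) → (maximalIdeal R).annihilator)) :=
    { toFun := fun v s t => ⟨inc M j (pro M (j + 1) (fun t' => (v s t' : R))) t, m2 v s t⟩
      map_add' := by
        intro v w
        ext s t
        have : (fun t' => ((v + w) s t' : R)) = (fun t' => (v s t' : R)) +
            fun t' => (w s t' : R) := rfl
        simp only [this, map_add]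
        rfl
      map_smul' := by
        intro a v
        ext s t
        have : (fun t' => ((a • v) s t' : R)) = a • (fun t' => (v s t' : R)) := rfl
        simp only [this, map_smul]
        rfl }
  let φ := φ1.prod φ2
  let N : Submodule R A := LinearMap.ker φ
  have k1 := ln_ker_range φ
  have k2 := ln_add (R := R)
    (f := LinearMap.inl R (Fin (bt M (i + 1)) → (Fin (bt M (j + 1)) →
      (maximalIdeal R).annihilator)) (Fin (bt M i) → (Fin (bt M j) →
      (maximalIdeal R).annihilator)))
    (g := LinearMap.snd R (Fin (bt M (i + 1)) → (Fin (bt M (j + 1)) →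
      (maximalIdeal R).annihilator)) (Fin (bt M i) → (Fin (bt M j) →
      (maximalIdeal R).annihilator)))
    LinearMap.inl_injective LinearMap.snd_surjective (by
      intro x
      constructor
      · intro hx
        exact ⟨x.1, Prod.ext rfl hx.symm⟩
      · rintro ⟨y, rfl⟩
        rfl)
  rw [ln_pi, ln_pi, ln_pi, ln_pi] at k2
  have hA : ln R A = bt M i * (bt M (j + 1) * ln R T) := by rw [ln_pi, ln_pi]
  -- the kernel consists of homomorphisms between the syzygies
  let Ξ : ((sy M i).car →ₗ[R] (sy M (j + 2)).car) →ₗ[R]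
      ((Fin (bt M i) → R) →ₗ[R] (Fin (bt M (j + 1)) → R)) :=
    (LinearMap.lcomp R _ (pro M i)) ∘ₗ (pc (inc M (j + 1)))
  have hΞ : Function.Injective Ξ :=
    (LinearMap.lcomp_injective_of_surjective _ (pro_surj M i)).comp (pc_inj (inc_inj M (j + 1)))
  have key : ∀ v : N, Γ v.1 ∈ LinearMap.range Ξ := by
    intro v
    have c0 : φ v.1 = 0 := v.2
    have c1 : φ1 v.1 = 0 := congrArg Prod.fst c0
    have c2 : φ2 v.1 = 0 := congrArg Prod.snd c0
    have d1 : ∀ x : (sy M (i + 1)).car, Γ v.1 (inc M i x) = 0 := by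
      intro x
      obtain ⟨w, rfl⟩ := pro_surj M (i + 1) x
      have h1 := sum_single (Γ v.1 ∘ₗ inc M i ∘ₗ pro M (i + 1)) w
      change Γ v.1 (inc M i (pro M (i + 1) w)) = _ at h1
      rw [h1]
      refine Finset.sum_eq_zero fun s _ => ?_
      have h2 : (Γ v.1 ∘ₗ inc M i ∘ₗ pro M (i + 1)) (Pi.single s 1) = 0 := by
        funext t
        have h3 := congrArg Subtype.val (congrFun (congrFun c1 s) t)
        exact h3
      rw [h2, smul_zero]
    have hex := LinearMap.exact_lcomp_of_exact_of_surjective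
      (Fin (bt M (j + 1)) → R) (inc_pro M i) (pro_surj M i)
    obtain ⟨g, hg⟩ := (hex (Γ v.1)).1 (LinearMap.ext d1)
    have hg' : ∀ w, g (pro M i w) = Γ v.1 w := fun w => congrArg (fun z => z w) hg
    have d2 : ∀ y : (sy M i).car, g y ∈ LinearMap.range (inc M (j + 1)) := by
      intro y
      obtain ⟨w, rfl⟩ := pro_surj M i y
      rw [hg', sum_single (Γ v.1) w]
      refine Submodule.sum_mem _ fun s _ => Submodule.smul_mem _ _ ?_
      rw [hΓs]
      refine (inc_pro M (j + 1) _).1 ?_
      apply inc_inj M j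
      rw [map_zero]
      funext t
      exact congrArg Subtype.val (congrFun (congrFun c2 s) t)
    let e := LinearEquiv.ofInjective (inc M (j + 1)) (inc_inj M (j + 1))
    refine ⟨e.symm.toLinearMap ∘ₗ g.codRestrict (LinearMap.range (inc M (j + 1))) d2, ?_⟩
    apply LinearMap.ext
    intro w
    change inc M (j + 1) (e.symm (g.codRestrict (LinearMap.range (inc M (j + 1))) d2
      (pro M i w))) = _
    have h1 := congrArg Subtype.val (e.apply_symm_apply
      (g.codRestrict (LinearMap.range (inc M (j + 1))) d2 (pro M i w)))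
    have h2 : inc M (j + 1) (e.symm (g.codRestrict (LinearMap.range (inc M (j + 1))) d2
      (pro M i w))) = g (pro M i w) := h1
    rw [h2, hg']
  let Θ : N →ₗ[R] LinearMap.range Ξ :=
    (Γ ∘ₗ N.subtype).codRestrict (LinearMap.range Ξ) key
  have hΘ : Function.Injective Θ := by
    intro v w hvw
    have h1 : Γ v.1 = Γ w.1 := congrArg Subtype.val hvw
    apply Subtype.ext
    funext s t
    apply Subtype.ext
    have h2 : Γ v.1 (Pi.single s 1) = Γ w.1 (Pi.single s 1) := by rw [h1]
    rw [hΓs, hΓs] at h2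
    exact congrFun h2 t
  have k3 := ln_le_inj (f := (LinearEquiv.ofInjective Ξ hΞ).symm.toLinearMap ∘ₗ Θ)
    ((LinearEquiv.ofInjective Ξ hΞ).symm.injective.comp hΘ)
  have e1 : ln R T * (bt M i * bt M (j + 1)) = ln R A := by rw [hA]; ring
  have e2 : bt M (i + 1) * (bt M (j + 1) * ln R (maximalIdeal R).annihilator) =
      ln R (maximalIdeal R).annihilator * (bt M (i + 1) * bt M (j + 1)) := by ring
  have e3 : bt M i * (bt M j * ln R (maximalIdeal R).annihilator) =
      ln R (maximalIdeal R).annihilator * (bt M i * bt M j) := by ring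
  rw [e2, e3] at k2
  rw [k2] at k1
  change ln R T * (bt M i * bt M (j + 1)) ≤ _
  rw [e1]
  have k1' : ln R A ≤ ln R N +
      (ln R (maximalIdeal R).annihilator * (bt M (i + 1) * bt M (j + 1)) +
      ln R (maximalIdeal R).annihilator * (bt M i * bt M j)) := k1
  omega

end dual

section main

variable {R : Type u} [CommRing R] [IsLocalRing R] [IsArtinianRing R] [IsNoetherianRing R]
  [HasExt.{u} (ModuleCat.{u} R)]

theorem usys (M : FGM R) (h : ¬ Module.Free R M.car)
    (hR : ∀ n, ExtZ R M.car R (n + 1)) {N : ℕ} (hM : ∀ n, N ≤ n → ExtZ R M.car M.car n) :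
    USys (bt M) (fun i => ln R (sy M i).car) (hl M)
      (fun l => mu R (sy M l).car) (ln R R) (ln R (maximalIdeal R).annihilator)
      (Module.finrank (ResidueField R) (CotangentSpace R)) (N + 4) := by
  have hV : ∀ i j, N + j ≤ 1 + i → ExtZ R (sy M i).car (sy M j).car 1 :=
    fun i j h' => ext_sy_sy M hR hM (n := 0) (by omega)
  have hE : ∀ i, ExtZ R (sy M i).car R 1 := fun i => ext_sy_ring M hR i 0
  have HH := hsys M h hR hM
  refine ⟨bt_pos' M h, bt_up M, HH.ls, ?_, ?_, ?_, ?_, mu_nz M h, ?_⟩
  · intro i j hij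
    exact hl_add M i j (hV i j (by omega))
  · intro i j hij
    exact HH.S i j (by omega)
  · intro l n i j hlj hij
    have h1 := pieceP1' M hR hM (i := i + n + 1) (j := j + 1) (l := l) (n := n)
      (by omega) (by omega) (by omega)
    have e1 : i + n + 1 - 1 = i + n := by omega
    have e2 : j + 1 - 1 = j := by omega
    have e3 : i + n - n = i := by omega
    rw [e1, e2, e3] at h1
    set a := bt M (i + n) * bt M (j + 1) +
      ln R (maximalIdeal R).annihilator * (bt M (i + n + 1) * bt M j) with ha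
    set t := mu R (sy M l).car n with ht
    calc a * t ≤ (hl M (i + n + 1) (j + 1) + (a - hl M (i + n + 1) (j + 1))) * t :=
          Nat.mul_le_mul_right _ (by omega)
      _ = hl M (i + n + 1) (j + 1) * t + (a - hl M (i + n + 1) (j + 1)) * t := by ring
      _ ≤ _ := Nat.add_le_add_left h1 _
  · intro l n i j hlj hij
    obtain ⟨j', rfl⟩ : ∃ j', j = j' + 1 := ⟨j - 1, by omega⟩
    have h1 := soc_sy M j'
    have h2 := soc_hom (R := R) (sy M (i + n + 1)).car (sy M (j' + 2)).car
    have h3 := SAC94.decay' M (sy M l).car i (j' + 2) (fun i' _ => hV _ _ (by omega))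
      (fun n => ext_sy_sy M hR hM (by omega)) n
    have h4' : ln R (maximalIdeal R).annihilator * (bt M (i + n + 1) * bt M (j' + 1)) ≤
        ln R (SAC3.soc R ((sy M (i + n + 1)).car →ₗ[R] (sy M (j' + 2)).car)) := by
      refine le_trans ?_ h2
      calc ln R (maximalIdeal R).annihilator * (bt M (i + n + 1) * bt M (j' + 1))
          = bt M (i + n + 1) * (bt M (j' + 1) * ln R (maximalIdeal R).annihilator) := by ring
        _ ≤ bt M (i + n + 1) * ln R (SAC3.soc R (sy M (j' + 2)).car) :=
          Nat.mul_le_mul_left _ h1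
    exact low_sub (sy M l).car
      (SAC3.soc R ((sy M (i + n + 1)).car →ₗ[R] (sy M (j' + 2)).car))
      (fun a ha x => Subtype.ext (x.2 a ha)) h4' h3
  · intro l
    have h1 := soc_sy M l
    rw [ln_soc_le_mu] at h1
    rw [mul_comm]
    exact h1

/-- Theorem U. -/
theorem thmU (hr : 2 ≤ ln R (maximalIdeal R).annihilator)
    (h11 : ln R (maximalIdeal R).annihilator = 2 → ln R R ≠ 11)
    (M : FGM R) (h : ¬ Module.Free R M.car)
    (hR : ∀ n, ExtZ R M.car R (n + 1)) {N : ℕ} (hM : ∀ n, N ≤ n → ExtZ R M.car M.car n) :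
    ∃ y z : ℝ, y * z = ln R R ∧ 4 ≤ y ∧ (ln R (maximalIdeal R).annihilator : ℝ) + 1 ≤ z ∧
      (Module.finrank (ResidueField R) (CotangentSpace R) : ℝ) + 3 ≤ y + z ∧
      (ln R ((maximalIdeal R ^ 2 : Ideal R).annihilator) : ℝ) ≤
        z + ln R (maximalIdeal R).annihilator * (y - 2) ∧
      (y - 1) * z ≤ Module.finrank (ResidueField R) (CotangentSpace R) + 1 +
        (y - 2) * ln R (maximalIdeal R ^ 3 : Ideal R) ∧
      ∀ J : Ideal R, z ≤ (ln R (R ⧸ J) : ℝ) + ln R (maximalIdeal R ^ 2 * J : Ideal R) := by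
  have hV : ∀ i j, N + j ≤ 1 + i → ExtZ R (sy M i).car (sy M j).car 1 :=
    fun i j h' => ext_sy_sy M hR hM (n := 0) (by omega)
  have hE : ∀ i, ExtZ R (sy M i).car R 1 := fun i => ext_sy_ring M hR i 0
  obtain ⟨y, z, h1, h2, h3, h4, h5, h6, h7⟩ := USys.main (usys M h hR hM) hr h11
    (HSys.zbound (hsys M h hR hM))
    (s := ln R ((maximalIdeal R ^ 2 : Ideal R).annihilator))
    (t := ln R (maximalIdeal R ^ 3 : Ideal R)) (lam := lamJ M)
    (fun i j _ => hl_ge_dual M i j)
    (fun i j hij => hl_le_lam_cube M i j (hV _ _ (by omega)) (hE _))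
    (fun j _ => by
      have h1 := ln_sy_le M j
      rw [ln_quot_sq R] at h1
      change ln R (sy M (j + 1)).car + lam M (j + 1) ≤ _
      linarith)
  refine ⟨y, z, h1, h2, h3, h4, h5, h6, fun J => h7 _ _ fun i j hij => ?_⟩
  exact hl_le_ideal J M i j (hV _ _ (by omega)) (hE _)

end main

end SAC63
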